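import Pool.Agent.Y254.EL.Rem
import Pool.Agent.W46.KK.Tubes
set_option autoImplicit false

/-!
# From Euclidean tubes with a loss to the slope model
-/

open MeasureTheory Set Metric
open scoped ENNReal NNReal

namespace Pool.Agent.Y254.EL
open Pool.Agent.Y254 (mult mult_meas mult_le mult_ne_top mult_zero_or pmult pmult_eq sum_card_parts
  floor_near)
open Pool.Agent.W46.KK (tube eqvj eqvj_mp eqvj_symm near_axis tube_isClosed)

variable {d : ℕ}

/-- The inequality with a loss for Euclidean tubes. -/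
def EuL (d : ℕ) (q ε C : ℝ) : Prop := ∀ δ : ℝ, 0 < δ → δ < 1 → ∀ (ι : Type) [Fintype ι]
    (a e : ι → EuclideanSpace ℝ (Fin (d + 1))), (∀ i, ‖e i‖ = 1) →
    (∀ i j, i ≠ j → δ ≤ ‖e i - e j‖) →
    ∫⁻ x, mult (fun i => tube δ (a i) (e i)) x ^ q ≤
      ENNReal.ofReal (C * (δ ^ (-ε) * (δ ^ d * (Fintype.card ι : ℝ) ^ (q - 1 / (d : ℝ)))))

theorem norm_le_coord {x : EuclideanSpace ℝ (Fin (d + 1))} {M : ℝ} (hM : 0 ≤ M)
    (h : ∀ j, |x j| ≤ M) : ‖x‖ ≤ ((d : ℝ) + 1) * M := by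
  have hd1 : (1 : ℝ) ≤ (d : ℝ) + 1 := by
    have : (0 : ℝ) ≤ d := Nat.cast_nonneg _
    linarith
  rw [EuclideanSpace.norm_eq]
  calc Real.sqrt (∑ i, ‖x i‖ ^ 2) ≤ Real.sqrt (∑ _i : Fin (d + 1), M ^ 2) := by
        apply Real.sqrt_le_sqrt
        apply Finset.sum_le_sum
        intro i _
        have := h i
        rw [Real.norm_eq_abs]
        gcongr
    _ = Real.sqrt ((d : ℝ) + 1) * M := by
        rw [Finset.sum_const, Finset.card_univ, Fintype.card_fin, nsmul_eq_mul,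
          Real.sqrt_mul (by positivity), Real.sqrt_sq hM]
        push_cast
        rfl
    _ ≤ ((d : ℝ) + 1) * M := by
        gcongr
        rw [Real.sqrt_le_left (by positivity)]
        nlinarith

/-- The vector with slope `v`. -/
noncomputable def wv (v : Fin d → ℝ) : EuclideanSpace ℝ (Fin (d + 1)) :=
  WithLp.toLp 2 ((0 : Fin (d + 1)).insertNth (α := fun _ => ℝ) 1 v)

theorem wv_zero (v : Fin d → ℝ) : wv v 0 = 1 := by
  rw [wv, PiLp.toLp_apply, Fin.insertNth_apply_same]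

theorem wv_succ (v : Fin d → ℝ) (k : Fin d) : wv v ((0 : Fin (d + 1)).succAbove k) = v k := by
  rw [wv, PiLp.toLp_apply, Fin.insertNth_apply_succAbove]

theorem wv_ge (v : Fin d → ℝ) : 1 ≤ ‖wv v‖ := by
  have := PiLp.norm_apply_le (wv v) 0
  rwa [wv_zero, Real.norm_eq_abs, abs_one] at this

theorem wv_le {v : Fin d → ℝ} (hv : ‖v‖ ≤ 1) : ‖wv v‖ ≤ (d : ℝ) + 1 := by
  have h : ∀ j, |wv v j| ≤ 1 := by
    rw [Fin.forall_iff_succAbove (0 : Fin (d + 1))]
    refine ⟨by rw [wv_zero, abs_one], fun k => ?_⟩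
    rw [wv_succ]
    have := norm_le_pi_norm v k
    rw [Real.norm_eq_abs] at this
    linarith
  have := norm_le_coord zero_le_one h
  linarith

/-- The direction with slope `v`. -/
noncomputable def dir (v : Fin d → ℝ) : EuclideanSpace ℝ (Fin (d + 1)) := ‖wv v‖⁻¹ • wv v

theorem dir_norm (v : Fin d → ℝ) : ‖dir v‖ = 1 := by
  have := wv_ge v
  rw [dir, norm_smul, norm_inv, norm_norm, inv_mul_cancel₀ (by linarith)]

theorem dir_sep {v v' : Fin d → ℝ} (hv : ‖v‖ ≤ 1) (hv' : ‖v'‖ ≤ 1) :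
    ‖v - v'‖ ≤ 2 * ((d : ℝ) + 1) * ‖dir v - dir v'‖ := by
  have h1 := wv_ge v
  have h2 := wv_le hv
  have h0 : 0 < ‖wv v‖ := by linarith
  rw [pi_norm_le_iff_of_nonneg (by positivity)]
  intro k
  rw [Pi.sub_apply, Real.norm_eq_abs]
  have e1 : |dir v 0 - dir v' 0| ≤ ‖dir v - dir v'‖ := by
    have := PiLp.norm_apply_le (dir v - dir v') 0
    rwa [PiLp.sub_apply, Real.norm_eq_abs] at this
  have e2 : |dir v ((0 : Fin (d + 1)).succAbove k) - dir v' ((0 : Fin (d + 1)).succAbove k)| ≤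
      ‖dir v - dir v'‖ := by
    have := PiLp.norm_apply_le (dir v - dir v') ((0 : Fin (d + 1)).succAbove k)
    rwa [PiLp.sub_apply, Real.norm_eq_abs] at this
  have c1 : dir v 0 = ‖wv v‖⁻¹ := by
    rw [dir, PiLp.smul_apply, wv_zero, smul_eq_mul, mul_one]
  have c2 : dir v' 0 = ‖wv v'‖⁻¹ := by
    rw [dir, PiLp.smul_apply, wv_zero, smul_eq_mul, mul_one]
  have c3 : dir v ((0 : Fin (d + 1)).succAbove k) = ‖wv v‖⁻¹ * v k := by
    rw [dir, PiLp.smul_apply, wv_succ, smul_eq_mul]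
  have c4 : dir v' ((0 : Fin (d + 1)).succAbove k) = ‖wv v'‖⁻¹ * v' k := by
    rw [dir, PiLp.smul_apply, wv_succ, smul_eq_mul]
  rw [c1, c2] at e1
  rw [c3, c4] at e2
  have hvk : |v' k| ≤ 1 := by
    have := norm_le_pi_norm v' k
    rw [Real.norm_eq_abs] at this
    linarith
  have h3 : ‖wv v‖⁻¹ * |v k - v' k| ≤ 2 * ‖dir v - dir v'‖ := by
    have h4 : ‖wv v‖⁻¹ * (v k - v' k) = (‖wv v‖⁻¹ * v k - ‖wv v'‖⁻¹ * v' k) -
        v' k * (‖wv v‖⁻¹ - ‖wv v'‖⁻¹) := by ring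
    have h5 : ‖wv v‖⁻¹ * |v k - v' k| = |‖wv v‖⁻¹ * (v k - v' k)| := by
      rw [abs_mul, abs_of_pos (inv_pos.2 h0)]
    rw [h5, h4]
    refine (abs_sub _ _).trans ?_
    rw [abs_mul]
    have h6 : |v' k| * |‖wv v‖⁻¹ - ‖wv v'‖⁻¹| ≤ 1 * ‖dir v - dir v'‖ := by gcongr
    linarith
  rw [inv_mul_le_iff₀ h0] at h3
  refine h3.trans ?_
  have : 0 ≤ ‖dir v - dir v'‖ := norm_nonneg _
  nlinarith

/-- A small slope tube is contained in a Euclidean tube. -/
theorem small_sub {h δ : ℝ} (hδ : 0 < δ) (hδ1 : δ < 1) (hh : h = 1 / (4 * ((d : ℝ) + 1) ^ 2))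
    {b : ℝ} {P v : Fin d → ℝ} (hv : ‖v‖ ≤ 1) {z : Pt d} (h1 : |z.1 - b| ≤ h)
    (h2 : ∀ k, |z.2 k - P k - z.1 * v k| ≤ h * δ) :
    (eqvj d 0).symm z ∈ tube (δ / (2 * ((d : ℝ) + 1)))
      ((eqvj d 0).symm (b, P + b • v)) (dir v) := by
  have hD : (0 : ℝ) < (d : ℝ) + 1 := by positivity
  have hD1 : (1 : ℝ) ≤ (d : ℝ) + 1 := by
    have : (0 : ℝ) ≤ d := Nat.cast_nonneg _
    linarith
  have hh0 : 0 < h := by rw [hh]; positivity
  have hw1 := wv_ge v
  have hw2 := wv_le hv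
  have hDh : ((d : ℝ) + 1) * h ≤ 1 / 4 := by
    rw [hh]
    have : ((d : ℝ) + 1) * (1 / (4 * ((d : ℝ) + 1) ^ 2)) = 1 / (4 * ((d : ℝ) + 1)) := by
      field_simp
    rw [this]
    apply one_div_le_one_div_of_le (by norm_num)
    linarith
  refine near_axis _ _ _ (dir_norm v) ((z.1 - b) * ‖wv v‖) (((d : ℝ) + 1) * (h * δ)) ?_ ?_ ?_
  · rw [abs_mul, abs_norm]
    have e1 : |z.1 - b| * ‖wv v‖ ≤ h * ((d : ℝ) + 1) := by gcongr
    have e2 : ((d : ℝ) + 1) * (h * δ) ≤ ((d : ℝ) + 1) * (h * 1) := by gcongr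
    linarith
  · rw [hh]
    have : ((d : ℝ) + 1) * (1 / (4 * ((d : ℝ) + 1) ^ 2) * δ) = δ / (4 * ((d : ℝ) + 1)) := by
      field_simp
    rw [this]
    gcongr
    norm_num
  · apply norm_le_coord (by positivity)
    obtain ⟨t, y⟩ := z
    rw [eqvj_symm, eqvj_symm, Fin.forall_iff_succAbove (0 : Fin (d + 1))]
    have hs : ((t - b) * ‖wv v‖) • dir v = (t - b) • wv v := by
      rw [dir, smul_smul, mul_assoc, mul_inv_cancel₀ (by linarith), mul_one]
    dsimp only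
    rw [hs]
    constructor
    · simp only [PiLp.sub_apply, PiLp.add_apply, PiLp.smul_apply, smul_eq_mul, wv_zero,
        PiLp.toLp_apply, Fin.insertNth_apply_same]
      have : t - (b + (t - b) * 1) = 0 := by ring
      rw [this, abs_zero]
      positivity
    · intro k
      simp only [PiLp.sub_apply, PiLp.add_apply, PiLp.smul_apply, smul_eq_mul, wv_succ,
        Fin.insertNth_apply_succAbove, Pi.add_apply, Pi.smul_apply]
      have : y k - (P k + b * v k + (t - b) * v k) = y k - P k - t * v k := by ring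
      rw [this]
      exact h2 k

/-- Grid points. -/
theorem grid_pt {h R x : ℝ} (hh : 0 < h) (hx : |x| ≤ R) {m : ℕ} (hm : R / h ≤ m) :
    ∃ j : Fin (2 * m + 1), |x - h * ((j : ℕ) - (m : ℝ))| ≤ h := by
  have h1 : |x / h| ≤ m := by
    rw [abs_div, abs_of_pos hh]
    exact (div_le_div_of_nonneg_right hx hh.le).trans hm
  rw [abs_le] at h1
  have h2 : -(m : ℤ) ≤ ⌊x / h⌋ := by
    rw [Int.le_floor]
    push_cast
    exact h1.1
  have h3 : ⌊x / h⌋ ≤ (m : ℤ) := by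
    have : ((⌊x / h⌋ : ℤ) : ℝ) ≤ ((m : ℤ) : ℝ) := by
      refine (Int.floor_le _).trans ?_
      push_cast
      exact h1.2
    exact_mod_cast this
  refine ⟨⟨(⌊x / h⌋ + m).toNat, by omega⟩, ?_⟩
  have h4 : (((⌊x / h⌋ + m).toNat : ℕ) : ℝ) = ⌊x / h⌋ + m := by
    have : (((⌊x / h⌋ + m).toNat : ℕ) : ℤ) = ⌊x / h⌋ + m := Int.toNat_of_nonneg (by omega)
    exact_mod_cast this
  simp only [h4]
  have h5 := Int.floor_le (x / h)
  have h6 := Int.lt_floor_add_one (x / h)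
  have h7 : x = h * (x / h) := by field_simp
  have h8 : x - h * ((⌊x / h⌋ : ℝ) + m - m) = h * (x / h - ⌊x / h⌋) := by
    nth_rewrite 1 [h7]
    ring
  rw [h8, abs_mul, abs_of_pos hh, abs_of_nonneg (by linarith)]
  nlinarith

theorem LoB_of_EuL (hd : 1 ≤ d) {q ε C : ℝ} (hq : 1 + 1 / (d : ℝ) ≤ q) (hC : 0 ≤ C)
    (h : EuL d q ε C) {R : ℝ} (hR : 1 ≤ R) : ∃ C' : ℝ, 0 ≤ C' ∧ LoB d R q ε C' := by
  classical
  have hd0 : (0 : ℝ) < d := by exact_mod_cast hd
  have hp0 : 0 < 1 / (d : ℝ) := by positivity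
  have hq0 : 0 < q := by linarith
  have hq1 : 1 ≤ q := by linarith
  have hD : (0 : ℝ) < (d : ℝ) + 1 := by positivity
  set h0 : ℝ := 1 / (4 * ((d : ℝ) + 1) ^ 2) with hh0
  have hh0p : 0 < h0 := by positivity
  set c : ℝ := 1 / (2 * ((d : ℝ) + 1)) with hc
  have hc0 : 0 < c := by positivity
  have hc1 : c < 1 := by
    rw [hc, div_lt_one (by positivity)]
    linarith
  set m : ℕ := ⌈R / h0⌉₊ with hm
  have hmR : R / h0 ≤ m := Nat.le_ceil _
  set G : Type := Fin (2 * m + 1) × (Fin d → Fin (2 * m + 1)) with hG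
  set K : ℕ := Fintype.card G with hK
  refine ⟨(K : ℝ) ^ (q - 1) * (K * (C * c ^ (-ε))), by positivity, ?_⟩
  intro δ hδ hδ1 ι _ b P v hv hs
  set T : ι → Set (Pt d) := fun i => tb R (R * δ) (b i) (P i) (v i) with hT
  set b' : G → ι → ℝ := fun g i => b i + h0 * ((g.1 : ℕ) - (m : ℝ)) with hb'
  set P' : G → ι → Fin d → ℝ := fun g i k => P i k + δ * (h0 * ((g.2 k : ℕ) - (m : ℝ))) with hP'
  set U : G → ι → Set (EuclideanSpace ℝ (Fin (d + 1))) := fun g i =>
    tube (δ * c) ((eqvj d 0).symm (b' g i, P' g i + b' g i • v i)) (dir (v i)) with hU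
  have hUm : ∀ g i, MeasurableSet (U g i) := fun g i => (tube_isClosed _ _ _).measurableSet
  have hcov : ∀ i z, z ∈ T i → ∃ g, (eqvj d 0).symm z ∈ U g i := by
    intro i z hz
    obtain ⟨j, hj⟩ := grid_pt hh0p hz.1 hmR
    have h1 : ∀ k, ∃ l : Fin (2 * m + 1),
        |(z.2 k - P i k - z.1 * v i k) / δ - h0 * ((l : ℕ) - (m : ℝ))| ≤ h0 := by
      intro k
      apply grid_pt hh0p _ hmR
      rw [abs_div, abs_of_pos hδ, div_le_iff₀ hδ]
      have h2 := (norm_le_pi_norm _ k).trans hz.2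
      rw [Real.norm_eq_abs] at h2
      exact h2
    obtain ⟨l, hl⟩ : ∃ l : Fin d → Fin (2 * m + 1), ∀ k,
        |(z.2 k - P i k - z.1 * v i k) / δ - h0 * ((l k : ℕ) - (m : ℝ))| ≤ h0 :=
      ⟨fun k => Classical.choose (h1 k), fun k => Classical.choose_spec (h1 k)⟩
    refine ⟨(j, l), ?_⟩
    have h3 := small_sub (b := b' (j, l) i) (P := P' (j, l) i) hδ hδ1 hh0 (hv i) (z := z) (by
      rw [hb']
      dsimp only
      have : z.1 - (b i + h0 * ((j : ℕ) - (m : ℝ))) = z.1 - b i - h0 * ((j : ℕ) - (m : ℝ)) := by ring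
      rw [this]
      exact hj) (by
      intro k
      have e1 : z.2 k - P' (j, l) i k - z.1 * v i k =
          ((z.2 k - P i k - z.1 * v i k) / δ - h0 * ((l k : ℕ) - (m : ℝ))) * δ := by
        rw [hP']
        dsimp only
        field_simp
        ring
      rw [e1, abs_mul, abs_of_pos hδ]
      exact mul_le_mul_of_nonneg_right (hl k) hδ.le)
    have e2 : δ / (2 * ((d : ℝ) + 1)) = δ * c := by rw [hc]; ring
    rw [e2] at h3
    exact h3
  have hpt : ∀ z, mult T z ≤ ∑ g : G, mult (U g) ((eqvj d 0).symm z) := by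
    intro z
    unfold mult
    rw [Finset.sum_comm]
    apply Finset.sum_le_sum
    intro i _
    by_cases hz : z ∈ T i
    · obtain ⟨g, hg⟩ := hcov i z hz
      rw [indicator_of_mem hz]
      calc (1 : Pt d → ℝ≥0∞) z = (U g i).indicator 1 ((eqvj d 0).symm z) := by
            rw [indicator_of_mem hg]; rfl
        _ ≤ _ := Finset.single_le_sum
            (f := fun g => (U g i).indicator (1 : EuclideanSpace ℝ (Fin (d + 1)) → ℝ≥0∞)
              ((eqvj d 0).symm z))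
            (fun _ _ => zero_le) (Finset.mem_univ g)
    · rw [indicator_of_notMem hz]; exact zero_le
  have hmeas : ∀ g, Measurable fun z => mult (U g) ((eqvj d 0).symm z) ^ q := fun g =>
    ((mult_meas (hUm g)).comp (eqvj d 0).symm.measurable).pow_const _
  have hint : ∀ g, ∫⁻ z, mult (U g) ((eqvj d 0).symm z) ^ q ≤ ENNReal.ofReal
      (C * ((δ * c) ^ (-ε) * ((δ * c) ^ d * (Fintype.card ι : ℝ) ^ (q - 1 / (d : ℝ))))) := by
    intro g
    have h2 : ∫⁻ z, mult (U g) ((eqvj d 0).symm z) ^ q = ∫⁻ x, mult (U g) x ^ q :=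
      ((eqvj_mp d 0).symm (eqvj d 0)).lintegral_comp_emb
        (eqvj d 0).symm.measurableEmbedding (fun x => mult (U g) x ^ q)
    rw [h2]
    refine h (δ * c) (by positivity) (by nlinarith) ι _ (fun i => dir (v i))
      (fun i => dir_norm _) ?_
    intro i j hij
    have h3 := hs i j hij
    have h4 := dir_sep (hv i) (hv j)
    rw [hc, mul_one_div, div_le_iff₀ (by positivity)]
    linarith
  calc ∫⁻ z, mult T z ^ q ≤ ∫⁻ z, (K : ℝ≥0∞) ^ (q - 1) *
        ∑ g : G, mult (U g) ((eqvj d 0).symm z) ^ q := by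
        apply lintegral_mono
        intro z
        refine (ENNReal.rpow_le_rpow (hpt z) hq0.le).trans ?_
        have := ENNReal.rpow_sum_le_const_mul_sum_rpow (Finset.univ : Finset G)
          (fun g => mult (U g) ((eqvj d 0).symm z)) hq1
        rwa [Finset.card_univ] at this
    _ = (K : ℝ≥0∞) ^ (q - 1) * ∑ g : G, ∫⁻ z, mult (U g) ((eqvj d 0).symm z) ^ q := by
        rw [lintegral_const_mul _ (Finset.measurable_sum _ fun g _ => hmeas g),
          lintegral_finsetSum _ fun g _ => hmeas g]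
    _ ≤ (K : ℝ≥0∞) ^ (q - 1) * ∑ _g : G, ENNReal.ofReal
      (C * ((δ * c) ^ (-ε) * ((δ * c) ^ d * (Fintype.card ι : ℝ) ^ (q - 1 / (d : ℝ))))) := by
        gcongr with g hg
        exact hint g
    _ = ENNReal.ofReal ((K : ℝ) ^ (q - 1) * (K *
      (C * ((δ * c) ^ (-ε) * ((δ * c) ^ d * (Fintype.card ι : ℝ) ^ (q - 1 / (d : ℝ))))))) := by
        rw [Finset.sum_const, Finset.card_univ, nsmul_eq_mul, ← ENNReal.ofReal_natCast,
          ENNReal.ofReal_rpow_of_nonneg (by positivity) (by linarith),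
          ← ENNReal.ofReal_mul (by positivity), ← ENNReal.ofReal_mul (by positivity)]
    _ ≤ _ := by
        apply ENNReal.ofReal_le_ofReal
        have h1 : (δ * c) ^ d ≤ δ ^ d := by
          gcongr
          nlinarith
        rw [Real.mul_rpow hδ.le hc0.le]
        calc (K : ℝ) ^ (q - 1) * (K * (C * (δ ^ (-ε) * c ^ (-ε) * ((δ * c) ^ d *
              (Fintype.card ι : ℝ) ^ (q - 1 / (d : ℝ))))))
            ≤ (K : ℝ) ^ (q - 1) * (K * (C * (δ ^ (-ε) * c ^ (-ε) * (δ ^ d *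
              (Fintype.card ι : ℝ) ^ (q - 1 / (d : ℝ)))))) := by gcongr
          _ = _ := by ring

end Pool.Agent.Y254.EL
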