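import Pool.Agent.Y254.EL.Zoom
set_option autoImplicit false

/-!
# Points of very high multiplicity are covered by few small balls
-/

open MeasureTheory Set Metric
open scoped ENNReal NNReal

namespace Pool.Agent.Y254.EL
open Pool.Agent.Y254 (mult mult_meas mult_le pmult pmult_eq sum_card_parts)

variable {d : ℕ}

open Classical in
theorem mult_card {X ι : Type*} [Fintype ι] (T : ι → Set X) (x : X) :
    mult T x = ((Finset.univ.filter fun i => x ∈ T i).card : ℝ≥0∞) := by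
  unfold mult
  rw [Finset.card_filter]
  push_cast
  refine Finset.sum_congr rfl fun i _ => ?_
  by_cases h : x ∈ T i
  · rw [indicator_of_mem h, if_pos h]; rfl
  · rw [indicator_of_notMem h, if_neg h]

open Classical in
theorem le_card_of_mult {X ι : Type*} [Fintype ι] {T : ι → Set X} {x : X} {a : ℝ}
    (h : ENNReal.ofReal a ≤ mult T x) : a ≤ ((Finset.univ.filter fun i => x ∈ T i).card : ℝ) := by
  rw [mult_card, ← ENNReal.ofReal_natCast] at h
  rcases le_or_gt a 0 with ha | ha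
  · exact ha.trans (by positivity)
  · exact (ENNReal.ofReal_le_ofReal_iff (by positivity)).1 h

/-- The Bonferroni inequality. -/
theorem bonf {g : ℕ} : (g : ℝ) ≤ 1 + ((g : ℝ) * g - g) / 2 := by
  rcases Nat.lt_or_ge g 2 with h | h
  · have : g = 0 ∨ g = 1 := by omega
    rcases this with rfl | rfl <;> norm_num
  · have : (2 : ℝ) ≤ g := by exact_mod_cast h
    nlinarith

open Classical in
theorem double_count {X ι : Type*} [Fintype ι] (T : ι → Set X) (Y : Finset X) :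
    ∑ x ∈ Y, ((Finset.univ.filter fun i => x ∈ T i).card : ℝ) ≤ Fintype.card ι +
      (∑ z ∈ Y.offDiag, ((Finset.univ.filter fun i => z.1 ∈ T i ∧ z.2 ∈ T i).card : ℝ)) / 2 := by
  set g : ι → ℕ := fun i => (Y.filter fun x => x ∈ T i).card with hg
  have h1 : ∑ x ∈ Y, ((Finset.univ.filter fun i => x ∈ T i).card : ℝ) = ∑ i, (g i : ℝ) := by
    have e1 : ∀ x, ((Finset.univ.filter fun i => x ∈ T i).card : ℝ) =
        ∑ i, if x ∈ T i then (1 : ℝ) else 0 := by
      intro x; rw [Finset.card_filter]; push_cast; rfl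
    have e2 : ∀ i, (g i : ℝ) = ∑ x ∈ Y, if x ∈ T i then (1 : ℝ) else 0 := by
      intro i; rw [hg]; dsimp only; rw [Finset.card_filter]; push_cast; rfl
    simp only [e1, e2]
    rw [Finset.sum_comm]
  have h2 : ∑ z ∈ Y.offDiag, ((Finset.univ.filter fun i => z.1 ∈ T i ∧ z.2 ∈ T i).card : ℝ) =
      ∑ i, ((g i : ℝ) * g i - g i) := by
    have e1 : ∀ z : X × X, ((Finset.univ.filter fun i => z.1 ∈ T i ∧ z.2 ∈ T i).card : ℝ) =
        ∑ i, if z.1 ∈ T i ∧ z.2 ∈ T i then (1 : ℝ) else 0 := by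
      intro x; rw [Finset.card_filter]; push_cast; rfl
    simp only [e1]
    rw [Finset.sum_comm]
    refine Finset.sum_congr rfl fun i _ => ?_
    have e3 : (Y.offDiag.filter fun z => z.1 ∈ T i ∧ z.2 ∈ T i) =
        (Y.filter fun x => x ∈ T i).offDiag := by
      ext z
      simp only [Finset.mem_filter, Finset.mem_offDiag]
      tauto
    rw [← Finset.sum_filter, e3, Finset.sum_const, nsmul_eq_mul, mul_one, Finset.offDiag_card]
    have e4 : (Y.filter fun x => x ∈ T i).card ≤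
        (Y.filter fun x => x ∈ T i).card * (Y.filter fun x => x ∈ T i).card := by
      rcases Nat.eq_zero_or_pos (Y.filter fun x => x ∈ T i).card with h | h
      · rw [h]
      · exact Nat.le_mul_of_pos_left _ h
    rw [Nat.cast_sub e4, Nat.cast_mul]
  rw [h1, h2]
  calc ∑ i, (g i : ℝ) ≤ ∑ i, (1 + ((g i : ℝ) * g i - g i) / 2) :=
        Finset.sum_le_sum fun i _ => bonf
    _ = _ := by
        rw [Finset.sum_add_distrib, Finset.sum_const, Finset.card_univ, nsmul_eq_mul, mul_one,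
          Finset.sum_div]

/-- The bound for the number of tubes through two distant points or balls. -/
theorem few_common {ι : Type} {δ R L M A D a : ℝ} (hd : 1 ≤ d) (hδ : 0 < δ) (hR : 1 ≤ R)
    (hL : 1 ≤ L) (ha : 0 ≤ a) (hM : (1 / δ) ^ d ≤ L * M) (hA : 0 < A)
    {b : ι → ℝ} {P v : ι → Fin d → ℝ} (hv : ∀ i, ‖v i‖ ≤ 1) (hs : Sep δ v) {x x' : Pt d}
    (hD : D ≤ dist x x') (hDr : 2 * (2 * (R * δ) + 4 * a) ≤ D)
    (hAD : 4 * (2 * (R * δ) + 4 * a) * (A * L ^ 3) ≤ D) (hAδ : 2 * (A * L ^ 3 * δ) ≤ 1)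
    (hA2 : 2 ≤ A) (J : Finset ι)
    (hJ : ∀ j ∈ J, (∃ z ∈ closedBall x a, z ∈ tb R (R * δ) (b j) (P j) (v j)) ∧
      ∃ z ∈ closedBall x' a, z ∈ tb R (R * δ) (b j) (P j) (v j)) :
    (J.card : ℝ) ≤ 2 / A * (M / L ^ 2) := by
  have hr : 0 < R * δ := by positivity
  have hD0 : 0 < D := by nlinarith
  have h1 := common hδ hr ha hv hs hD hDr J hJ
  refine h1.trans ?_
  have hL0 : 0 < L := by linarith
  have h2 : 4 * (2 * (R * δ) + 4 * a) / (D * δ) ≤ 1 / (A * L ^ 3 * δ) := by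
    rw [div_le_div_iff₀ (by positivity) (by positivity)]
    nlinarith
  have h3 : 2 ≤ 1 / (A * L ^ 3 * δ) := by
    rw [le_div_iff₀ (by positivity)]
    exact hAδ
  have h4 : 4 * (2 * (R * δ) + 4 * a) / (D * δ) + 2 ≤ (2 / (A * L ^ 3)) * (1 / δ) := by
    have : (2 / (A * L ^ 3)) * (1 / δ) = 1 / (A * L ^ 3 * δ) + 1 / (A * L ^ 3 * δ) := by
      field_simp
      ring
    rw [this]
    linarith
  have hx1 : 2 / (A * L ^ 3) ≤ 1 := by
    rw [div_le_one (by positivity)]
    have : 1 ≤ L ^ 3 := one_le_pow₀ hL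
    nlinarith
  calc (4 * (2 * (R * δ) + 4 * a) / (D * δ) + 2) ^ d ≤ ((2 / (A * L ^ 3)) * (1 / δ)) ^ d := by
        gcongr
    _ = (2 / (A * L ^ 3)) ^ d * (1 / δ) ^ d := mul_pow _ _ _
    _ ≤ (2 / (A * L ^ 3)) ^ 1 * (L * M) := by
        gcongr ?_ * ?_
        exact pow_le_pow_of_le_one (by positivity) hx1 hd
    _ = 2 / A * (M / L ^ 2) := by
        rw [pow_one]
        field_simp

/-- Separated points of high multiplicity are few. -/
theorem few_points (hd : 1 ≤ d) {R δ L : ℝ} (hR : 1 ≤ R) (hδ : 0 < δ) (hL : 1 ≤ L)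
    {ι : Type} [Fintype ι] [Nonempty ι] (b : ι → ℝ) (P v : ι → Fin d → ℝ) (hv : ∀ i, ‖v i‖ ≤ 1)
    (hs : Sep δ v) (hM : (1 / δ) ^ d ≤ L * Fintype.card ι) (hLδ : 32 * L ^ 3 * δ ≤ 1)
    (X : Finset (Pt d))
    (hX : ∀ x ∈ X, ENNReal.ofReal (Fintype.card ι / L) ≤
      mult (fun i => tb R (R * δ) (b i) (P i) (v i)) x)
    (hsep : ∀ x ∈ X, ∀ x' ∈ X, x ≠ x' → 128 * R * L ^ 3 * δ ≤ dist x x') :
    (X.card : ℝ) ≤ 2 * L := by
  classical
  set T : ι → Set (Pt d) := fun i => tb R (R * δ) (b i) (P i) (v i) with hT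
  set M : ℝ := (Fintype.card ι : ℝ) with hMdef
  have hM0 : 0 < M := by
    rw [hMdef]
    exact_mod_cast Fintype.card_pos
  have hL0 : 0 < L := by linarith
  by_contra hcon
  rw [not_le] at hcon
  set k : ℕ := ⌈2 * L⌉₊ with hk
  have hk1 : 2 * L ≤ k := Nat.le_ceil _
  have hk2 : (k : ℝ) < 2 * L + 1 := Nat.ceil_lt_add_one (by positivity)
  have hkX : k ≤ X.card := by
    rw [hk]
    exact Nat.ceil_le.2 hcon.le
  obtain ⟨Y, hYX, hY⟩ := Finset.exists_subset_card_eq hkX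
  have h1 := double_count T Y
  have h2 : (k : ℝ) * (M / L) ≤ ∑ x ∈ Y, ((Finset.univ.filter fun i => x ∈ T i).card : ℝ) := by
    rw [← hY, ← nsmul_eq_mul]
    exact Finset.card_nsmul_le_sum _ _ _ fun x hx => le_card_of_mult (hX x (hYX hx))
  have h3 : ∑ z ∈ Y.offDiag, ((Finset.univ.filter fun i => z.1 ∈ T i ∧ z.2 ∈ T i).card : ℝ) ≤
      (k : ℝ) * k * (1 / 8 * (M / L ^ 2)) := by
    have h4 : ∀ z ∈ Y.offDiag,
        ((Finset.univ.filter fun i => z.1 ∈ T i ∧ z.2 ∈ T i).card : ℝ) ≤ 1 / 8 * (M / L ^ 2) := by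
      intro z hz
      obtain ⟨hz1, hz2, hz3⟩ := Finset.mem_offDiag.1 hz
      have h5 := few_common (A := 16) (a := 0) hd hδ hR hL le_rfl hM (by norm_num) hv hs
        (hsep z.1 (hYX hz1) z.2 (hYX hz2) hz3) (by
          have : 1 ≤ L ^ 3 := one_le_pow₀ hL
          have : R * δ * 1 ≤ R * δ * L ^ 3 := by gcongr
          nlinarith) (by nlinarith) (by linarith) (by norm_num)
        (Finset.univ.filter fun i => z.1 ∈ T i ∧ z.2 ∈ T i) (by
          intro j hj
          have hj' := (Finset.mem_filter.1 hj).2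
          exact ⟨⟨z.1, mem_closedBall_self le_rfl, hj'.1⟩, ⟨z.2, mem_closedBall_self le_rfl, hj'.2⟩⟩)
      refine h5.trans (le_of_eq ?_)
      norm_num
    calc ∑ z ∈ Y.offDiag, ((Finset.univ.filter fun i => z.1 ∈ T i ∧ z.2 ∈ T i).card : ℝ)
        ≤ Y.offDiag.card • (1 / 8 * (M / L ^ 2)) := Finset.sum_le_card_nsmul _ _ _ h4
      _ ≤ (k : ℝ) * k * (1 / 8 * (M / L ^ 2)) := by
          rw [nsmul_eq_mul]
          gcongr
          have h6 : Y.offDiag.card ≤ k * k := by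
            rw [Finset.offDiag_card, hY]
            exact Nat.sub_le _ _
          exact_mod_cast h6
  have h7 : (k : ℝ) * k ≤ 9 * L ^ 2 := by
    have : (k : ℝ) ≤ 3 * L := by linarith
    have h0 : (0 : ℝ) ≤ k := by positivity
    nlinarith
  have h8 : (k : ℝ) * k * (1 / 8 * (M / L ^ 2)) ≤ 9 / 8 * M := by
    calc (k : ℝ) * k * (1 / 8 * (M / L ^ 2)) ≤ 9 * L ^ 2 * (1 / 8 * (M / L ^ 2)) := by gcongr
      _ = 9 / 8 * M := by field_simp
  have h9 : 2 * M ≤ (k : ℝ) * (M / L) := by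
    calc 2 * M = (2 * L) * (M / L) := by field_simp
      _ ≤ _ := by gcongr
  linarith

/-- A maximal separated set. -/
theorem exists_max_sep {E : Type*} [PseudoMetricSpace E] (S : Set E) {r B : ℝ} (hr : 0 ≤ r)
    (h : ∀ X : Finset E, (∀ x ∈ X, x ∈ S) → (∀ x ∈ X, ∀ x' ∈ X, x ≠ x' → r ≤ dist x x') →
      (X.card : ℝ) ≤ B) :
    ∃ X : Finset E, (∀ x ∈ X, x ∈ S) ∧ (X.card : ℝ) ≤ B ∧ ∀ y ∈ S, ∃ x ∈ X, dist y x ≤ r := by
  classical
  by_contra hcon
  push Not at hcon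
  have key : ∀ k : ℕ, ∃ X : Finset E, (∀ x ∈ X, x ∈ S) ∧
      (∀ x ∈ X, ∀ x' ∈ X, x ≠ x' → r ≤ dist x x') ∧ X.card = k := by
    intro k
    induction k with
    | zero => exact ⟨∅, by simp, by simp, rfl⟩
    | succ k ih =>
      obtain ⟨X, hX, hsep, hk⟩ := ih
      obtain ⟨y, hy, hyX⟩ := hcon X hX (h X hX hsep)
      have hyX' : y ∉ X := by
        intro hyX'
        have := hyX y hyX'
        rw [dist_self] at this
        linarith
      refine ⟨insert y X, ?_, ?_, by rw [Finset.card_insert_of_notMem hyX', hk]⟩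
      · intro x hx
        rcases Finset.mem_insert.1 hx with h1 | hx
        · rw [h1]; exact hy
        · exact hX x hx
      · intro x hx x' hx' hne
        rcases Finset.mem_insert.1 hx with h1 | hx
        · rcases Finset.mem_insert.1 hx' with h2 | hx'
          · exact absurd (h1.trans h2.symm) hne
          · rw [h1]; exact (hyX x' hx').le
        · rcases Finset.mem_insert.1 hx' with h2 | hx'
          · rw [h2, dist_comm]; exact (hyX x hx).le
          · exact hsep x hx x' hx' hne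
  obtain ⟨k, hk⟩ := exists_nat_gt B
  obtain ⟨X, hX, hsep, hXk⟩ := key k
  have := h X hX hsep
  rw [hXk] at this
  linarith

end Pool.Agent.Y254.EL
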