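import Pool.Agent.Y254.EL.Fin
import Pool.Agent.Y244.WR.Max
set_option autoImplicit false

/-!
# The Kakeya maximal function and the tube inequality with a loss at the endpoint
-/

open MeasureTheory Set Metric
open scoped ENNReal NNReal Pointwise

namespace Pool.Agent.Y254.EL
open Pool.Agent.Y254 (mult mult_meas mult_le mult_ne_top mult_zero_or lint_mult vol_tube Cv Cv_pos)
open Pool.Agent.W46.KK (near_axis tube_isClosed)
open Pool.Agent.W46.HM (kmax)

variable {d : ℕ}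

/-- The surface measure. -/
noncomputable abbrev sg (d : ℕ) : Measure (sphere (0 : EuclideanSpace ℝ (Fin (d + 1))) 1) :=
  (volume : Measure (EuclideanSpace ℝ (Fin (d + 1)))).toSphere

/-- Lower bound for the measure of a cap. -/
theorem cap_lower (d : ℕ) : ∃ κ : ℝ, 0 < κ ∧
    ∀ (e : sphere (0 : EuclideanSpace ℝ (Fin (d + 1))) 1) (r : ℝ), 0 < r → r ≤ 1 →
      ENNReal.ofReal (κ * r ^ d) ≤ sg d (closedBall e r) := by
  obtain ⟨κ, hκ, hV⟩ := Pool.Agent.W131.HM.VOL d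
  refine ⟨(1 / 4) ^ (d + 1) * (κ * (1 / 2) ^ d), by positivity, ?_⟩
  intro e r hr hr1
  have he : ‖(e : EuclideanSpace ℝ (Fin (d + 1)))‖ = 1 := by simp
  set T : Set (EuclideanSpace ℝ (Fin (d + 1))) :=
    W46.KK.tube (r / 2) ((2 : ℝ) • (e : EuclideanSpace ℝ (Fin (d + 1)))) e with hT
  have hTv := (hV ((2 : ℝ) • (e : EuclideanSpace ℝ (Fin (d + 1)))) e (r / 2) he (by positivity)
    (by linarith)).1
  have hsub : (1 / 4 : ℝ) • T ⊆ Set.Ioo (0 : ℝ) 1 • ((↑) '' (closedBall e r) :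
      Set (EuclideanSpace ℝ (Fin (d + 1)))) := by
    rintro _ ⟨y, hy, rfl⟩
    obtain ⟨h1, h2⟩ := hy
    set s : ℝ := inner ℝ (y - (2 : ℝ) • (e : EuclideanSpace ℝ (Fin (d + 1)))) e with hs
    set u : EuclideanSpace ℝ (Fin (d + 1)) := y - (2 : ℝ) • (e : EuclideanSpace ℝ (Fin (d + 1))) -
      s • (e : EuclideanSpace ℝ (Fin (d + 1))) with hu
    have hy' : y = (2 + s) • (e : EuclideanSpace ℝ (Fin (d + 1))) + u := by
      rw [hu, add_smul]; abel
    rw [abs_le] at h1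
    have hue : inner ℝ u (e : EuclideanSpace ℝ (Fin (d + 1))) = 0 := by
      rw [hu, inner_sub_left, ← hs, inner_smul_left, real_inner_self_eq_norm_sq, he]
      simp
    have hny : ‖y‖ ≤ 3 := by
      rw [hy']
      refine (norm_add_le _ _).trans ?_
      rw [norm_smul, he, mul_one, Real.norm_eq_abs, abs_of_pos (by linarith)]
      linarith
    have hny2 : 3 / 2 ≤ ‖y‖ := by
      have h3 : inner ℝ y (e : EuclideanSpace ℝ (Fin (d + 1))) = 2 + s := by
        rw [hy', inner_add_left, hue, inner_smul_left, real_inner_self_eq_norm_sq, he]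
        simp
      have h4 := real_inner_le_norm y (e : EuclideanSpace ℝ (Fin (d + 1)))
      rw [h3, he, mul_one] at h4
      linarith
    have hy0 : 0 < ‖y‖ := by linarith
    have hn1 : ‖‖y‖⁻¹ • y‖ = 1 := by
      rw [norm_smul, norm_inv, norm_norm, inv_mul_cancel₀ hy0.ne']
    refine ⟨‖y‖ / 4, ⟨by positivity, by linarith⟩, ‖y‖⁻¹ • y,
      ⟨⟨‖y‖⁻¹ • y, by rw [mem_sphere_zero_iff_norm]; exact hn1⟩, ?_, rfl⟩, ?_⟩
    · rw [mem_closedBall, Subtype.dist_eq, dist_eq_norm]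
      change ‖‖y‖⁻¹ • y - (e : EuclideanSpace ℝ (Fin (d + 1)))‖ ≤ r
      have h5 : ‖y‖⁻¹ • y - (e : EuclideanSpace ℝ (Fin (d + 1))) =
          ‖y‖⁻¹ • (((2 + s) - ‖y‖) • (e : EuclideanSpace ℝ (Fin (d + 1))) + u) := by
        rw [sub_smul, smul_add, smul_sub, smul_smul ‖y‖⁻¹ ‖y‖, inv_mul_cancel₀ hy0.ne', one_smul]
        nth_rewrite 2 [hy']
        rw [smul_add]
        abel
      have h6 : |(2 + s) - ‖y‖| ≤ ‖u‖ := by
        have h7 : ‖(2 + s) • (e : EuclideanSpace ℝ (Fin (d + 1)))‖ = 2 + s := by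
          rw [norm_smul, he, mul_one, Real.norm_eq_abs, abs_of_pos (by linarith)]
        have h8 := abs_norm_sub_norm_le ((2 + s) • (e : EuclideanSpace ℝ (Fin (d + 1)))) y
        rw [h7] at h8
        refine h8.trans (le_of_eq ?_)
        have h9 : (2 + s) • (e : EuclideanSpace ℝ (Fin (d + 1))) - y = -u := by
          nth_rewrite 1 [hy']
          abel
        rw [h9, norm_neg]
      rw [h5, norm_smul, norm_inv, norm_norm, inv_mul_le_iff₀ hy0]
      refine (norm_add_le _ _).trans ?_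
      rw [norm_smul, he, mul_one, Real.norm_eq_abs]
      have h7 : ‖u‖ ≤ r / 2 := h2
      nlinarith
    · change (‖y‖ / 4) • (‖y‖⁻¹ • y) = (1 / 4 : ℝ) • y
      rw [smul_smul]
      congr 1
      field_simp
  rw [Measure.toSphere_apply' _ isClosed_closedBall.measurableSet, finrank_euclideanSpace_fin]
  have h1 : volume ((1 / 4 : ℝ) • T) = ENNReal.ofReal ((1 / 4) ^ (d + 1)) * volume T := by
    rw [Measure.addHaar_smul, finrank_euclideanSpace_fin, abs_of_pos (by positivity)]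
  calc ENNReal.ofReal ((1 / 4) ^ (d + 1) * (κ * (1 / 2) ^ d) * r ^ d)
      = ENNReal.ofReal ((1 / 4) ^ (d + 1)) * ENNReal.ofReal (κ * (r / 2) ^ d) := by
        rw [← ENNReal.ofReal_mul (by positivity)]
        congr 1
        have e1 : (r / 2) ^ d = (1 / 2) ^ d * r ^ d := by rw [← mul_pow]; congr 1; ring
        rw [e1]
        ring
    _ ≤ ENNReal.ofReal ((1 / 4) ^ (d + 1)) * volume T := by gcongr
    _ = volume ((1 / 4 : ℝ) • T) := h1.symm
    _ ≤ volume (Set.Ioo (0 : ℝ) 1 • ((↑) '' (closedBall e r) :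
      Set (EuclideanSpace ℝ (Fin (d + 1))))) := measure_mono hsub
    _ ≤ ((d + 1 : ℕ) : ℝ≥0∞) * volume (Set.Ioo (0 : ℝ) 1 • ((↑) '' (closedBall e r) :
      Set (EuclideanSpace ℝ (Fin (d + 1))))) := by
        conv_lhs => rw [← one_mul (volume _)]
        gcongr
        exact_mod_cast Nat.succ_le_succ (Nat.zero_le d)

/-- A tube is covered by two thicker tubes in a neighbouring direction. -/
theorem tube_cover {δ : ℝ} (hδ : 0 < δ) (hδ5 : δ ≤ 1 / 5) (a : EuclideanSpace ℝ (Fin (d + 1)))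
    {e e' : EuclideanSpace ℝ (Fin (d + 1))} (he : ‖e‖ = 1) (hee : ‖e' - e‖ ≤ δ / 4) :
    W46.KK.tube δ a e' ⊆ W46.KK.tube (2 * δ) (a + (1 / 4 : ℝ) • e) e ∪ W46.KK.tube (2 * δ) (a - (1 / 4 : ℝ) • e) e := by
  intro y hy
  obtain ⟨h1, h2⟩ := hy
  set s : ℝ := inner ℝ (y - a) e' with hs
  rw [abs_le] at h1
  have hw : ‖(y - a) - s • e‖ ≤ 5 / 4 * δ := by
    have h3 : (y - a) - s • e = ((y - a) - s • e') + s • (e' - e) := by
      rw [smul_sub]; abel
    rw [h3]
    refine (norm_add_le _ _).trans ?_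
    rw [norm_smul, Real.norm_eq_abs]
    have h4 : |s| ≤ 1 / 2 := abs_le.2 h1
    have h5 : |s| * ‖e' - e‖ ≤ 1 / 2 * (δ / 4) := by gcongr
    linarith
  rcases le_total 0 s with h0 | h0
  · left
    refine near_axis _ _ _ he (s - 1 / 4) (5 / 4 * δ) ?_ (by linarith) ?_
    · have : |s - 1 / 4| ≤ 1 / 4 := by rw [abs_le]; constructor <;> linarith
      linarith
    · refine le_trans (le_of_eq ?_) hw
      congr 1
      rw [sub_smul]
      abel
  · right
    refine near_axis _ _ _ he (s + 1 / 4) (5 / 4 * δ) ?_ (by linarith) ?_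
    · have : |s + 1 / 4| ≤ 1 / 4 := by rw [abs_le]; constructor <;> linarith
      linarith
    · refine le_trans (le_of_eq ?_) hw
      congr 1
      rw [add_smul]
      abel

/-- The integral over a tube and the maximal function in a neighbouring direction. -/
theorem int_le_kmax {δ : ℝ} (hδ : 0 < δ) (hδ5 : δ ≤ 1 / 5) (a : EuclideanSpace ℝ (Fin (d + 1)))
    {e e' : EuclideanSpace ℝ (Fin (d + 1))} (he : ‖e‖ = 1) (hee : ‖e' - e‖ ≤ δ / 4)
    (g : EuclideanSpace ℝ (Fin (d + 1)) → ℝ≥0∞) :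
    ∫⁻ y in W46.KK.tube δ a e', g y ≤
      ENNReal.ofReal (2 * (Cv (d + 1) * 2 * (2 * δ) ^ d)) * kmax (2 * δ) g e := by
  obtain ⟨κ, hκ, hV⟩ := Pool.Agent.W131.HM.VOL d
  have hCv := Cv_pos (d + 1)
  have hone : ∀ b : EuclideanSpace ℝ (Fin (d + 1)), ∫⁻ y in W46.KK.tube (2 * δ) b e, g y ≤
      ENNReal.ofReal (Cv (d + 1) * 2 * (2 * δ) ^ d) * kmax (2 * δ) g e := by
    intro b
    obtain ⟨h1, h2⟩ := hV b e (2 * δ) he (by positivity) (by linarith)
    have h3 : volume (W46.KK.tube (2 * δ) b e) ≠ 0 := by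
      intro h
      rw [h, nonpos_iff_eq_zero, ENNReal.ofReal_eq_zero] at h1
      have : 0 < κ * (2 * δ) ^ d := by positivity
      linarith
    have h4 : volume (W46.KK.tube (2 * δ) b e) ≤ ENNReal.ofReal (Cv (d + 1) * 2 * (2 * δ) ^ d) := by
      have h5 := vol_tube (n := d + 1) (by omega) (a := b) he (δ := 2 * δ) (by positivity)
        (by linarith)
      rw [Nat.add_sub_cancel] at h5
      exact h5
    calc ∫⁻ y in W46.KK.tube (2 * δ) b e, g y
        = volume (W46.KK.tube (2 * δ) b e) * ((volume (W46.KK.tube (2 * δ) b e))⁻¹ *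
          ∫⁻ y in W46.KK.tube (2 * δ) b e, g y) := by
          rw [← mul_assoc, ENNReal.mul_inv_cancel h3 h2, one_mul]
      _ ≤ ENNReal.ofReal (Cv (d + 1) * 2 * (2 * δ) ^ d) * kmax (2 * δ) g e := by
          gcongr
          exact le_iSup (fun a => (volume (W46.KK.tube (2 * δ) a e))⁻¹ * ∫⁻ y in W46.KK.tube (2 * δ) a e, g y) b
  calc ∫⁻ y in W46.KK.tube δ a e', g y
      ≤ ∫⁻ y in W46.KK.tube (2 * δ) (a + (1 / 4 : ℝ) • e) e ∪ W46.KK.tube (2 * δ) (a - (1 / 4 : ℝ) • e) e, g y :=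
        lintegral_mono_set (tube_cover hδ hδ5 a he hee)
    _ ≤ (∫⁻ y in W46.KK.tube (2 * δ) (a + (1 / 4 : ℝ) • e) e, g y) +
        ∫⁻ y in W46.KK.tube (2 * δ) (a - (1 / 4 : ℝ) • e) e, g y := lintegral_union_le _ _ _
    _ ≤ ENNReal.ofReal (Cv (d + 1) * 2 * (2 * δ) ^ d) * kmax (2 * δ) g e +
        ENNReal.ofReal (Cv (d + 1) * 2 * (2 * δ) ^ d) * kmax (2 * δ) g e :=
        add_le_add (hone _) (hone _)
    _ = _ := by
        rw [← two_mul, ← mul_assoc, ENNReal.ofReal_mul (by norm_num : (0 : ℝ) ≤ 2)]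
        norm_num

/-- Hölder's inequality on a set, without measurability of the function. -/
theorem holder_set {X : Type*} [MeasurableSpace X] (μ : Measure X) (A : Set X) (f : X → ℝ≥0∞)
    {p : ℝ} (hp : 1 < p) :
    ∫⁻ x in A, f x ∂μ ≤ (∫⁻ x, f x ^ p ∂μ) ^ (1 / p) * μ A ^ (1 - 1 / p) := by
  have hp0 : 0 < p := by linarith
  obtain ⟨g, hg, hgf, hint⟩ := exists_measurable_le_lintegral_eq (μ.restrict A) f
  have hgf' : ∀ x, g x ≤ f x := hgf
  have hpq : p.HolderConjugate (Real.conjExponent p) := Real.HolderConjugate.conjExponent hp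
  have h1 := ENNReal.lintegral_mul_le_Lp_mul_Lq (μ.restrict A) hpq hg.aemeasurable
    (measurable_const (a := (1 : ℝ≥0∞))).aemeasurable
  have h2 : 1 / Real.conjExponent p = 1 - 1 / p := by
    have := hpq.inv_add_inv_eq_one
    rw [one_div, one_div]
    linarith
  rw [h2] at h1
  rw [hint]
  calc ∫⁻ x in A, g x ∂μ = ∫⁻ x in A, (g * (fun _ => (1 : ℝ≥0∞)) : X → ℝ≥0∞) x ∂μ := by simp
    _ ≤ _ := h1
    _ ≤ (∫⁻ x, f x ^ p ∂μ) ^ (1 / p) * μ A ^ (1 - 1 / p) := by
        have h3 : 0 ≤ 1 - 1 / p := by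
          rw [sub_nonneg, div_le_one hp0]
          exact hp.le
        have h4 : ∫⁻ x in A, g x ^ p ∂μ ≤ ∫⁻ x, f x ^ p ∂μ := by
          refine (lintegral_mono fun x => ?_).trans (setLIntegral_le_lintegral A _)
          exact ENNReal.rpow_le_rpow (hgf' x) hp0.le
        have h5 : ∫⁻ _x in A, (1 : ℝ≥0∞) ^ Real.conjExponent p ∂μ ≤ μ A := by
          simp
        gcongr

end Pool.Agent.Y254.EL
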