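import Pool.Agent.Y254.EL.Dual
set_option autoImplicit false

/-!
# From the maximal function to tubes
-/

open MeasureTheory Set Metric
open scoped ENNReal NNReal

namespace Pool.Agent.Y254.EL
open Pool.Agent.Y254 (mult mult_meas mult_le mult_ne_top mult_zero_or lint_mult vol_tube Cv Cv_pos)
open Pool.Agent.W46.HM (kmax)

variable {d : ℕ}

/-- The maximal estimate at the critical exponent with a loss. -/
def KM (d : ℕ) (ε C : ℝ) : Prop := ∀ δ : ℝ, 0 < δ → δ < 1 →
    ∀ f : EuclideanSpace ℝ (Fin (d + 1)) → ℝ≥0∞, Measurable f → (∀ x, f x ≠ ∞) →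
    ∫⁻ e, kmax δ f (e : EuclideanSpace ℝ (Fin (d + 1))) ^ ((d : ℝ) + 1) ∂(sg d) ≤
      ENNReal.ofReal (C * δ ^ (-ε)) * ∫⁻ y, f y ^ ((d : ℝ) + 1)

/-- The trivial bound. -/
theorem triv_bound {q δ : ℝ} (hq : 1 ≤ q) (hδ : 0 < δ) (hδ1 : δ < 1) {ι : Type} [Fintype ι]
    (a e : ι → EuclideanSpace ℝ (Fin (d + 1))) (he : ∀ i, ‖e i‖ = 1) :
    ∫⁻ x, mult (fun i => W46.KK.tube δ (a i) (e i)) x ^ q ≤
      ENNReal.ofReal ((Fintype.card ι : ℝ) ^ (q - 1) *
        ((Fintype.card ι : ℝ) * (Cv (d + 1) * 2 * δ ^ d))) := by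
  have hCv := Cv_pos (d + 1)
  set T : ι → Set (EuclideanSpace ℝ (Fin (d + 1))) := fun i => W46.KK.tube δ (a i) (e i) with hT
  have hTm : ∀ i, MeasurableSet (T i) := fun i => (W46.KK.tube_isClosed _ _ _).measurableSet
  have h1 : ∀ x, mult T x ^ q ≤ ENNReal.ofReal ((Fintype.card ι : ℝ) ^ (q - 1)) * mult T x := by
    intro x
    have e1 : mult T x ^ q = mult T x ^ (q - 1) * mult T x := by
      conv_rhs => rw [← ENNReal.rpow_one (mult T x), ← ENNReal.rpow_mul, one_mul]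
      rw [← ENNReal.rpow_add_of_nonneg _ _ (by linarith) zero_le_one]
      congr 1
      ring
    rw [e1]
    gcongr
    rw [← ENNReal.ofReal_rpow_of_nonneg (by positivity) (by linarith), ENNReal.ofReal_natCast]
    exact ENNReal.rpow_le_rpow (mult_le T x) (by linarith)
  calc ∫⁻ x, mult T x ^ q
      ≤ ∫⁻ x, ENNReal.ofReal ((Fintype.card ι : ℝ) ^ (q - 1)) * mult T x := lintegral_mono h1
    _ = ENNReal.ofReal ((Fintype.card ι : ℝ) ^ (q - 1)) * ∑ i, volume (T i) := by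
        rw [lintegral_const_mul _ (mult_meas hTm), lint_mult volume hTm]
    _ ≤ ENNReal.ofReal ((Fintype.card ι : ℝ) ^ (q - 1)) *
        ∑ _i : ι, ENNReal.ofReal (Cv (d + 1) * 2 * δ ^ d) := by
        gcongr with i hi
        have h5 := vol_tube (n := d + 1) (by omega) (a := a i) (he i) hδ hδ1
        rw [Nat.add_sub_cancel] at h5
        exact h5
    _ = _ := by
        rw [Finset.sum_const, Finset.card_univ, nsmul_eq_mul, ← ENNReal.ofReal_natCast,
          ← ENNReal.ofReal_mul (by positivity), ← ENNReal.ofReal_mul (by positivity)]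

/-- Solving the inequality. -/
theorem solve_ineq {J B X Y p d' : ℝ} (hJ : 0 ≤ J) (hB : 0 ≤ B) (hX : 0 ≤ X) (hY : 0 ≤ Y)
    (hp : p = d' + 1) (hd' : 0 < d')
    (h : J ≤ B * X ^ (1 / p) * J ^ (1 / p) * Y ^ (1 - 1 / p)) :
    J ≤ B ^ (p / d') * X ^ (1 / d') * Y := by
  have hp0 : 0 < p := by linarith
  rcases hJ.eq_or_lt with h0 | h0
  · rw [← h0]
    positivity
  have e1 : J = J ^ (1 - 1 / p) * J ^ (1 / p) := by
    rw [← Real.rpow_add h0]
    simp
  have h1 : J ^ (1 - 1 / p) ≤ B * X ^ (1 / p) * Y ^ (1 - 1 / p) := by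
    have h2 : 0 < J ^ (1 / p) := by positivity
    rw [← mul_le_mul_iff_left₀ h2]
    calc J ^ (1 - 1 / p) * J ^ (1 / p) = J := e1.symm
      _ ≤ _ := h
      _ = _ := by ring
  have e2 : 1 - 1 / p = d' / p := by
    rw [hp]
    field_simp
    ring
  rw [e2] at h1
  calc J = (J ^ (d' / p)) ^ (p / d') := by
        rw [← Real.rpow_mul hJ]
        have : d' / p * (p / d') = 1 := by field_simp
        rw [this, Real.rpow_one]
    _ ≤ (B * X ^ (1 / p) * Y ^ (d' / p)) ^ (p / d') := by gcongr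
    _ = B ^ (p / d') * X ^ (1 / d') * Y := by
        rw [Real.mul_rpow (by positivity) (by positivity), Real.mul_rpow hB (by positivity),
          ← Real.rpow_mul hX, ← Real.rpow_mul hY]
        have e3 : 1 / p * (p / d') = 1 / d' := by field_simp
        have e4 : d' / p * (p / d') = 1 := by field_simp
        rw [e3, e4, Real.rpow_one]

/-- Duality. -/
theorem dual_small (hd : 1 ≤ d) {ε C : ℝ} (hε : 0 ≤ ε) (hC : 0 ≤ C) (h : KM d ε C) :
    ∃ C' : ℝ, 0 ≤ C' ∧ ∀ δ : ℝ, 0 < δ → δ ≤ 1 / 5 → ∀ (ι : Type) [Fintype ι]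
    (a e : ι → EuclideanSpace ℝ (Fin (d + 1))), (∀ i, ‖e i‖ = 1) →
    (∀ i j, i ≠ j → δ ≤ ‖e i - e j‖) →
    ∫⁻ x, mult (fun i => W46.KK.tube δ (a i) (e i)) x ^ (1 + 1 / (d : ℝ)) ≤
      ENNReal.ofReal (C' * (δ ^ (-(ε / d)) * (δ ^ d * (Fintype.card ι : ℝ)))) := by
  classical
  have hd0 : (0 : ℝ) < d := by exact_mod_cast hd
  have hp0 : 0 < 1 / (d : ℝ) := by positivity
  have hCv := Cv_pos (d + 1)
  obtain ⟨κ, hκ, hcl⟩ := cap_lower d
  obtain ⟨C1, hC1, hcu⟩ := Pool.Agent.W131.HM.CAP d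
  set p : ℝ := (d : ℝ) + 1 with hp
  have hpp : 1 < p := by linarith
  have hp00 : 0 < p := by linarith
  set V : ℝ := 2 * (Cv (d + 1) * 2 * 2 ^ d) with hV
  set B : ℝ := V * (4 ^ d / κ) * C ^ (1 / p) * C1 ^ (1 - 1 / p) with hB
  have h1p : 0 ≤ 1 - 1 / p := by
    rw [sub_nonneg, div_le_one hp00]
    exact hpp.le
  refine ⟨B ^ (p / d), by positivity, ?_⟩
  intro δ hδ hδ5 ι _ a e he hsep
  have hδ1 : δ < 1 := by linarith
  set T : ι → Set (EuclideanSpace ℝ (Fin (d + 1))) := fun i => W46.KK.tube δ (a i) (e i) with hT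
  have hTm : ∀ i, MeasurableSet (T i) := fun i => (W46.KK.tube_isClosed _ _ _).measurableSet
  set g : EuclideanSpace ℝ (Fin (d + 1)) → ℝ≥0∞ := fun x => mult T x ^ (1 / (d : ℝ)) with hg
  have hgm : Measurable g := (mult_meas hTm).pow_const _
  have hgt : ∀ x, g x ≠ ∞ := fun x => ENNReal.rpow_ne_top_of_nonneg hp0.le (mult_ne_top T x)
  set I : ℝ≥0∞ := ∫⁻ x, mult T x ^ (1 + 1 / (d : ℝ)) with hI
  have hIt : I ≠ ∞ := by
    refine ne_top_of_le_ne_top ENNReal.ofReal_ne_top (triv_bound (q := 1 + 1 / (d : ℝ))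
      (by linarith) hδ hδ1 a e he)
  have hIg : I = ∫⁻ y, g y ^ p := by
    rw [hI, hg]
    refine lintegral_congr fun x => ?_
    rw [← ENNReal.rpow_mul]
    congr 1
    rw [hp]
    field_simp
  have hsum : I = ∑ i, ∫⁻ y in T i, g y := by
    have e1 : ∀ x, mult T x ^ (1 + 1 / (d : ℝ)) = ∑ i, (T i).indicator g x := by
      intro x
      rw [ENNReal.rpow_add_of_nonneg _ _ zero_le_one hp0.le, ENNReal.rpow_one]
      nth_rewrite 1 [show mult T x = ∑ i, (T i).indicator 1 x from rfl]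
      rw [Finset.sum_mul]
      refine Finset.sum_congr rfl fun i _ => ?_
      by_cases hx : x ∈ T i
      · rw [indicator_of_mem hx, indicator_of_mem hx, Pi.one_apply, one_mul]
      · rw [indicator_of_notMem hx, indicator_of_notMem hx, zero_mul]
    rw [hI, lintegral_congr e1, lintegral_finsetSum _ fun i _ => hgm.indicator (hTm i)]
    refine Finset.sum_congr rfl fun i _ => ?_
    rw [lintegral_indicator (hTm i)]
  set c : ι → Set (sphere (0 : EuclideanSpace ℝ (Fin (d + 1))) 1) := fun i =>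
    closedBall ⟨e i, by rw [mem_sphere_zero_iff_norm]; exact he i⟩ (δ / 4) with hc
  have hcm : ∀ i, MeasurableSet (c i) := fun i => isClosed_closedBall.measurableSet
  have hcdist : ∀ i, ∀ x ∈ c i, ‖e i - (x : EuclideanSpace ℝ (Fin (d + 1)))‖ ≤ δ / 4 := by
    intro i x hx
    rw [hc, mem_closedBall, Subtype.dist_eq, dist_eq_norm, norm_sub_rev] at hx
    exact hx
  have hdis : ((Finset.univ : Finset ι) : Set ι).PairwiseDisjoint c := by
    intro i _ j _ hij
    rw [Function.onFun, Set.disjoint_left]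
    intro x hxi hxj
    have h1 := hcdist i x hxi
    have h2 := hcdist j x hxj
    have h3 := hsep i j hij
    have h4 : e i - e j = (e i - x) - (e j - x) := by abel
    rw [h4] at h3
    have := norm_sub_le (e i - (x : EuclideanSpace ℝ (Fin (d + 1)))) (e j - x)
    linarith
  have hstep : ∀ i, ENNReal.ofReal (κ * (δ / 4) ^ d) * ∫⁻ y in T i, g y ≤
      ENNReal.ofReal (V * δ ^ d) * ∫⁻ x in c i, kmax (2 * δ) g x ∂(sg d) := by
    intro i
    calc ENNReal.ofReal (κ * (δ / 4) ^ d) * ∫⁻ y in T i, g y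
        ≤ sg d (c i) * ∫⁻ y in T i, g y := by
          gcongr
          exact hcl _ _ (by positivity) (by linarith)
      _ = ∫⁻ _x in c i, (∫⁻ y in T i, g y) ∂(sg d) := by
          rw [setLIntegral_const, mul_comm]
      _ ≤ ∫⁻ x in c i, ENNReal.ofReal (V * δ ^ d) * kmax (2 * δ) g x ∂(sg d) := by
          apply setLIntegral_mono' (hcm i)
          intro x hx
          have h1 := int_le_kmax hδ hδ5 (a i) (e := (x : EuclideanSpace ℝ (Fin (d + 1))))
            (e' := e i) (by simp) (hcdist i x hx) g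
          refine h1.trans (le_of_eq ?_)
          congr 2
          rw [hV, mul_pow]
          ring
      _ = _ := by
          rw [lintegral_const_mul' _ _ ENNReal.ofReal_ne_top]
  have htot : ENNReal.ofReal (κ * (δ / 4) ^ d) * I ≤
      ENNReal.ofReal (V * δ ^ d) * ∫⁻ x in ⋃ i ∈ (Finset.univ : Finset ι), c i,
        kmax (2 * δ) g x ∂(sg d) := by
    rw [lintegral_biUnion_finset hdis fun i _ => hcm i, hsum, Finset.mul_sum, Finset.mul_sum]
    exact Finset.sum_le_sum fun i _ => hstep i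
  have hcapU : sg d (⋃ i ∈ (Finset.univ : Finset ι), c i) ≤
      ENNReal.ofReal (C1 * ((Fintype.card ι : ℝ) * δ ^ d)) := by
    refine (measure_biUnion_finset_le _ _).trans ?_
    calc ∑ i : ι, sg d (c i) ≤ ∑ _i : ι, ENNReal.ofReal (C1 * (δ / 4) ^ d) :=
          Finset.sum_le_sum fun i _ => hcu _ _ (by positivity) (by linarith)
      _ = ENNReal.ofReal ((Fintype.card ι : ℝ) * (C1 * (δ / 4) ^ d)) := by
          rw [Finset.sum_const, Finset.card_univ, nsmul_eq_mul, ← ENNReal.ofReal_natCast,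
            ← ENNReal.ofReal_mul (by positivity)]
      _ ≤ _ := by
          apply ENNReal.ofReal_le_ofReal
          have : (δ / 4) ^ d ≤ δ ^ d := by
            gcongr
            linarith
          calc (Fintype.card ι : ℝ) * (C1 * (δ / 4) ^ d) ≤ (Fintype.card ι : ℝ) * (C1 * δ ^ d) := by
                gcongr
            _ = _ := by ring
  have hKM := h (2 * δ) (by positivity) (by linarith) g hgm hgt
  rw [← hp, ← hIg] at hKM
  obtain ⟨J, hJ0, hJ⟩ : ∃ J : ℝ, 0 ≤ J ∧ I = ENNReal.ofReal J :=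
    ⟨I.toReal, ENNReal.toReal_nonneg, (ENNReal.ofReal_toReal hIt).symm⟩
  have hmain : ENNReal.ofReal (κ * (δ / 4) ^ d) * I ≤ ENNReal.ofReal (V * δ ^ d) *
      ((ENNReal.ofReal (C * (2 * δ) ^ (-ε)) * I) ^ (1 / p) *
        ENNReal.ofReal (C1 * ((Fintype.card ι : ℝ) * δ ^ d)) ^ (1 - 1 / p)) := by
    refine htot.trans ?_
    gcongr
    refine (holder_set (sg d) _ _ hpp).trans ?_
    gcongr
  have h2δ : (2 * δ) ^ (-ε) ≤ δ ^ (-ε) := by
    apply Real.rpow_le_rpow_of_nonpos hδ (by linarith) (by linarith)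
  rw [hJ, ← ENNReal.ofReal_mul (by positivity), ← ENNReal.ofReal_mul (by positivity),
    ENNReal.ofReal_rpow_of_nonneg (by positivity) (by positivity),
    ENNReal.ofReal_rpow_of_nonneg (by positivity) h1p, ← ENNReal.ofReal_mul (by positivity),
    ← ENNReal.ofReal_mul (by positivity), ENNReal.ofReal_le_ofReal_iff (by positivity)] at hmain
  have hδd : 0 < δ ^ d := by positivity
  have hfin : J ≤ B * (δ ^ (-ε)) ^ (1 / p) * J ^ (1 / p) *
      ((Fintype.card ι : ℝ) * δ ^ d) ^ (1 - 1 / p) := by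
    have h3 : κ * (δ / 4) ^ d * J ≤ V * δ ^ d * ((C * δ ^ (-ε) * J) ^ (1 / p) *
        (C1 * ((Fintype.card ι : ℝ) * δ ^ d)) ^ (1 - 1 / p)) := by
      refine hmain.trans ?_
      gcongr
    rw [Real.mul_rpow (by positivity) hJ0, Real.mul_rpow hC (by positivity),
      Real.mul_rpow hC1.le (by positivity)] at h3
    have h4 : κ * (δ / 4) ^ d * J = (κ * δ ^ d / 4 ^ d) * J := by rw [div_pow]; ring
    rw [h4] at h3
    have h5 : 0 < κ * δ ^ d / 4 ^ d := by positivity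
    rw [← le_div_iff₀' h5] at h3
    refine h3.trans (le_of_eq ?_)
    rw [hB]
    field_simp
  have hsol := solve_ineq hJ0 (by positivity) (by positivity) (by positivity) hp hd0 hfin
  rw [hJ]
  apply ENNReal.ofReal_le_ofReal
  refine hsol.trans (le_of_eq ?_)
  rw [← Real.rpow_mul hδ.le]
  have e1 : -ε * (1 / (d : ℝ)) = -(ε / d) := by ring
  rw [e1]
  ring

/-- The maximal estimate with arbitrarily small losses implies the tube inequality with arbitrarily
small losses at the endpoint. -/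
theorem euL_of_KM (hd : 1 ≤ d) (h : ∀ ε : ℝ, 0 < ε → ∃ C : ℝ, 0 ≤ C ∧ KM d ε C) (ε : ℝ)
    (hε : 0 < ε) : ∃ C : ℝ, 0 ≤ C ∧ EuL d (1 + 1 / (d : ℝ)) ε C := by
  have hd0 : (0 : ℝ) < d := by exact_mod_cast hd
  have hp0 : 0 < 1 / (d : ℝ) := by positivity
  have hCv := Cv_pos (d + 1)
  obtain ⟨C, hC, hK⟩ := h (ε * d) (by positivity)
  obtain ⟨C', hC', hs⟩ := dual_small hd (by positivity) hC hK
  set K : ℝ := (20 * ((d : ℝ) + 1)) ^ (d + 1) with hKd
  refine ⟨C' + K ^ (1 / (d : ℝ)) * (Cv (d + 1) * 2), by positivity, ?_⟩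
  intro δ hδ hδ1 ι _ a e he hsep
  have e0 : 1 + 1 / (d : ℝ) - 1 / (d : ℝ) = 1 := by ring
  have hδε : 1 ≤ δ ^ (-ε) := Real.one_le_rpow_of_pos_of_le_one_of_nonpos hδ hδ1.le (by linarith)
  rw [e0, Real.rpow_one]
  have hN0 : (0 : ℝ) ≤ Fintype.card ι := Nat.cast_nonneg _
  rcases le_or_gt δ (1 / 5) with h5 | h5
  · refine (hs δ hδ h5 ι a e he hsep).trans (ENNReal.ofReal_le_ofReal ?_)
    have e1 : ε * (d : ℝ) / d = ε := by field_simp
    rw [e1]
    have h1 : 0 ≤ δ ^ (-ε) * (δ ^ d * (Fintype.card ι : ℝ)) := by positivity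
    have h2 : 0 ≤ K ^ (1 / (d : ℝ)) * (Cv (d + 1) * 2) := by positivity
    nlinarith
  · refine (triv_bound (q := 1 + 1 / (d : ℝ)) (by linarith) hδ hδ1 a e he).trans
      (ENNReal.ofReal_le_ofReal ?_)
    have hcard := card_dirs hδ hδ1 e he hsep
    have hcK : (Fintype.card ι : ℝ) ≤ K := by
      refine hcard.trans ?_
      rw [hKd]
      gcongr
      rw [div_le_iff₀ hδ]
      nlinarith
    have e1 : 1 + 1 / (d : ℝ) - 1 = 1 / d := by ring
    rw [e1]
    have h1 : (Fintype.card ι : ℝ) ^ (1 / (d : ℝ)) ≤ K ^ (1 / (d : ℝ)) := by gcongr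
    have h2 : 0 ≤ δ ^ d * (Fintype.card ι : ℝ) := by positivity
    calc (Fintype.card ι : ℝ) ^ (1 / (d : ℝ)) *
          ((Fintype.card ι : ℝ) * (Cv (d + 1) * 2 * δ ^ d))
        ≤ K ^ (1 / (d : ℝ)) * ((Fintype.card ι : ℝ) * (Cv (d + 1) * 2 * δ ^ d)) := by gcongr
      _ = (K ^ (1 / (d : ℝ)) * (Cv (d + 1) * 2)) * (1 * (δ ^ d * (Fintype.card ι : ℝ))) := by ring
      _ ≤ (C' + K ^ (1 / (d : ℝ)) * (Cv (d + 1) * 2)) *
          (δ ^ (-ε) * (δ ^ d * (Fintype.card ι : ℝ))) := by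
          gcongr
          linarith

end Pool.Agent.Y254.EL
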