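import Pool.Agent.Y254.EL.Dual2
set_option autoImplicit false

/-!
# The maximal estimate with a loss at the critical exponent and the maximal estimates without a loss
-/

open MeasureTheory Set Metric
open scoped ENNReal NNReal

namespace Pool.Agent.Y254.EL
open Pool.Agent.Y254 (mult mult_meas mult_le mult_ne_top mult_zero_or lint_mult vol_tube Cv Cv_pos)
open Pool.Agent.W46.HM (kmax)
open Pool.Agent.Y244.HM (WeakP StrongP strongP)
open Pool.Agent.Y244.WR (TubeQ weakQ)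

variable {d : ℕ}

/-- Jensen's inequality for the maximal function. -/
theorem kmax_pow {δ : ℝ} (hδ : 0 < δ) (hδ1 : δ < 1) {e : EuclideanSpace ℝ (Fin (d + 1))}
    (he : ‖e‖ = 1) (f : EuclideanSpace ℝ (Fin (d + 1)) → ℝ≥0∞) {r : ℝ} (hr : 1 < r) :
    kmax δ f e ^ r ≤ kmax δ (fun x => f x ^ r) e := by
  have hr0 : 0 < r := by linarith
  obtain ⟨κ, hκ, hV⟩ := Pool.Agent.W131.HM.VOL d
  have h1r : 0 ≤ 1 - 1 / r := by
    rw [sub_nonneg, div_le_one hr0]
    exact hr.le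
  have hkey : kmax δ f e ≤ kmax δ (fun x => f x ^ r) e ^ (1 / r) := by
    unfold kmax
    apply iSup_le
    intro a
    refine le_trans ?_ (ENNReal.rpow_le_rpow (le_iSup (fun a =>
      (volume (W46.KK.tube δ a e))⁻¹ * ∫⁻ y in W46.KK.tube δ a e, f y ^ r) a) (by positivity))
    obtain ⟨h1, h2⟩ := hV a e δ he hδ hδ1.le
    have h3 : volume (W46.KK.tube δ a e) ≠ 0 := by
      intro h
      rw [h, nonpos_iff_eq_zero, ENNReal.ofReal_eq_zero] at h1
      have : 0 < κ * δ ^ d := by positivity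
      linarith
    set V : ℝ≥0∞ := volume (W46.KK.tube δ a e) with hVd
    have h4 := holder_set (volume.restrict (W46.KK.tube δ a e)) univ f hr
    rw [Measure.restrict_univ, Measure.restrict_apply_univ] at h4
    calc V⁻¹ * ∫⁻ y in W46.KK.tube δ a e, f y
        ≤ V⁻¹ * ((∫⁻ y in W46.KK.tube δ a e, f y ^ r) ^ (1 / r) * V ^ (1 - 1 / r)) := by gcongr
      _ = (V⁻¹ * V ^ (1 - 1 / r)) * (∫⁻ y in W46.KK.tube δ a e, f y ^ r) ^ (1 / r) := by ring
      _ = (V⁻¹) ^ (1 / r) * (∫⁻ y in W46.KK.tube δ a e, f y ^ r) ^ (1 / r) := by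
          congr 1
          rw [ENNReal.inv_rpow, ← ENNReal.rpow_neg, ← ENNReal.rpow_neg_one,
            ← ENNReal.rpow_add _ _ h3 h2]
          congr 1
          ring
      _ = _ := by rw [← ENNReal.mul_rpow_of_nonneg _ _ (by positivity)]
  calc kmax δ f e ^ r ≤ (kmax δ (fun x => f x ^ r) e ^ (1 / r)) ^ r :=
        ENNReal.rpow_le_rpow hkey hr0.le
    _ = _ := by rw [← ENNReal.rpow_mul, one_div, inv_mul_cancel₀ hr0.ne', ENNReal.rpow_one]

/-- From one subcritical exponent to the critical exponent. -/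
theorem crit_of_sub {c : ℝ} (hc : 1 < c) (hd : 1 ≤ d) {C δ : ℝ} (hδ : 0 < δ) (hδ1 : δ < 1)
    (h : ∀ f : EuclideanSpace ℝ (Fin (d + 1)) → ℝ≥0∞, AEMeasurable f volume → (∀ x, f x ≠ ∞) →
      ∫⁻ e : sphere (0 : EuclideanSpace ℝ (Fin (d + 1))) 1,
        kmax δ f e ^ (1 + (d : ℝ) / c) ∂(sg d) ≤
      ENNReal.ofReal (C * δ ^ (-((d : ℝ) - (d : ℝ) / c))) * ∫⁻ y, f y ^ (1 + (d : ℝ) / c))
    (f : EuclideanSpace ℝ (Fin (d + 1)) → ℝ≥0∞) (hf : AEMeasurable f volume)
    (hft : ∀ x, f x ≠ ∞) :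
    ∫⁻ e : sphere (0 : EuclideanSpace ℝ (Fin (d + 1))) 1, kmax δ f e ^ ((d : ℝ) + 1) ∂(sg d) ≤
      ENNReal.ofReal (C * δ ^ (-((d : ℝ) - (d : ℝ) / c))) * ∫⁻ y, f y ^ ((d : ℝ) + 1) := by
  have hd0 : (0 : ℝ) < d := by exact_mod_cast hd
  have hc0 : 0 < c := by linarith
  set p : ℝ := 1 + (d : ℝ) / c with hp
  have hp0 : 0 < p := by positivity
  set r : ℝ := ((d : ℝ) + 1) / p with hr
  have hpn : p < (d : ℝ) + 1 := by
    have : (d : ℝ) / c < d := div_lt_self hd0 hc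
    rw [hp]
    linarith
  have hr1 : 1 < r := by rw [hr, lt_div_iff₀ hp0]; linarith
  have hrp : r * p = (d : ℝ) + 1 := by rw [hr]; field_simp
  have h1 := h (fun x => f x ^ r) (hf.pow_const _)
    (fun x => ENNReal.rpow_ne_top_of_nonneg (by linarith) (hft x))
  calc ∫⁻ e : sphere (0 : EuclideanSpace ℝ (Fin (d + 1))) 1, kmax δ f e ^ ((d : ℝ) + 1) ∂(sg d)
      ≤ ∫⁻ e : sphere (0 : EuclideanSpace ℝ (Fin (d + 1))) 1,
        kmax δ (fun x => f x ^ r) e ^ p ∂(sg d) := by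
        apply lintegral_mono
        intro e
        dsimp only
        rw [← hrp, ENNReal.rpow_mul]
        exact ENNReal.rpow_le_rpow (kmax_pow hδ hδ1 (by simp) f hr1) hp0.le
    _ ≤ _ := h1
    _ = _ := by
        congr 1
        refine lintegral_congr fun x => ?_
        rw [← ENNReal.rpow_mul, hrp]

/-- The main equivalence for functions with values in `[0, ∞]`: from the critical exponent with a
loss to the subcritical exponents without a loss. -/
theorem sub_of_crit (hd : 2 ≤ d) (h : ∀ ε : ℝ, 0 < ε → ∃ C : ℝ, 0 ≤ C ∧ KM d ε C) {c : ℝ}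
    (hc : 1 < c) : WeakP d c ∧ StrongP d c := by
  have hd2 : (2 : ℝ) ≤ d := by exact_mod_cast hd
  have hd0 : (0 : ℝ) < d := by linarith
  obtain ⟨C, hC, hF⟩ := euF_of_euL hd (le_refl (1 + 1 / (d : ℝ)))
    (q := 1 + c / d) (by gcongr) (fun ε hε => euL_of_KM (by omega) h ε hε)
  have hT : TubeQ d (1 + c / d) := by
    refine ⟨C, hC, ?_⟩
    intro δ hδ hδ1 ι _ a e he hsep
    have h2 := hF δ hδ hδ1 ι a e he hsep
    have e1 : C * δ ^ (d : ℝ) * (Fintype.card ι : ℝ) ^ (1 + c / (d : ℝ) - 1 / (d : ℝ)) =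
        C * (δ ^ d * (Fintype.card ι : ℝ) ^ (1 + c / (d : ℝ) - 1 / (d : ℝ))) := by
      rw [Real.rpow_natCast]; ring
    rw [e1]
    exact h2
  have h1 := weakQ (by omega) (by linarith) hT Pool.Agent.W131.HM.CAP Pool.Agent.W131.HM.VOL
  exact ⟨h1, strongP (by omega) hc h1⟩

end Pool.Agent.Y254.EL
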