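import Pool.Agent.Y254.EL.Fwd
import Pool.Agent.Y254.EL.Bwd
import Pool.Agent.Y254.Main
set_option autoImplicit false

/-!
# Loss-free inequalities above an exponent, and inequalities with a loss at the exponent
-/

open MeasureTheory Set Metric
open scoped ENNReal NNReal

namespace Pool.Agent.Y254.EL
open Pool.Agent.Y254 (mult mult_meas mult_le mult_ne_top mult_zero_or pmult pmult_eq sum_card_parts
  floor_near)
open Pool.Agent.W46.KK (tube)

variable {d : ℕ}

/-- The inequality without a loss for Euclidean tubes. -/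
def EuF (d : ℕ) (q C : ℝ) : Prop := ∀ δ : ℝ, 0 < δ → δ < 1 → ∀ (ι : Type) [Fintype ι]
    (a e : ι → EuclideanSpace ℝ (Fin (d + 1))), (∀ i, ‖e i‖ = 1) →
    (∀ i j, i ≠ j → δ ≤ ‖e i - e j‖) →
    ∫⁻ x, mult (fun i => tube δ (a i) (e i)) x ^ q ≤
      ENNReal.ofReal (C * (δ ^ d * (Fintype.card ι : ℝ) ^ (q - 1 / (d : ℝ))))

/-- An inequality with arbitrarily small losses at `q0` implies the inequality without a loss for
all larger exponents. -/
theorem euF_of_euL (hd : 2 ≤ d) {q0 q : ℝ} (hq0 : 1 + 1 / (d : ℝ) ≤ q0) (hq : q0 < q)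
    (h : ∀ ε : ℝ, 0 < ε → ∃ C : ℝ, 0 ≤ C ∧ EuL d q0 ε C) : ∃ C : ℝ, 0 < C ∧ EuF d q C := by
  have hdr : (2 : ℝ) ≤ d := by exact_mod_cast hd
  have hd0 : (0 : ℝ) < d := by linarith
  have hp0 : 0 < 1 / (d : ℝ) := by positivity
  rcases lt_or_ge (1 + 2 / ((d + 1 : ℕ) : ℝ)) q with h1 | h1
  · obtain ⟨A, hA, hw⟩ := Pool.Agent.Y254.wolff (n := d + 1) (by omega) h1
    refine ⟨A, hA, ?_⟩
    intro δ hδ hδ1 ι _ a e he hsep
    have h2 := hw δ hδ hδ1 a e he hsep
    have e1 : (((d + 1 : ℕ) : ℝ) - 1) = d := by push_cast; ring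
    rw [e1, Nat.add_sub_cancel] at h2
    exact h2
  · have hq2 : q ≤ 2 := by
      refine h1.trans ?_
      have : 2 / ((d + 1 : ℕ) : ℝ) ≤ 1 := by
        rw [div_le_one (by positivity)]
        push_cast
        linarith
      linarith
    have hLF : ∀ R : ℝ, 1 ≤ R → ∃ C : ℝ, 0 ≤ C ∧ LF d R q C := by
      intro R hR
      refine loss_removal (by omega) hR hq0 hq hq2 ?_
      intro ε hε
      obtain ⟨C, hC, hE⟩ := h ε hε
      exact LoB_of_EuL (by omega) hq0 hC hE hR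
    have hq' : 1 + 1 / (d : ℝ) ≤ q := by linarith
    obtain ⟨C, hC, hT⟩ := Pool.Agent.Y244.HM.tubeP (by omega) hq'
      (allwP_of_LF (by omega) hq' hLF)
    refine ⟨C, hC, ?_⟩
    intro δ hδ hδ1 ι _ a e he hsep
    have h2 := hT δ hδ hδ1.le ι a e he hsep
    have e1 : C * δ ^ (d : ℝ) * (Fintype.card ι : ℝ) ^ (q - 1 / (d : ℝ)) =
        C * (δ ^ d * (Fintype.card ι : ℝ) ^ (q - 1 / (d : ℝ))) := by
      rw [Real.rpow_natCast]; ring
    rw [e1] at h2
    exact h2

/-- The number of separated directions. -/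
theorem card_dirs {δ : ℝ} (hδ : 0 < δ) (hδ1 : δ < 1) {ι : Type} [Fintype ι]
    (e : ι → EuclideanSpace ℝ (Fin (d + 1))) (he : ∀ i, ‖e i‖ = 1)
    (hsep : ∀ i j, i ≠ j → δ ≤ ‖e i - e j‖) :
    (Fintype.card ι : ℝ) ≤ (4 * ((d : ℝ) + 1) / δ) ^ (d + 1) := by
  have hD : (1 : ℝ) ≤ (d : ℝ) + 1 := by
    have : (0 : ℝ) ≤ d := Nat.cast_nonneg _
    linarith
  have hD0 : (0 : ℝ) < (d : ℝ) + 1 := by linarith
  set δ' : ℝ := δ / ((d : ℝ) + 1) with hδ'
  have hδ'0 : 0 < δ' := by positivity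
  set v : ι → Fin (d + 1) → ℝ := fun i k => e i k with hv
  have hs : Sep δ' v := by
    intro i j hij
    have h1 : ‖e i - e j‖ ≤ ((d : ℝ) + 1) * ‖v i - v j‖ := by
      apply norm_le_coord (norm_nonneg _)
      intro k
      have := norm_le_pi_norm (v i - v j) k
      rw [Pi.sub_apply, Real.norm_eq_abs] at this
      rw [PiLp.sub_apply]
      exact this
    have h2 := hsep i j hij
    rw [hδ', div_le_iff₀ hD0]
    linarith
  have h1 := card_ball hδ'0 (ϱ := 1) zero_le_one hs 0 Finset.univ (by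
    intro i _
    rw [sub_zero, pi_norm_le_iff_of_nonneg zero_le_one]
    intro k
    have := PiLp.norm_apply_le (e i) k
    rw [he] at this
    exact this)
  rw [Finset.card_univ] at h1
  refine h1.trans ?_
  gcongr
  have e1 : 2 * 1 / δ' = 2 * ((d : ℝ) + 1) / δ := by rw [hδ']; field_simp
  rw [e1]
  have e2 : 2 ≤ 2 * ((d : ℝ) + 1) / δ := by
    rw [le_div_iff₀ hδ]
    nlinarith
  have e3 : 4 * ((d : ℝ) + 1) / δ = 2 * ((d : ℝ) + 1) / δ + 2 * ((d : ℝ) + 1) / δ := by ring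
  rw [e3]
  linarith

/-- The inequalities without a loss imply the inequality with a loss at the end of the range. -/
theorem euL_of_euF {q0 ε : ℝ} (hq0 : 0 < q0) (hε : 0 < ε) {C : ℝ} (hC : 0 < C)
    (h : EuF d (q0 + ε / (d + 1)) C) : ∃ C' : ℝ, 0 ≤ C' ∧ EuL d q0 ε C' := by
  have hD0 : (0 : ℝ) < (d : ℝ) + 1 := by positivity
  set η : ℝ := ε / (d + 1) with hη
  have hη0 : 0 < η := by positivity
  refine ⟨C * (4 * ((d : ℝ) + 1)) ^ ε, by positivity, ?_⟩
  intro δ hδ hδ1 ι _ a e he hsep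
  rcases isEmpty_or_nonempty ι with hemp | hne
  · have h1 : ∀ x, mult (fun i => tube δ (a i) (e i)) x ^ q0 = 0 := by
      intro x
      unfold mult
      rw [Finset.univ_eq_empty, Finset.sum_empty, ENNReal.zero_rpow_of_pos hq0]
    simp only [h1, lintegral_zero]
    exact zero_le
  refine (lintegral_mono fun x => ?_).trans ((h δ hδ hδ1 ι a e he hsep).trans ?_)
  · dsimp only
    rcases mult_zero_or (fun i => tube δ (a i) (e i)) x with h1 | h1
    · rw [h1, ENNReal.zero_rpow_of_pos hq0]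
      exact zero_le
    · exact ENNReal.rpow_le_rpow_of_exponent_le h1 (by linarith)
  · apply ENNReal.ofReal_le_ofReal
    have hN : (0 : ℝ) < Fintype.card ι := by exact_mod_cast Fintype.card_pos
    have hcard := card_dirs hδ hδ1 e he hsep
    have e1 : (Fintype.card ι : ℝ) ^ (q0 + η - 1 / (d : ℝ)) =
        (Fintype.card ι : ℝ) ^ η * (Fintype.card ι : ℝ) ^ (q0 - 1 / (d : ℝ)) := by
      rw [← Real.rpow_add hN]
      congr 1
      ring
    have e2 : (Fintype.card ι : ℝ) ^ η ≤ (4 * ((d : ℝ) + 1)) ^ ε * δ ^ (-ε) := by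
      calc (Fintype.card ι : ℝ) ^ η ≤ ((4 * ((d : ℝ) + 1) / δ) ^ (d + 1)) ^ η := by gcongr
        _ = (4 * ((d : ℝ) + 1) / δ) ^ ε := by
            rw [← Real.rpow_natCast, ← Real.rpow_mul (by positivity)]
            congr 1
            rw [hη]
            push_cast
            field_simp
        _ = _ := by
            rw [Real.div_rpow (by positivity) hδ.le, Real.rpow_neg hδ.le, div_eq_mul_inv]
    rw [e1]
    calc C * (δ ^ d * ((Fintype.card ι : ℝ) ^ η * (Fintype.card ι : ℝ) ^ (q0 - 1 / (d : ℝ))))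
        ≤ C * (δ ^ d * (((4 * ((d : ℝ) + 1)) ^ ε * δ ^ (-ε)) *
          (Fintype.card ι : ℝ) ^ (q0 - 1 / (d : ℝ)))) := by gcongr
      _ = _ := by ring

end Pool.Agent.Y254.EL
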