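import Pool.Agent.Y254.EL.Rem
import Pool.Agent.Y244.HM.Pipe
set_option autoImplicit false

/-!
# From the slope model without loss to Euclidean tubes
-/

open MeasureTheory Set Metric
open scoped ENNReal NNReal

namespace Pool.Agent.Y254.EL
open Pool.Agent.Y254 (mult mult_meas mult_le mult_ne_top mult_zero_or pmult pmult_eq sum_card_parts
  floor_near)

variable {d : ℕ}

/-- Distinct integers of the same parity. -/
theorem two_le_of_parity {a b : ℤ} (hne : a ≠ b) (hp : Even a ↔ Even b) : 2 ≤ |a - b| := by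
  have h1 : Even (a - b) := by rw [Int.even_sub]; exact hp
  obtain ⟨k, hk⟩ := h1
  have h2 : k ≠ 0 := by
    intro h
    apply hne
    omega
  rw [hk]
  rcases lt_or_gt_of_ne h2 with h | h
  · rw [abs_of_neg (by omega)]; omega
  · rw [abs_of_pos (by omega)]; omega

theorem floor_gap {x y : ℝ} (h : 2 ≤ |⌊x⌋ - ⌊y⌋|) : 1 ≤ |x - y| := by
  have h1 := Int.floor_le x
  have h2 := Int.lt_floor_add_one x
  have h3 := Int.floor_le y
  have h4 := Int.lt_floor_add_one y
  rcases le_or_gt ⌊y⌋ ⌊x⌋ with h5 | h5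
  · rw [abs_of_nonneg (by omega)] at h
    have h6 : ((⌊y⌋ : ℝ)) + 2 ≤ ⌊x⌋ := by
      have : ⌊y⌋ + 2 ≤ ⌊x⌋ := by omega
      exact_mod_cast this
    rw [abs_of_nonneg (by linarith)]
    linarith
  · rw [abs_of_neg (by omega)] at h
    have h6 : ((⌊x⌋ : ℝ)) + 2 ≤ ⌊y⌋ := by
      have : ⌊x⌋ + 2 ≤ ⌊y⌋ := by omega
      exact_mod_cast this
    rw [abs_of_nonpos (by linarith)]
    linarith

theorem allwP_of_LF (hd : 1 ≤ d) {q : ℝ} (hq : 1 + 1 / (d : ℝ) ≤ q)
    (h : ∀ R : ℝ, 1 ≤ R → ∃ C : ℝ, 0 ≤ C ∧ LF d R q C) : Pool.Agent.Y244.HM.AllwP d q := by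
  classical
  have hd0 : (0 : ℝ) < d := by exact_mod_cast hd
  have hp0 : 0 < 1 / (d : ℝ) := by positivity
  have hq0 : 0 < q := by linarith
  have hq1 : 1 ≤ q := by linarith
  have hβ : 0 ≤ q - 1 / (d : ℝ) := by linarith
  intro R hR
  obtain ⟨C, hC, hLF⟩ := h (2 * R + 2) (by linarith)
  set K : ℕ := Fintype.card (Fin d → Bool) with hK
  refine ⟨(K : ℝ) ^ (q - 1) * (K * C), by positivity, ?_⟩
  intro N Ω _ P v b r hN hr hNr hv hsep
  have hN1 : (1 : ℝ) ≤ N := by exact_mod_cast hN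
  have hN0 : (0 : ℝ) < N := by linarith
  set δ : ℝ := 1 / (2 * N) with hδ
  have hδ0 : 0 < δ := by positivity
  have hδ1 : δ < 1 := by
    rw [hδ, div_lt_one (by positivity)]
    linarith
  set R' : ℝ := 2 * R + 2 with hR'
  set T : Ω → Set (Pt d) := fun ω => tb R' (R' * δ) (b ω) (P ω) (v ω) with hT
  have hTm : ∀ i, MeasurableSet (T i) := fun i => tb_meas _ _ _ _ _
  have hrR : r ≤ R' * δ := by
    have : r ≤ R / N := by rw [le_div_iff₀ hN0]; linarith
    have h2 : R' * δ = R / N + 1 / N := by rw [hR', hδ]; field_simp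
    have h3 : 0 < 1 / (N : ℝ) := by positivity
    linarith
  set c : Ω → Fin d → ℤ := fun ω k => ⌊(N : ℝ) * ((v ω k + 1) / 2)⌋ with hc
  set κ : Ω → (Fin d → Bool) := fun ω k => decide (Even (c ω k)) with hκ
  have hpt : ∀ z : Pt d, (∑ ω, (if (|z.1 - b ω| ≤ 3 / 2 ∧
        ∀ k, |z.2 k - (P ω k + z.1 * v ω k)| ≤ r) then (1 : ℝ≥0∞) else 0)) ≤
      ∑ e : Fin d → Bool, pmult T κ e z := by
    intro z
    have h1 : ∑ e : Fin d → Bool, pmult T κ e z = mult T z := by
      unfold mult pmult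
      rw [Finset.sum_comm]
      refine Finset.sum_congr rfl fun i _ => ?_
      rw [Finset.sum_ite_eq, if_pos (Finset.mem_univ _)]
    rw [h1]
    unfold mult
    apply Finset.sum_le_sum
    intro ω _
    by_cases hz : |z.1 - b ω| ≤ 3 / 2 ∧ ∀ k, |z.2 k - (P ω k + z.1 * v ω k)| ≤ r
    · have hzT : z ∈ T ω := by
        refine ⟨by linarith [hz.1], ?_⟩
        rw [pi_norm_le_iff_of_nonneg (by positivity)]
        intro k
        have h2 := hz.2 k
        rw [Real.norm_eq_abs]
        have h3 : (z.2 - P ω - z.1 • v ω) k = z.2 k - (P ω k + z.1 * v ω k) := by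
          simp only [Pi.sub_apply, Pi.smul_apply, smul_eq_mul]
          ring
        rw [h3]
        linarith
      rw [if_pos hz, indicator_of_mem hzT]
      exact le_rfl
    · rw [if_neg hz]
      exact zero_le
  have hpm : ∀ e : Fin d → Bool, Measurable fun x => pmult T κ e x := by
    intro c
    simp only [pmult_eq]
    exact mult_meas fun i => tb_meas _ _ _ _ _
  have hpart : ∀ e : Fin d → Bool, ∫⁻ z, pmult T κ e z ^ q ≤
      ENNReal.ofReal (C * (δ ^ d * (Fintype.card Ω : ℝ) ^ (q - 1 / (d : ℝ)))) := by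
    intro e
    simp only [pmult_eq]
    refine (hLF δ hδ0 hδ1 (fun i : {i // κ i = e} => b i) (fun i : {i // κ i = e} => P i)
      (fun i : {i // κ i = e} => v i) ?_ ?_).trans (ENNReal.ofReal_le_ofReal ?_)
    · intro i
      rw [pi_norm_le_iff_of_nonneg zero_le_one]
      intro k
      rw [Real.norm_eq_abs]
      exact hv i k
    · intro i j hij
      have hne : (i : Ω) ≠ j := fun h => hij (Subtype.ext h)
      have h1 : ∃ k, c i k ≠ c j k := by
        by_contra hcon
        push Not at hcon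
        exact hne (hsep i j hcon)
      obtain ⟨k, hk⟩ := h1
      have h2 : (Even (c i k)) ↔ Even (c j k) := by
        have := congrFun (i.2.trans j.2.symm) k
        simpa [hκ] using this
      have h3 := floor_gap (two_le_of_parity hk h2)
      have h4 : (N : ℝ) * ((v i k + 1) / 2) - N * ((v j k + 1) / 2) = (N / 2) * (v i k - v j k) := by
        ring
      rw [h4, abs_mul, abs_of_pos (by positivity)] at h3
      have h5 : |v i k - v j k| ≤ ‖v i - v j‖ := by
        have := norm_le_pi_norm (v i - v j) k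
        rwa [Pi.sub_apply, Real.norm_eq_abs] at this
      rw [hδ, div_le_iff₀ (by positivity)]
      nlinarith
    · have : (Fintype.card {i // κ i = e} : ℝ) ≤ Fintype.card Ω := by
        exact_mod_cast Fintype.card_subtype_le _
      gcongr
  calc ∫⁻ z : ℝ × (Fin d → ℝ), (∑ ω, (if (|z.1 - b ω| ≤ 3 / 2 ∧
        ∀ k, |z.2 k - (P ω k + z.1 * v ω k)| ≤ r) then (1 : ℝ≥0∞) else 0)) ^ q
      ≤ ∫⁻ z : Pt d, (K : ℝ≥0∞) ^ (q - 1) * ∑ e : Fin d → Bool, pmult T κ e z ^ q := by
        apply lintegral_mono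
        intro z
        refine (ENNReal.rpow_le_rpow (hpt z) hq0.le).trans ?_
        have := ENNReal.rpow_sum_le_const_mul_sum_rpow (Finset.univ : Finset (Fin d → Bool))
          (fun e => pmult T κ e z) hq1
        rwa [Finset.card_univ] at this
    _ = (K : ℝ≥0∞) ^ (q - 1) * ∑ e : Fin d → Bool, ∫⁻ z : Pt d, pmult T κ e z ^ q := by
        rw [lintegral_const_mul _ (Finset.measurable_sum _ fun e _ => (hpm e).pow_const _),
          lintegral_finsetSum _ fun e _ => (hpm e).pow_const _]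
    _ ≤ (K : ℝ≥0∞) ^ (q - 1) * ∑ _e : Fin d → Bool,
        ENNReal.ofReal (C * (δ ^ d * (Fintype.card Ω : ℝ) ^ (q - 1 / (d : ℝ)))) := by
        gcongr with e he
        exact hpart e
    _ = ENNReal.ofReal ((K : ℝ) ^ (q - 1) * (K *
        (C * (δ ^ d * (Fintype.card Ω : ℝ) ^ (q - 1 / (d : ℝ)))))) := by
        rw [Finset.sum_const, Finset.card_univ, nsmul_eq_mul, ← ENNReal.ofReal_natCast,
          ENNReal.ofReal_rpow_of_nonneg (by positivity) (by linarith),
          ← ENNReal.ofReal_mul (by positivity), ← ENNReal.ofReal_mul (by positivity)]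
    _ ≤ _ := by
        apply ENNReal.ofReal_le_ofReal
        have h1 : δ ^ d ≤ (N : ℝ) ^ (-(d : ℝ)) := by
          rw [Real.rpow_neg hN0.le, Real.rpow_natCast, ← inv_pow]
          apply pow_le_pow_left₀ hδ0.le
          rw [hδ, one_div]
          apply inv_anti₀ hN0
          linarith
        calc (K : ℝ) ^ (q - 1) * (K * (C * (δ ^ d * (Fintype.card Ω : ℝ) ^ (q - 1 / (d : ℝ)))))
            ≤ (K : ℝ) ^ (q - 1) * (K * (C * ((N : ℝ) ^ (-(d : ℝ)) *
              (Fintype.card Ω : ℝ) ^ (q - 1 / (d : ℝ))))) := by gcongr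
          _ = _ := by ring

end Pool.Agent.Y254.EL
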