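import Pool.Agent.Y254.EL.Cover
set_option autoImplicit false

/-!
# The inequality on the set of very high multiplicity, with a loss in the level only
-/

open MeasureTheory Set Metric
open scoped ENNReal NNReal

namespace Pool.Agent.Y254.EL
open Pool.Agent.Y254 (mult mult_meas mult_le pmult pmult_eq sum_card_parts)

variable {d : ℕ}

theorem walk_dist {V E : Type*} [PseudoMetricSpace E] {G : SimpleGraph V} (f : V → E) {ρ : ℝ}
    (h : ∀ x y, G.Adj x y → dist (f x) (f y) ≤ ρ) {x y : V} (p : G.Walk x y) :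
    dist (f x) (f y) ≤ p.length * ρ := by
  induction p with
  | nil => simp
  | @cons u v w hadj p ih =>
    refine (dist_triangle (f u) (f v) (f w)).trans ?_
    rw [SimpleGraph.Walk.length_cons]
    push_cast
    have := h _ _ hadj
    linarith

theorem reach_dist {V E : Type*} [PseudoMetricSpace E] [Fintype V] {G : SimpleGraph V} (f : V → E)
    {ρ : ℝ} (hρ : 0 ≤ ρ) (h : ∀ x y, G.Adj x y → dist (f x) (f y) ≤ ρ) {x y : V}
    (hxy : G.Reachable x y) : dist (f x) (f y) ≤ Fintype.card V * ρ := by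
  classical
  obtain ⟨p, hp⟩ := hxy.exists_isPath
  refine (walk_dist f h p).trans ?_
  have h1 : (p.length : ℝ) ≤ Fintype.card V := by exact_mod_cast hp.length_lt.le
  gcongr

/-- Partition of a finite set into clusters. -/
theorem clusters {E : Type*} [PseudoMetricSpace E] (X : Finset E) {ρ : ℝ} (hρ : 0 ≤ ρ) :
    ∃ κ : E → E, (∀ x ∈ X, κ x ∈ X) ∧ (∀ x ∈ X, dist x (κ x) ≤ X.card * ρ) ∧
      ∀ x ∈ X, ∀ y ∈ X, κ x ≠ κ y → ρ ≤ dist x y := by
  classical
  set G : SimpleGraph X := SimpleGraph.fromRel fun x y => dist x.1 y.1 < ρ with hG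
  have hadj : ∀ x y : X, G.Adj x y → dist x.1 y.1 ≤ ρ := by
    intro x y h
    rw [hG, SimpleGraph.fromRel_adj] at h
    rcases h.2 with h | h
    · exact h.le
    · rw [dist_comm]; exact h.le
  refine ⟨fun x => if h : x ∈ X then ((G.connectedComponentMk ⟨x, h⟩).out).1 else x, ?_, ?_, ?_⟩
  · intro x hx
    simp only [dif_pos hx]
    exact ((G.connectedComponentMk ⟨x, hx⟩).out).2
  · intro x hx
    simp only [dif_pos hx]
    have h1 : G.connectedComponentMk ((G.connectedComponentMk ⟨x, hx⟩).out) =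
        G.connectedComponentMk ⟨x, hx⟩ := Quot.out_eq _
    have h2 : G.Reachable ⟨x, hx⟩ ((G.connectedComponentMk ⟨x, hx⟩).out) :=
      SimpleGraph.ConnectedComponent.exact h1.symm
    have h3 := reach_dist (fun x : X => x.1) hρ hadj h2
    rwa [Fintype.card_coe] at h3
  · intro x hx y hy hne
    simp only [dif_pos hx, dif_pos hy] at hne
    by_contra hcon
    rw [not_le] at hcon
    apply hne
    by_cases hxy : x = y
    · subst hxy; rfl
    · have h1 : G.Adj ⟨x, hx⟩ ⟨y, hy⟩ := by
        rw [hG, SimpleGraph.fromRel_adj]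
        exact ⟨fun h => hxy (congrArg Subtype.val h), Or.inl hcon⟩
      have h2 : G.connectedComponentMk ⟨x, hx⟩ = G.connectedComponentMk ⟨y, hy⟩ :=
        SimpleGraph.ConnectedComponent.sound h1.reachable
      rw [h2]

theorem image_card_le {E : Type*} [DecidableEq E] (κ : E → E) (Y : Finset E) :
    (Y.image κ).card ≤ 1 + ((Y ×ˢ Y).filter fun z => κ z.1 ≠ κ z.2).card := by
  rcases Y.eq_empty_or_nonempty with h0 | ⟨x0, hx0⟩
  · rw [h0]; simp
  have h1 : (Y.image κ).erase (κ x0) ⊆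
      ((Y ×ˢ Y).filter fun z => κ z.1 ≠ κ z.2).image (fun z => κ z.2) := by
    intro c hc
    rw [Finset.mem_erase, Finset.mem_image] at hc
    obtain ⟨hc1, x, hx, hxc⟩ := hc
    rw [Finset.mem_image]
    refine ⟨(x0, x), ?_, hxc⟩
    rw [Finset.mem_filter, Finset.mem_product]
    refine ⟨⟨hx0, hx⟩, ?_⟩
    intro h
    exact hc1 (hxc.symm.trans h.symm)
  have h2 := (Finset.card_le_card h1).trans Finset.card_image_le
  have h3 : (Y.image κ).card = ((Y.image κ).erase (κ x0)).card + 1 := by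
    rw [Finset.card_erase_add_one]
    exact Finset.mem_image_of_mem _ hx0
  omega

open Classical in
theorem cluster_count {E ι : Type*} [DecidableEq E] [Fintype ι] (X : Finset E) (κ : E → E) (m : ι → E → Prop) :
    ∑ c ∈ X.image κ, ((Finset.univ.filter fun i => ∃ x ∈ X, κ x = c ∧ m i x).card : ℝ) ≤
      Fintype.card ι + ∑ z ∈ (X ×ˢ X).filter (fun z => κ z.1 ≠ κ z.2),
        ((Finset.univ.filter fun i => m i z.1 ∧ m i z.2).card : ℝ) := by
  set Y : ι → Finset E := fun i => X.filter fun x => m i x with hY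
  have h1 : ∑ c ∈ X.image κ, ((Finset.univ.filter fun i => ∃ x ∈ X, κ x = c ∧ m i x).card : ℝ) =
      ∑ i, (((Y i).image κ).card : ℝ) := by
    have e1 : ∀ c, ((Finset.univ.filter fun i => ∃ x ∈ X, κ x = c ∧ m i x).card : ℝ) =
        ∑ i, if ∃ x ∈ X, κ x = c ∧ m i x then (1 : ℝ) else 0 := by
      intro x; rw [Finset.card_filter]; push_cast; rfl
    simp only [e1]
    rw [Finset.sum_comm]
    refine Finset.sum_congr rfl fun i _ => ?_
    rw [← Finset.sum_filter, Finset.sum_const, nsmul_eq_mul, mul_one]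
    congr 2
    ext c
    simp only [Finset.mem_filter, Finset.mem_image, hY]
    constructor
    · rintro ⟨_, x, hx, hxc, hm⟩
      exact ⟨x, ⟨hx, hm⟩, hxc⟩
    · rintro ⟨x, ⟨hx, hm⟩, hxc⟩
      exact ⟨⟨x, hx, hxc⟩, x, hx, hxc, hm⟩
  have h2 : ∑ z ∈ (X ×ˢ X).filter (fun z => κ z.1 ≠ κ z.2),
        ((Finset.univ.filter fun i => m i z.1 ∧ m i z.2).card : ℝ) =
      ∑ i, ((((Y i) ×ˢ (Y i)).filter fun z => κ z.1 ≠ κ z.2).card : ℝ) := by
    have e1 : ∀ z : E × E, ((Finset.univ.filter fun i => m i z.1 ∧ m i z.2).card : ℝ) =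
        ∑ i, if m i z.1 ∧ m i z.2 then (1 : ℝ) else 0 := by
      intro x; rw [Finset.card_filter]; push_cast; rfl
    simp only [e1]
    rw [Finset.sum_comm]
    refine Finset.sum_congr rfl fun i _ => ?_
    rw [← Finset.sum_filter, Finset.sum_const, nsmul_eq_mul, mul_one]
    congr 2
    ext z
    simp only [Finset.mem_filter, Finset.mem_product, hY]
    tauto
  rw [h1, h2]
  have h3 : (Fintype.card ι : ℝ) = ∑ _i : ι, (1 : ℝ) := by
    rw [Finset.sum_const, Finset.card_univ, nsmul_eq_mul, mul_one]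
  rw [h3, ← Finset.sum_add_distrib]
  apply Finset.sum_le_sum
  intro i _
  exact_mod_cast image_card_le κ (Y i)

/-- Sums of convex powers. -/
theorem sum_pow_super {D : Type*} (s : Finset D) {a : D → ℝ} (ha : ∀ c, 0 ≤ a c) {β : ℝ}
    (hβ : 1 ≤ β) : ∑ c ∈ s, a c ^ β ≤ (∑ c ∈ s, a c) ^ β := by
  classical
  induction s using Finset.induction_on with
  | empty =>
    rw [Finset.sum_empty, Finset.sum_empty, Real.zero_rpow (by linarith)]
  | insert c s hc ih =>
    rw [Finset.sum_insert hc, Finset.sum_insert hc]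
    refine le_trans ?_ (Real.add_rpow_le_rpow_add (ha c) (Finset.sum_nonneg fun c _ => ha c) hβ)
    linarith

/-- The inequality on the set of very high multiplicity. -/
theorem key (hd : 1 ≤ d) {R q ε C : ℝ} (hR : 1 ≤ R) (hq : 1 + 1 / (d : ℝ) ≤ q) (hC : 0 ≤ C)
    (hε : 0 ≤ ε) (hlo : LoB d R q ε C) {δ L : ℝ} (hδ : 0 < δ) (hδ1 : δ < 1) (hL : 1 ≤ L)
    {ι : Type} [Fintype ι] [Nonempty ι] (b : ι → ℝ) (P v : ι → Fin d → ℝ) (hv : ∀ i, ‖v i‖ ≤ 1)
    (hs : Sep δ v) (hM : (1 / δ) ^ d ≤ L * Fintype.card ι) :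
    ∫⁻ x in {x | ENNReal.ofReal (Fintype.card ι / L) ≤
        mult (fun i => tb R (R * δ) (b i) (P i) (v i)) x},
      mult (fun i => tb R (R * δ) (b i) (P i) (v i)) x ^ q ≤
      ENNReal.ofReal (8 * C * ((41088 * R * L ^ 7) ^ ε * (δ ^ d *
        (2 * (Fintype.card ι : ℝ)) ^ (q - 1 / (d : ℝ))))) := by
  classical
  set T : ι → Set (Pt d) := fun i => tb R (R * δ) (b i) (P i) (v i) with hT
  have hTm : ∀ i, MeasurableSet (T i) := fun i => tb_meas _ _ _ _ _
  set M : ℝ := (Fintype.card ι : ℝ) with hMdef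
  have hM0 : 0 < M := by
    rw [hMdef]
    exact_mod_cast Fintype.card_pos
  have hL0 : 0 < L := by linarith
  have hd0 : (0 : ℝ) < d := by exact_mod_cast hd
  have hp0 : 0 < 1 / (d : ℝ) := by positivity
  have hq0 : 0 < q := by linarith
  have hβ : 1 ≤ q - 1 / (d : ℝ) := by linarith
  have hL1 : 1 ≤ L ^ 3 := one_le_pow₀ hL
  have hL36 : L ^ 3 ≤ L ^ 6 := pow_le_pow_right₀ hL (by norm_num)
  have hL37 : L ^ 3 ≤ L ^ 7 := pow_le_pow_right₀ hL (by norm_num)
  rcases lt_or_ge 1 (41088 * R * L ^ 7 * δ) with hcase | hcase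
  · -- the inequality itself
    refine (setLIntegral_le_lintegral _ _).trans ((hlo δ hδ hδ1 b P v hv hs).trans ?_)
    apply ENNReal.ofReal_le_ofReal
    have h1 : δ ^ (-ε) ≤ (41088 * R * L ^ 7) ^ ε := by
      rw [Real.rpow_neg hδ.le, ← Real.inv_rpow hδ.le]
      apply Real.rpow_le_rpow (by positivity) _ hε
      rw [inv_le_iff_one_le_mul₀ hδ]
      exact hcase.le
    calc C * (δ ^ (-ε) * (δ ^ d * M ^ (q - 1 / (d : ℝ))))
        ≤ C * ((41088 * R * L ^ 7) ^ ε * (δ ^ d * (2 * M) ^ (q - 1 / (d : ℝ)))) := by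
          gcongr
          linarith
      _ ≤ 8 * C * ((41088 * R * L ^ 7) ^ ε * (δ ^ d * (2 * M) ^ (q - 1 / (d : ℝ)))) := by
          have : 0 ≤ C * ((41088 * R * L ^ 7) ^ ε * (δ ^ d * (2 * M) ^ (q - 1 / (d : ℝ)))) := by
            positivity
          linarith
  set S : Set (Pt d) := {x | ENNReal.ofReal (M / L) ≤ mult T x} with hS
  set r0 : ℝ := 128 * R * L ^ 3 * δ with hr0
  set ρ1 : ℝ := 20480 * R * L ^ 6 * δ with hρ1
  set ρ : ℝ := 41088 * R * L ^ 7 * δ with hρ
  have hRδ : 0 < R * δ := by positivity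
  have hRL3 : R * δ ≤ R * δ * L ^ 3 := le_mul_of_one_le_right hRδ.le hL1
  have hRL36 : R * δ * L ^ 3 ≤ R * δ * L ^ 6 := by gcongr
  have hRL37 : R * δ * L ^ 3 ≤ R * δ * L ^ 7 := by gcongr
  have hLδ : 32 * L ^ 3 * δ ≤ 1 := by
    refine le_trans ?_ hcase
    have h1 : L ^ 3 * δ ≤ R * (L ^ 3 * δ) := le_mul_of_one_le_left (by positivity) hR
    have h2 : R * (L ^ 3 * δ) = R * δ * L ^ 3 := by ring
    have h3 : ρ = 41088 * (R * δ * L ^ 7) := by rw [hρ]; ring
    rw [h3]
    nlinarith
  obtain ⟨X, hXS, hXc, hXcov⟩ := exists_max_sep S (r := r0) (B := 2 * L) (by positivity)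
    (fun X hX hsep => few_points hd hR hδ hL b P v hv hs hM hLδ X (fun x hx => hX x hx) hsep)
  obtain ⟨κ, hκX, hκd, hκs⟩ := clusters X (ρ := ρ1) (by positivity)
  set m : ι → Pt d → Prop := fun i x => ∃ z ∈ closedBall x r0, z ∈ T i with hm
  set pI : Pt d → ι → Prop := fun c i => ∃ x ∈ X, κ x = c ∧ m i x with hpI
  set n : Pt d → ℝ := fun c => (Fintype.card {i // pI c i} : ℝ) with hn
  have hn0 : ∀ c, 0 ≤ n c := fun c => by positivity
  -- the total number of tubes
  have hcount : ∑ c ∈ X.image κ, n c ≤ 2 * M := by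
    have h1 := cluster_count X κ m
    have h2 : ∀ c ∈ X.image κ,
        n c = ((Finset.univ.filter fun i => ∃ x ∈ X, κ x = c ∧ m i x).card : ℝ) := by
      intro c _
      rw [hn]
      dsimp only
      rw [Fintype.card_subtype]
    rw [Finset.sum_congr rfl h2]
    refine h1.trans ?_
    have h3 : ∑ z ∈ (X ×ˢ X).filter (fun z => κ z.1 ≠ κ z.2),
        ((Finset.univ.filter fun i => m i z.1 ∧ m i z.2).card : ℝ) ≤
        ((X.card : ℝ) * X.card) * (2 / 8 * (M / L ^ 2)) := by
      have h4 : ∀ z ∈ (X ×ˢ X).filter (fun z => κ z.1 ≠ κ z.2),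
          ((Finset.univ.filter fun i => m i z.1 ∧ m i z.2).card : ℝ) ≤ 2 / 8 * (M / L ^ 2) := by
        intro z hz
        rw [Finset.mem_filter, Finset.mem_product] at hz
        refine few_common (A := 8) (a := r0) (D := ρ1) (b := b) (P := P) hd hδ hR hL (by positivity) hM
          (by norm_num) hv hs (hκs z.1 hz.1.1 z.2 hz.1.2 hz.2) ?_ ?_ ?_ (by norm_num) _ ?_
        · have e1 : r0 = 128 * (R * δ * L ^ 3) := by rw [hr0]; ring
          have e2 : ρ1 = 20480 * (R * δ * L ^ 6) := by rw [hρ1]; ring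
          rw [e1, e2]
          nlinarith
        · have e1 : r0 = 128 * (R * δ * L ^ 3) := by rw [hr0]; ring
          have e2 : ρ1 = 20480 * (R * δ * L ^ 6) := by rw [hρ1]; ring
          rw [e1, e2]
          calc 4 * (2 * (R * δ) + 4 * (128 * (R * δ * L ^ 3))) * (8 * L ^ 3)
              ≤ 4 * (2 * (R * δ * L ^ 3) + 4 * (128 * (R * δ * L ^ 3))) * (8 * L ^ 3) := by gcongr
            _ = 16448 * (R * δ * L ^ 6) := by ring
            _ ≤ _ := by
                have : 0 < R * δ * L ^ 6 := by positivity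
                nlinarith
        · nlinarith
        · intro j hj
          exact (Finset.mem_filter.1 hj).2
      calc ∑ z ∈ (X ×ˢ X).filter (fun z => κ z.1 ≠ κ z.2),
            ((Finset.univ.filter fun i => m i z.1 ∧ m i z.2).card : ℝ)
          ≤ ((X ×ˢ X).filter (fun z => κ z.1 ≠ κ z.2)).card • (2 / 8 * (M / L ^ 2)) :=
            Finset.sum_le_card_nsmul _ _ _ h4
        _ ≤ _ := by
            rw [nsmul_eq_mul]
            gcongr
            have h6 : ((X ×ˢ X).filter (fun z => κ z.1 ≠ κ z.2)).card ≤ X.card * X.card := by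
              refine (Finset.card_filter_le _ _).trans ?_
              rw [Finset.card_product]
            exact_mod_cast h6
    have h5 : ((X.card : ℝ) * X.card) * (2 / 8 * (M / L ^ 2)) ≤ M := by
      calc ((X.card : ℝ) * X.card) * (2 / 8 * (M / L ^ 2))
          ≤ ((2 * L) * (2 * L)) * (2 / 8 * (M / L ^ 2)) := by gcongr
        _ = M := by field_simp; norm_num
    linarith
  -- the pointwise bound
  set F : Pt d → Pt d → ℝ≥0∞ := fun c x => mult (fun i : {i // pI c i} => T i) x with hF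
  have hFm : ∀ c, Measurable (F c) := fun c => mult_meas fun i => hTm i
  have hpt : ∀ y ∈ S, mult T y ^ q ≤
      ∑ c ∈ X.image κ, (closedBall c ρ).indicator (fun y => F c y ^ q) y := by
    intro y hy
    obtain ⟨x, hx, hyx⟩ := hXcov y hy
    have h1 : y ∈ closedBall (κ x) ρ := by
      rw [mem_closedBall]
      refine (dist_triangle _ x _).trans ?_
      have h2 := hκd x hx
      have h3 : (X.card : ℝ) * ρ1 ≤ 2 * L * ρ1 := by gcongr
      have h4 : 2 * L * ρ1 = 40960 * (R * δ * L ^ 7) := by rw [hρ1]; ring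
      have h5 : r0 = 128 * (R * δ * L ^ 3) := by rw [hr0]; ring
      have h6 : ρ = 41088 * (R * δ * L ^ 7) := by rw [hρ]; ring
      linarith
    have h2 : mult T y ≤ F (κ x) y := by
      rw [hF]
      dsimp only
      unfold mult
      rw [← Finset.sum_subtype (Finset.univ.filter fun i => pI (κ x) i) (by simp)
        (fun i => (T i).indicator 1 y), Finset.sum_filter]
      apply Finset.sum_le_sum
      intro i _
      by_cases hi : y ∈ T i
      · rw [if_pos]
        exact ⟨x, hx, rfl, y, hyx, hi⟩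
      · rw [indicator_of_notMem hi]; exact zero_le
    calc mult T y ^ q ≤ F (κ x) y ^ q := ENNReal.rpow_le_rpow h2 hq0.le
      _ = (closedBall (κ x) ρ).indicator (fun y => F (κ x) y ^ q) y := by
          rw [indicator_of_mem h1]
      _ ≤ _ := Finset.single_le_sum
          (f := fun c => (closedBall c ρ).indicator (fun y => F c y ^ q) y)
          (fun _ _ => zero_le) (Finset.mem_image_of_mem κ hx)
  have hSm : MeasurableSet S := measurableSet_le measurable_const (mult_meas hTm)
  calc ∫⁻ x in S, mult T x ^ q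
      ≤ ∫⁻ x in S, ∑ c ∈ X.image κ, (closedBall c ρ).indicator (fun y => F c y ^ q) x :=
        setLIntegral_mono' hSm hpt
    _ ≤ ∫⁻ x, ∑ c ∈ X.image κ, (closedBall c ρ).indicator (fun y => F c y ^ q) x :=
        setLIntegral_le_lintegral _ _
    _ = ∑ c ∈ X.image κ, ∫⁻ x in closedBall c ρ, F c x ^ q := by
        rw [lintegral_finsetSum _ fun c _ => ((hFm c).pow_const q).indicator
          measurableSet_closedBall]
        refine Finset.sum_congr rfl fun c _ => ?_
        rw [lintegral_indicator measurableSet_closedBall]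
    _ ≤ ∑ c ∈ X.image κ, ENNReal.ofReal (8 * C * ((ρ / δ) ^ ε * (δ ^ d *
          n c ^ (q - 1 / (d : ℝ))))) := by
        apply Finset.sum_le_sum
        intro c _
        refine zoom hd hR hq hC hlo hδ ?_ hcase c (fun i : {i // pI c i} => b i)
          (fun i : {i // pI c i} => P i) (fun i : {i // pI c i} => v i) (fun i => hv i)
          (fun i j hij => hs i j fun h => hij (Subtype.ext h))
        have h1 : 1 ≤ R * L ^ 7 := by
          have : 1 ≤ L ^ 7 := one_le_pow₀ hL
          nlinarith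
        have h2 : ρ = 41088 * (R * L ^ 7) * δ := by rw [hρ]; ring
        rw [h2]
        nlinarith
    _ = ENNReal.ofReal (8 * C * ((ρ / δ) ^ ε * (δ ^ d *
          ∑ c ∈ X.image κ, n c ^ (q - 1 / (d : ℝ))))) := by
        rw [← ENNReal.ofReal_sum_of_nonneg (fun c _ => by positivity), Finset.mul_sum,
          Finset.mul_sum, Finset.mul_sum]
    _ ≤ _ := by
        apply ENNReal.ofReal_le_ofReal
        have h1 : ρ / δ = 41088 * R * L ^ 7 := by rw [hρ]; field_simp
        rw [h1]
        have h2 : ∑ c ∈ X.image κ, n c ^ (q - 1 / (d : ℝ)) ≤ (2 * M) ^ (q - 1 / (d : ℝ)) := by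
          refine le_trans ?_ (Real.rpow_le_rpow (Finset.sum_nonneg fun c _ => hn0 c) hcount
            (by linarith))
          exact sum_pow_super _ hn0 hβ
        gcongr

end Pool.Agent.Y254.EL
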