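import Pool.Agent.Y254.EL.Key
import Pool.Agent.Y254.Ind
set_option autoImplicit false

/-!
# Removal of the loss
-/

open MeasureTheory Set Metric
open scoped ENNReal NNReal

namespace Pool.Agent.Y254.EL
open Pool.Agent.Y254 (mult mult_meas mult_le mult_ne_top mult_zero_or pmult pmult_eq sum_card_parts
  floor_near)

variable {d : ℕ}

/-- The points at which most pairs of tubes are transversal. -/
def tr {X ι : Type*} [Fintype ι] (s : ℝ) (T : ι → Set X) (v : ι → Fin d → ℝ) : Set X :=
  {x | ∀ j, x ∈ T j → mult T x ≤ 2 * ∑ i, open Classical in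
    if s ≤ ‖v i - v j‖ then (T i).indicator (1 : X → ℝ≥0∞) x else 0}

theorem tr_meas {X ι : Type*} [MeasurableSpace X] [Fintype ι] (s : ℝ) {T : ι → Set X}
    (hT : ∀ i, MeasurableSet (T i)) (v : ι → Fin d → ℝ) : MeasurableSet (tr s T v) := by
  classical
  have h1 : tr s T v = ⋂ j, ((T j)ᶜ ∪ {x | mult T x ≤ 2 * ∑ i,
        if s ≤ ‖v i - v j‖ then (T i).indicator (1 : X → ℝ≥0∞) x else 0}) := by
    ext x
    simp only [tr, mem_ofPred_eq, mem_iInter, mem_union, mem_compl_iff]
    constructor
    · intro h j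
      by_cases hx : x ∈ T j
      · right
        have := h j hx
        simpa using this
      · exact Or.inl hx
    · intro h j hx
      rcases h j with h' | h'
      · exact absurd hx h'
      · simpa using h'
  rw [h1]
  refine MeasurableSet.iInter fun j => (hT j).compl.union ?_
  apply measurableSet_le (mult_meas hT)
  apply Measurable.const_mul
  apply Finset.measurable_sum
  intro i _
  by_cases h : s ≤ ‖v i - v j‖
  · simp only [h, if_true]
    exact measurable_one.indicator (hT i)
  · simp only [h, if_false]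
    exact measurable_const

/-- The square of the multiplicity at the transversal points. -/
theorem tr_sq {X ι : Type*} [Fintype ι] {s : ℝ} {T : ι → Set X} {v : ι → Fin d → ℝ} {x : X}
    (hx : x ∈ tr s T v) : mult T x ^ (2 : ℝ) ≤ ∑ j, ∑ i, open Classical in
      if s ≤ ‖v i - v j‖ then 2 * (T i ∩ T j).indicator (1 : X → ℝ≥0∞) x else 0 := by
  classical
  have h1 : mult T x ^ (2 : ℝ) = ∑ j, (T j).indicator (1 : X → ℝ≥0∞) x * mult T x := by
    rw [← Finset.sum_mul, ENNReal.rpow_two, sq]
    rfl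
  rw [h1]
  apply Finset.sum_le_sum
  intro j _
  by_cases hj : x ∈ T j
  · have h2 := hx j hj
    rw [indicator_of_mem hj, Pi.one_apply, one_mul]
    refine h2.trans (le_of_eq ?_)
    rw [Finset.mul_sum]
    refine Finset.sum_congr rfl fun i _ => ?_
    by_cases h : s ≤ ‖v i - v j‖
    · rw [if_pos h, if_pos h]
      by_cases hi : x ∈ T i
      · rw [indicator_of_mem hi, indicator_of_mem (show x ∈ T i ∩ T j from ⟨hi, hj⟩)]
      · rw [indicator_of_notMem hi, indicator_of_notMem (fun h : x ∈ T i ∩ T j => hi h.1)]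
    · rw [if_neg h, if_neg h, mul_zero]
  · rw [indicator_of_notMem hj, zero_mul]
    exact zero_le

/-- The square integral over the transversal points. -/
theorem tr_int {R r s : ℝ} (hr : 0 ≤ r) (hs : 0 < s) {ι : Type} [Fintype ι] (b : ι → ℝ)
    (P v : ι → Fin d → ℝ) :
    ∫⁻ x in tr s (fun i => tb R r (b i) (P i) (v i)) v,
      mult (fun i => tb R r (b i) (P i) (v i)) x ^ (2 : ℝ) ≤
      ENNReal.ofReal (2 * (Fintype.card ι : ℝ) ^ 2 * ((2 * r) ^ d * (4 * r / s))) := by
  classical
  set T : ι → Set (Pt d) := fun i => tb R r (b i) (P i) (v i) with hT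
  have hTm : ∀ i, MeasurableSet (T i) := fun i => tb_meas _ _ _ _ _
  have hterm : ∀ j i, ∫⁻ x : Pt d, (if s ≤ ‖v i - v j‖ then
      2 * (T i ∩ T j).indicator (1 : Pt d → ℝ≥0∞) x else 0) ≤
      ENNReal.ofReal (2 * ((2 * r) ^ d * (4 * r / s))) := by
    intro j i
    by_cases h : s ≤ ‖v i - v j‖
    · simp only [h, if_true]
      rw [lintegral_const_mul _ (measurable_one.indicator ((hTm i).inter (hTm j))),
        lintegral_indicator_one ((hTm i).inter (hTm j)), ENNReal.ofReal_mul (by norm_num)]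
      gcongr
      · simp
      · refine (vol_inter hr (lt_of_lt_of_le hs h)).trans ?_
        apply ENNReal.ofReal_le_ofReal
        gcongr
    · simp only [h, if_false, lintegral_zero]
      exact zero_le
  have hmeas : ∀ j i, Measurable fun x : Pt d => (if s ≤ ‖v i - v j‖ then
      2 * (T i ∩ T j).indicator (1 : Pt d → ℝ≥0∞) x else 0) := by
    intro j i
    by_cases h : s ≤ ‖v i - v j‖
    · simp only [h, if_true]
      exact (measurable_one.indicator ((hTm i).inter (hTm j))).const_mul _
    · simp only [h, if_false]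
      exact measurable_const
  calc ∫⁻ x in tr s T v, mult T x ^ (2 : ℝ)
      ≤ ∫⁻ x in tr s T v, ∑ j, ∑ i, (if s ≤ ‖v i - v j‖ then
        2 * (T i ∩ T j).indicator (1 : Pt d → ℝ≥0∞) x else 0) := by
        apply setLIntegral_mono' (tr_meas s hTm v)
        intro x hx
        exact tr_sq hx
    _ ≤ ∫⁻ x, ∑ j, ∑ i, (if s ≤ ‖v i - v j‖ then
        2 * (T i ∩ T j).indicator (1 : Pt d → ℝ≥0∞) x else 0) := setLIntegral_le_lintegral _ _
    _ = ∑ j, ∑ i, ∫⁻ x, (if s ≤ ‖v i - v j‖ then
        2 * (T i ∩ T j).indicator (1 : Pt d → ℝ≥0∞) x else 0) := by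
        rw [lintegral_finsetSum _ fun j _ => Finset.measurable_sum _ fun i _ => hmeas j i]
        refine Finset.sum_congr rfl fun j _ => ?_
        rw [lintegral_finsetSum _ fun i _ => hmeas j i]
    _ ≤ ∑ _j : ι, ∑ _i : ι, ENNReal.ofReal (2 * ((2 * r) ^ d * (4 * r / s))) :=
        Finset.sum_le_sum fun j _ => Finset.sum_le_sum fun i _ => hterm j i
    _ = _ := by
        rw [Finset.sum_const, Finset.sum_const, Finset.card_univ, nsmul_eq_mul, nsmul_eq_mul,
          ← ENNReal.ofReal_natCast, ← ENNReal.ofReal_mul (by positivity),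
          ← ENNReal.ofReal_mul (by positivity)]
        congr 1
        ring

/-- Outside the transversal points, one cell carries a fixed part of the multiplicity. -/
theorem not_tr {X ι : Type*} [MeasurableSpace X] [Fintype ι] {s : ℝ} (hs : 0 < s) {T : ι → Set X}
    {v : ι → Fin d → ℝ} {x : X} (hx : x ∉ tr s T v) :
    ∃ c ∈ Finset.univ.image (fun i k => ⌊v i k / s⌋),
      mult T x ≤ 2 * 3 ^ d * pmult T (fun i k => ⌊v i k / s⌋) c x := by
  classical
  simp only [tr, mem_ofPred_eq, not_forall, not_le] at hx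
  obtain ⟨j, hj, hlt⟩ := hx
  set κ : ι → Fin d → ℤ := fun i k => ⌊v i k / s⌋ with hκ
  set S : Finset (Fin d → ℤ) := Fintype.piFinset fun c =>
    Finset.Icc (κ j c - 1) (κ j c + 1) with hS
  have hcard : S.card = 3 ^ d := by
    rw [hS, Fintype.card_piFinset]
    have : ∀ c, (Finset.Icc (κ j c - 1) (κ j c + 1)).card = 3 := by
      intro c
      rw [Int.card_Icc]
      omega
    rw [Finset.prod_congr rfl fun c _ => this c]
    simp
  set A : ℝ≥0∞ := ∑ i, if s ≤ ‖v i - v j‖ then (T i).indicator 1 x else 0 with hA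
  set B : ℝ≥0∞ := ∑ i, if s ≤ ‖v i - v j‖ then 0 else (T i).indicator 1 x with hB
  have hsplit : mult T x = A + B := by
    rw [hA, hB]
    unfold mult
    rw [← Finset.sum_add_distrib]
    refine Finset.sum_congr rfl fun i _ => ?_
    split_ifs <;> simp
  have hlt' : 2 * A < A + B := by
    rw [← hsplit]
    exact hlt
  have hAt : A ≠ ∞ := by
    have := mult_ne_top T x
    rw [hsplit] at this
    exact (ENNReal.add_ne_top.1 this).1
  have hAB : A ≤ B := by
    rw [two_mul] at hlt'
    exact ((ENNReal.add_lt_add_iff_left hAt).1 hlt').le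
  have hBS : B ≤ ∑ c ∈ S, pmult T κ c x := by
    have h1 : ∑ c ∈ S, pmult T κ c x = ∑ i, (if κ i ∈ S then (T i).indicator (1 : X → ℝ≥0∞) x
        else 0) := by
      unfold pmult
      rw [Finset.sum_comm]
      refine Finset.sum_congr rfl fun i _ => ?_
      rw [Finset.sum_ite_eq]
    rw [h1, hB]
    apply Finset.sum_le_sum
    intro i _
    by_cases h : s ≤ ‖v i - v j‖
    · rw [if_pos h]; exact zero_le
    · rw [if_neg h, if_pos]
      rw [not_le, norm_sub_rev] at h
      rw [hS, Fintype.mem_piFinset]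
      intro k
      apply floor_near
      rw [← sub_div, abs_div, abs_of_pos hs, div_lt_one hs]
      have := (norm_le_pi_norm (v j - v i) k).trans_lt h
      rwa [Pi.sub_apply, Real.norm_eq_abs] at this
  have hS0 : S.Nonempty := by
    rw [← Finset.card_pos, hcard]
    positivity
  obtain ⟨c, hc, hmax⟩ := Finset.exists_max_image S (fun c => pmult T κ c x) hS0
  have h2 : mult T x ≤ 2 * 3 ^ d * pmult T κ c x := by
    rw [hsplit]
    calc A + B ≤ B + B := by gcongr
      _ = 2 * B := (two_mul B).symm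
      _ ≤ 2 * (S.card • pmult T κ c x) := by
          gcongr
          exact hBS.trans (Finset.sum_le_card_nsmul S _ _ hmax)
      _ = 2 * 3 ^ d * pmult T κ c x := by
          rw [hcard, nsmul_eq_mul, ← mul_assoc]
          push_cast
          rfl
  refine ⟨c, ?_, h2⟩
  by_contra hcI
  have h3 : pmult T κ c x = 0 := by
    unfold pmult
    apply Finset.sum_eq_zero
    intro i _
    rw [if_neg]
    intro hi
    exact hcI (Finset.mem_image.2 ⟨i, Finset.mem_univ _, hi⟩)
  rw [h3, mul_zero] at h2
  have h4 : 1 ≤ mult T x := by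
    unfold mult
    calc (1 : ℝ≥0∞) = (T j).indicator 1 x := by rw [indicator_of_mem hj]; rfl
      _ ≤ _ := Finset.single_le_sum (f := fun i => (T i).indicator (1 : X → ℝ≥0∞) x)
          (fun _ _ => zero_le) (Finset.mem_univ j)
  exact absurd (h4.trans h2) (by simp)

/-- The rescaled form of the key estimate. -/
theorem cell_part (hd : 1 ≤ d) {R q ε C : ℝ} (hR : 1 ≤ R) (hq : 1 + 1 / (d : ℝ) ≤ q) (hC : 0 ≤ C)
    (hε : 0 ≤ ε) (hlo : LoB d R q ε C) {δ s L : ℝ} (hδ : 0 < δ) (hδs : δ < s) (hL : 1 ≤ L)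
    {ι : Type} [Fintype ι] [Nonempty ι] (b : ι → ℝ) (P v : ι → Fin d → ℝ)
    (hvv : ∀ i j, ‖v i - v j‖ ≤ s) (hs : Sep δ v) (hM : (s / δ) ^ d ≤ L * Fintype.card ι) :
    ∫⁻ x in {x | ENNReal.ofReal (Fintype.card ι / L) ≤
        mult (fun i => tb R (R * δ) (b i) (P i) (v i)) x},
      mult (fun i => tb R (R * δ) (b i) (P i) (v i)) x ^ q ≤
      ENNReal.ofReal (8 * C * ((41088 * R * L ^ 7) ^ ε * (δ ^ d *
        (2 * (Fintype.card ι : ℝ)) ^ (q - 1 / (d : ℝ))))) := by
  classical
  have hs0 : 0 < s := by linarith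
  obtain ⟨i0⟩ : Nonempty ι := inferInstance
  set v0 : Fin d → ℝ := v i0 with hv0
  set T : ι → Set (Pt d) := fun i => tb R (R * δ) (b i) (P i) (v i) with hT
  have hTm : ∀ i, MeasurableSet (T i) := fun i => tb_meas _ _ _ _ _
  set v' : ι → Fin d → ℝ := fun i => s⁻¹ • (v i - v0) with hv'
  set P' : ι → Fin d → ℝ := fun i => s⁻¹ • P i with hP'
  set T' : ι → Set (Pt d) := fun i => tb R (R * (δ / s)) (b i) (P' i) (v' i) with hT'
  have hTm' : ∀ i, MeasurableSet (T' i) := fun i => tb_meas _ _ _ _ _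
  set φ : Pt d → Pt d := fun z => (z.1, s⁻¹ • (z.2 - z.1 • v0)) with hφ
  have hmem : ∀ i z, z ∈ T i ↔ φ z ∈ T' i := by
    intro i z
    have h1 : s⁻¹ • (z.2 - z.1 • v0) - P' i - z.1 • v' i = s⁻¹ • (z.2 - P i - z.1 • v i) := by
      rw [hP', hv']
      dsimp only
      rw [smul_comm z.1 s⁻¹ (v i - v0), ← smul_sub, ← smul_sub, smul_sub z.1]
      congr 1
      abel
    have h2 : ‖s⁻¹ • (z.2 - z.1 • v0) - P' i - z.1 • v' i‖ = s⁻¹ * ‖z.2 - P i - z.1 • v i‖ := by
      rw [h1, norm_smul, norm_inv, Real.norm_eq_abs, abs_of_pos hs0]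
    have h3 : R * (δ / s) = s⁻¹ * (R * δ) := by ring
    constructor
    · intro h
      refine ⟨h.1, ?_⟩
      change ‖s⁻¹ • (z.2 - z.1 • v0) - P' i - z.1 • v' i‖ ≤ R * (δ / s)
      rw [h2, h3]
      have := h.2
      gcongr
    · intro h
      refine ⟨h.1, ?_⟩
      have h4 : ‖s⁻¹ • (z.2 - z.1 • v0) - P' i - z.1 • v' i‖ ≤ R * (δ / s) := h.2
      rw [h2, h3] at h4
      exact le_of_mul_le_mul_left h4 (by positivity)
  have hmult : ∀ z, mult T z = mult T' (φ z) := by
    intro z
    unfold mult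
    refine Finset.sum_congr rfl fun i _ => ?_
    by_cases h : z ∈ T i
    · rw [indicator_of_mem h, indicator_of_mem ((hmem i z).1 h)]; rfl
    · rw [indicator_of_notMem h, indicator_of_notMem (fun hh => h ((hmem i z).2 hh))]
  set S' : Set (Pt d) := {x | ENNReal.ofReal (Fintype.card ι / L) ≤ mult T' x} with hS'
  have hS'm : MeasurableSet S' := measurableSet_le measurable_const (mult_meas hTm')
  have hSm : MeasurableSet {x | ENNReal.ofReal (Fintype.card ι / L) ≤ mult T x} :=
    measurableSet_le measurable_const (mult_meas hTm)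
  have h1 : ∫⁻ x in {x | ENNReal.ofReal (Fintype.card ι / L) ≤ mult T x}, mult T x ^ q =
      ∫⁻ z : Pt d, (S'.indicator (fun x => mult T' x ^ q)) (z.1, s⁻¹ • (z.2 - z.1 • v0)) := by
    rw [← lintegral_indicator hSm]
    apply lintegral_congr
    intro z
    by_cases hz : z ∈ {x | ENNReal.ofReal (Fintype.card ι / L) ≤ mult T x}
    · have hz' : φ z ∈ S' := by
        change ENNReal.ofReal (Fintype.card ι / L) ≤ mult T' (φ z)
        rw [← hmult]
        exact hz
      rw [indicator_of_mem hz]
      change _ = S'.indicator (fun x => mult T' x ^ q) (φ z)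
      rw [indicator_of_mem hz', hmult]
    · have hz' : φ z ∉ S' := by
        intro h
        apply hz
        change ENNReal.ofReal (Fintype.card ι / L) ≤ mult T z
        rw [hmult]
        exact h
      rw [indicator_of_notMem hz]
      change _ = S'.indicator (fun x => mult T' x ^ q) (φ z)
      rw [indicator_of_notMem hz']
  rw [h1, lint_aniso hs0 v0 (((mult_meas hTm').pow_const q).indicator hS'm),
    lintegral_indicator hS'm]
  have hδ' : 0 < δ / s := by positivity
  have hδ'1 : δ / s < 1 := by rw [div_lt_one hs0]; exact hδs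
  have h2 := key hd hR hq hC hε hlo hδ' hδ'1 hL b P' v' (by
    intro i
    rw [hv']
    dsimp only
    rw [norm_smul, norm_inv, Real.norm_eq_abs, abs_of_pos hs0, inv_mul_le_iff₀ hs0, mul_one]
    exact hvv i i0) (by
    intro i j hij
    rw [hv']
    dsimp only
    rw [← smul_sub, sub_sub_sub_cancel_right, norm_smul, norm_inv, Real.norm_eq_abs,
      abs_of_pos hs0, div_le_iff₀ hs0]
    have := hs i j hij
    field_simp
    exact this) (by
    rw [one_div_div]
    exact hM)
  refine (mul_le_mul_right h2 _).trans ?_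
  rw [← ENNReal.ofReal_mul (by positivity)]
  apply ENNReal.ofReal_le_ofReal
  apply le_of_eq
  rw [div_pow]
  field_simp

end Pool.Agent.Y254.EL
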