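import Pool.Agent.Y254.EL.Dual3

/-!
# The Kakeya maximal function conjecture and estimates without loss below the critical exponent

For every `n ≥ 3`: the estimate of the problem in dimension `n` (on `L^n`, with the factor
`δ ^ (-ε)` for every `ε > 0`) holds if and only if for every `1 < p < n` the sharp estimate on
`L^p`, `‖f*_δ‖_p ≤ C δ ^ (1 - n / p) ‖f‖_p`, holds without any further loss, together with its
weak type form `L^p → L^(q, ∞)`, `q = (n - 1) p / (p - 1)`.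
-/

set_option autoImplicit false

open MeasureTheory
open scoped ENNReal

namespace Pool.Agent.Y254.EL.MX

/-- The closed cylinder of length `1` and radius `δ` with centre `a` and axis direction `e`. -/
def tube {n : ℕ} (δ : ℝ) (a e : EuclideanSpace ℝ (Fin n)) : Set (EuclideanSpace ℝ (Fin n)) :=
  {y | |inner ℝ (y - a) e| ≤ 1 / 2 ∧ ‖(y - a) - (inner ℝ (y - a) e) • e‖ ≤ δ}

/-- The Kakeya maximal function. -/
noncomputable def kakeyaMax {n : ℕ} (δ : ℝ) (f : EuclideanSpace ℝ (Fin n) → ℝ)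
    (e : EuclideanSpace ℝ (Fin n)) : ℝ≥0∞ :=
  ⨆ a : EuclideanSpace ℝ (Fin n), (volume (tube δ a e))⁻¹ * ∫⁻ y in tube δ a e, ‖f y‖ₑ

/-- Surface measure of the unit sphere. -/
noncomputable abbrev surf (n : ℕ) : Measure (Metric.sphere (0 : EuclideanSpace ℝ (Fin n)) 1) :=
  (volume : Measure (EuclideanSpace ℝ (Fin n))).toSphere

theorem pow_form {x y : ℝ≥0∞} {p K : ℝ} (hp : 0 < p) (hK : 0 ≤ K) :
    x ^ (1 / p) ≤ ENNReal.ofReal K * y ^ (1 / p) ↔ x ≤ ENNReal.ofReal (K ^ p) * y := by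
  have e1 : ∀ z : ℝ≥0∞, (z ^ (1 / p)) ^ p = z := by
    intro z
    rw [← ENNReal.rpow_mul, one_div, inv_mul_cancel₀ hp.ne', ENNReal.rpow_one]
  have e2 : ∀ z : ℝ≥0∞, (z ^ p) ^ (1 / p) = z := by
    intro z
    rw [← ENNReal.rpow_mul, one_div, mul_inv_cancel₀ hp.ne', ENNReal.rpow_one]
  constructor
  · intro h
    have h1 := ENNReal.rpow_le_rpow h hp.le
    rw [ENNReal.mul_rpow_of_nonneg _ _ hp.le, e1, e1, ENNReal.ofReal_rpow_of_nonneg hK hp.le] at h1
    exact h1
  · intro h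
    have h1 := ENNReal.rpow_le_rpow h (by positivity : 0 ≤ 1 / p)
    rw [ENNReal.mul_rpow_of_nonneg _ _ (by positivity), ← ENNReal.ofReal_rpow_of_nonneg hK hp.le,
      e2] at h1
    exact h1

theorem main (n : ℕ) (hn : 3 ≤ n) :
    (∀ ε : ℝ, 0 < ε → ∃ C : ℝ, 0 < C ∧ ∀ δ : ℝ, 0 < δ → δ < 1 →
      ∀ f : EuclideanSpace ℝ (Fin n) → ℝ, AEMeasurable f volume →
        (∫⁻ e, kakeyaMax δ f e ^ (n : ℝ) ∂(surf n)) ^ (1 / (n : ℝ)) ≤
          ENNReal.ofReal (C * δ ^ (-ε)) * (∫⁻ y, ‖f y‖ₑ ^ (n : ℝ)) ^ (1 / (n : ℝ))) ↔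
    (∀ p q : ℝ, 1 < p → p < n → q = ((n : ℝ) - 1) * p / (p - 1) →
      ∃ C : ℝ, 0 < C ∧ ∀ δ : ℝ, 0 < δ → δ < 1 →
      ∀ f : EuclideanSpace ℝ (Fin n) → ℝ, AEMeasurable f volume →
        ((∫⁻ e, kakeyaMax δ f e ^ p ∂(surf n)) ^ (1 / p) ≤
          ENNReal.ofReal (C * δ ^ (-((n : ℝ) / p - 1))) * (∫⁻ y, ‖f y‖ₑ ^ p) ^ (1 / p)) ∧
        (∀ l : ℝ, 0 < l → surf n {e | ENNReal.ofReal l < kakeyaMax δ f e} ≤
          ENNReal.ofReal (C * (δ ^ (-((n : ℝ) / p - 1)) / l) ^ q) *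
            (∫⁻ y, ‖f y‖ₑ ^ p) ^ (q / p))) := by
  obtain ⟨d, rfl⟩ : ∃ d, n = d + 1 := ⟨n - 1, by omega⟩
  have hd : 2 ≤ d := by omega
  have e1 : (((d + 1 : ℕ) : ℝ) - 1) = d := by push_cast; ring
  have e0 : ((d + 1 : ℕ) : ℝ) = (d : ℝ) + 1 := by push_cast; ring
  have hd2 : (2 : ℝ) ≤ d := by exact_mod_cast hd
  have hd0 : (0 : ℝ) < d := by linarith
  have hd1 : (0 : ℝ) < (d : ℝ) + 1 := by linarith
  rw [e1, e0]
  constructor
  · intro h p q hp1 hpn hq
    have hp0 : 0 < p := by linarith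
    have hp1' : 0 < p - 1 := by linarith
    obtain ⟨c, hc⟩ : ∃ c : ℝ, c = (d : ℝ) / (p - 1) := ⟨_, rfl⟩
    have hc0 : 0 < c := by rw [hc]; positivity
    have hc1 : 1 < c := by
      rw [hc, lt_div_iff₀ hp1']
      linarith
    have hpc : p = 1 + (d : ℝ) / c := by
      rw [hc]
      field_simp
      ring
    have hqc : q = c * p := by rw [hq, hc]; ring
    have hqp : q / p = c := by rw [hqc]; field_simp
    have hcpd : c * p = (d : ℝ) + c := by
      rw [hpc]
      field_simp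
      ring
    have hKM : ∀ ε : ℝ, 0 < ε → ∃ C : ℝ, 0 ≤ C ∧ Pool.Agent.Y254.EL.KM d ε C := by
      intro ε hε
      obtain ⟨C, hC, hH⟩ := h (ε / ((d : ℝ) + 1)) (by positivity)
      refine ⟨C ^ ((d : ℝ) + 1), by positivity, ?_⟩
      intro δ hδ hδ1 f hf hft
      have h1 := (pow_form hd1 (by positivity)).1
        (hH δ hδ hδ1 (fun y => (f y).toReal) hf.ennreal_toReal.aemeasurable)
      have e3 : ∀ y, ‖(f y).toReal‖ₑ = f y := by
        intro y
        rw [Real.enorm_of_nonneg ENNReal.toReal_nonneg, ENNReal.ofReal_toReal (hft y)]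
      unfold kakeyaMax at h1
      simp only [e3] at h1
      refine h1.trans (le_of_eq ?_)
      congr 2
      rw [Real.mul_rpow hC.le (by positivity), ← Real.rpow_mul hδ.le]
      congr 2
      field_simp
    obtain ⟨⟨C2, hC2, h2⟩, ⟨C1, hC1, h1⟩⟩ := Pool.Agent.Y254.EL.sub_of_crit hd hKM hc1
    rw [← hpc] at h1 h2
    refine ⟨C1 ^ (1 / p) + C2, by positivity, ?_⟩
    intro δ hδ hδ1 f hf
    refine ⟨?_, ?_⟩
    · rw [pow_form hp0 (by positivity)]
      refine (h1 δ hδ hδ1 (fun y => ‖f y‖ₑ) hf.enorm).trans (mul_le_mul_left ?_ _)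
      apply ENNReal.ofReal_le_ofReal
      have e3 : C1 * δ ^ (-((d : ℝ) - (d : ℝ) / c)) =
          (C1 ^ (1 / p) * δ ^ (-(((d : ℝ) + 1) / p - 1))) ^ p := by
        rw [Real.mul_rpow (by positivity) (by positivity), ← Real.rpow_mul hC1.le,
          ← Real.rpow_mul hδ.le, one_div, inv_mul_cancel₀ hp0.ne', Real.rpow_one]
        congr 2
        have h5 : (((d : ℝ) + 1) / p - 1) * p = (d : ℝ) + 1 - p := by field_simp
        have h6 : -(((d : ℝ) + 1) / p - 1) * p = -((((d : ℝ) + 1) / p - 1) * p) := by ring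
        rw [h6, h5, hpc]
        ring
      rw [e3]
      have h7 := Real.rpow_pos_of_pos hδ (-(((d : ℝ) + 1) / p - 1))
      gcongr
      linarith
    · intro l hl
      rw [hqp]
      refine (h2 δ hδ hδ1 (fun y => ‖f y‖ₑ) hf.enorm l hl).trans (mul_le_mul_left ?_ _)
      apply ENNReal.ofReal_le_ofReal
      have e4 : (δ ^ (-(((d : ℝ) + 1) / p - 1)) / l) ^ q =
          δ ^ (-((c - 1) * (d : ℝ))) * l ^ (-((d : ℝ) + c)) := by
        rw [Real.div_rpow (by positivity) hl.le, ← Real.rpow_mul hδ.le, Real.rpow_neg hl.le,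
          hqc, hcpd, div_eq_mul_inv]
        congr 2
        have : (((d : ℝ) + 1) / p - 1) * ((d : ℝ) + c) = (c - 1) * d := by
          rw [← hcpd]
          have h5 : (((d : ℝ) + 1) / p - 1) * (c * p) = c * ((d : ℝ) + 1) - c * p := by
            field_simp
          rw [h5, hcpd]
          ring
        rw [← this]
        ring
      rw [e4]
      have h3 := Real.rpow_pos_of_pos hδ (-((c - 1) * (d : ℝ)))
      have h4 := Real.rpow_pos_of_pos hl (-((d : ℝ) + c))
      have h5 := mul_pos h3 h4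
      have h6 : 0 ≤ C1 ^ (1 / p) := by positivity
      nlinarith
  · intro h ε hε
    -- an exponent `p = 1 + d / c` with a loss of at most `ε`
    set c : ℝ := 1 + ε with hc
    have hc1 : 1 < c := by linarith
    have hc0 : 0 < c := by linarith
    set p : ℝ := 1 + (d : ℝ) / c with hp
    have hp1 : 1 < p := by
      have : 0 < (d : ℝ) / c := by positivity
      linarith
    have hp0 : 0 < p := by linarith
    have hpn : p < (d : ℝ) + 1 := by
      have : (d : ℝ) / c < d := div_lt_self hd0 hc1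
      rw [hp]
      linarith
    obtain ⟨C, hC, hH⟩ := h p (d * p / (p - 1)) hp1 hpn rfl
    refine ⟨(C ^ p) ^ (1 / ((d : ℝ) + 1)), by positivity, ?_⟩
    intro δ hδ hδ1 f hf
    rw [pow_form hd1 (by positivity)]
    have hsub : ∀ g : EuclideanSpace ℝ (Fin (d + 1)) → ℝ≥0∞, AEMeasurable g volume →
        (∀ x, g x ≠ ∞) → ∫⁻ e : Metric.sphere (0 : EuclideanSpace ℝ (Fin (d + 1))) 1,
          Pool.Agent.W46.HM.kmax δ g e ^ (1 + (d : ℝ) / c) ∂(Pool.Agent.Y254.EL.sg d) ≤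
        ENNReal.ofReal (C ^ p * δ ^ (-((d : ℝ) - (d : ℝ) / c))) *
          ∫⁻ y, g y ^ (1 + (d : ℝ) / c) := by
      intro g hg hgt
      have h1 := (pow_form hp0 (by positivity)).1
        (hH δ hδ hδ1 (fun y => (g y).toReal) hg.ennreal_toReal).1
      have e3 : ∀ y, ‖(g y).toReal‖ₑ = g y := by
        intro y
        rw [Real.enorm_of_nonneg ENNReal.toReal_nonneg, ENNReal.ofReal_toReal (hgt y)]
      unfold kakeyaMax at h1
      simp only [e3] at h1
      refine h1.trans (le_of_eq ?_)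
      congr 2
      rw [Real.mul_rpow hC.le (by positivity), ← Real.rpow_mul hδ.le]
      congr 2
      have h5 : (((d : ℝ) + 1) / p - 1) * p = (d : ℝ) + 1 - p := by field_simp
      have h6 : -(((d : ℝ) + 1) / p - 1) * p = -((((d : ℝ) + 1) / p - 1) * p) := by ring
      rw [h6, h5, hp]
      ring
    refine (Pool.Agent.Y254.EL.crit_of_sub hc1 (by omega) hδ hδ1 hsub (fun y => ‖f y‖ₑ)
      hf.enorm (fun x => enorm_ne_top)).trans (mul_le_mul_left ?_ _)
    apply ENNReal.ofReal_le_ofReal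
    rw [Real.mul_rpow (by positivity) (by positivity), ← Real.rpow_mul (by positivity),
      ← Real.rpow_mul hδ.le, one_div, inv_mul_cancel₀ hd1.ne', Real.rpow_one]
    have h8 : δ ^ (-((d : ℝ) - (d : ℝ) / c)) ≤ δ ^ (-ε * ((d : ℝ) + 1)) := by
      apply Real.rpow_le_rpow_of_exponent_ge hδ hδ1.le
      have h9 : (d : ℝ) - (d : ℝ) / c = d * ε / c := by
        rw [hc]
        field_simp
        ring
      rw [h9]
      have h10 : (d : ℝ) * ε / c ≤ d * ε := div_le_self (by positivity) hc1.le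
      nlinarith
    gcongr

end Pool.Agent.Y254.EL.MX
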