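import Pool.Agent.Y254.EL.Lev
set_option autoImplicit false

/-!
# Removal of the loss: the levels and their sum
-/

open MeasureTheory Set Metric
open scoped ENNReal NNReal

namespace Pool.Agent.Y254.EL
open Pool.Agent.Y254 (mult mult_meas mult_le mult_ne_top mult_zero_or pmult pmult_eq sum_card_parts
  floor_near)

variable {d : ℕ}

/-- The scale-invariant inequality without a loss. -/
def LF (d : ℕ) (R q C : ℝ) : Prop := ∀ δ : ℝ, 0 < δ → δ < 1 → ∀ {ι : Type} [Fintype ι]
    (b : ι → ℝ) (P v : ι → Fin d → ℝ), (∀ i, ‖v i‖ ≤ 1) → Sep δ v →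
    ∫⁻ x, mult (fun i => tb R (R * δ) (b i) (P i) (v i)) x ^ q ≤
      ENNReal.ofReal (C * (δ ^ d * (Fintype.card ι : ℝ) ^ (q - 1 / (d : ℝ))))

/-- One level. -/
theorem level (hd : 1 ≤ d) {R q0 q ε C : ℝ} (hR : 1 ≤ R) (hq0 : 1 + 1 / (d : ℝ) ≤ q0) (hq : q0 < q)
    (hq2 : q ≤ 2) (hC : 0 ≤ C) (hε : 0 ≤ ε) (hlo : LoB d R q0 ε C) {δ K s L : ℝ} (hδ : 0 < δ)
    (hK : 1 ≤ K) {ι : Type} [Fintype ι] [Nonempty ι] (b : ι → ℝ) (P v : ι → Fin d → ℝ)
    (hsep : Sep δ v) (hs : s = 2 * (δ * ((Fintype.card ι : ℝ) ^ (1 / (d : ℝ)) * K)))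
    (hL : L = 4 * 6 ^ d * K ^ (d + 1)) :
    ∫⁻ x in {x | ENNReal.ofReal (Fintype.card ι / (2 * K)) ≤
        mult (fun i => tb R (R * δ) (b i) (P i) (v i)) x ∧
        mult (fun i => tb R (R * δ) (b i) (P i) (v i)) x ≤ ENNReal.ofReal (Fintype.card ι / K)},
      mult (fun i => tb R (R * δ) (b i) (P i) (v i)) x ^ q ≤
    ENNReal.ofReal ((Fintype.card ι / (2 * K)) ^ (q - 2) *
      (2 * (Fintype.card ι : ℝ) ^ 2 * ((2 * (R * δ)) ^ d * (4 * (R * δ) / s)))) +
    ENNReal.ofReal ((Fintype.card ι / K) ^ (q - q0) * (2 * 3 ^ d) ^ q0 *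
      (8 * C * ((41088 * R * L ^ 7) ^ ε * (δ ^ d *
        (2 * (Fintype.card ι : ℝ)) ^ (q0 - 1 / (d : ℝ)))))) := by
  classical
  set N : ℝ := (Fintype.card ι : ℝ) with hN
  have hN1 : 1 ≤ N := by
    rw [hN]
    exact_mod_cast Fintype.card_pos
  have hN0 : 0 < N := by linarith
  have hK0 : 0 < K := by linarith
  have hd0 : (0 : ℝ) < d := by exact_mod_cast hd
  have hp0 : 0 < 1 / (d : ℝ) := by positivity
  have hq00 : 0 < q0 := by linarith
  have hqp : 0 < q := by linarith
  have hβ : 1 ≤ q0 - 1 / (d : ℝ) := by linarith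
  have hR0 : 0 < R := by linarith
  have hs0 : 0 < s := by rw [hs]; positivity
  have hNp : 1 ≤ N ^ (1 / (d : ℝ)) := Real.one_le_rpow hN1 hp0.le
  have hδs : δ < s := by
    rw [hs]
    have : 1 ≤ N ^ (1 / (d : ℝ)) * K := by nlinarith
    nlinarith
  have hKd : 1 ≤ K ^ (d + 1) := one_le_pow₀ hK
  have hL1 : 1 ≤ L := by
    rw [hL]
    have : (1 : ℝ) ≤ 6 ^ d := one_le_pow₀ (by norm_num)
    nlinarith
  have hL0 : 0 < L := by linarith
  set T : ι → Set (Pt d) := fun i => tb R (R * δ) (b i) (P i) (v i) with hT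
  have hTm : ∀ i, MeasurableSet (T i) := fun i => tb_meas _ _ _ _ _
  set κ : ι → Fin d → ℤ := fun i k => ⌊v i k / s⌋ with hκ
  set thr : ℝ := N / (4 * 3 ^ d * K) with hthr
  have hthr0 : 0 < thr := by positivity
  set Bc : (Fin d → ℤ) → Set (Pt d) := fun c => {x | ENNReal.ofReal thr ≤ pmult T κ c x} with hBc
  have hpm : ∀ c, Measurable fun x => pmult T κ c x := by
    intro c
    simp only [pmult_eq]
    exact mult_meas fun i => tb_meas _ _ _ _ _
  have hBm : ∀ c, MeasurableSet (Bc c) := fun c => measurableSet_le measurable_const (hpm c)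
  set n : (Fin d → ℤ) → ℝ := fun c => (Fintype.card {i // κ i = c} : ℝ) with hn
  have hn0 : ∀ c, 0 ≤ n c := fun c => by positivity
  have hnN : ∀ c, n c ≤ N := by
    intro c
    rw [hn, hN]
    dsimp only
    exact_mod_cast Fintype.card_subtype_le _
  have hcell : ∀ c, ∫⁻ x in Bc c, pmult T κ c x ^ q0 ≤
      ENNReal.ofReal (8 * C * ((41088 * R * L ^ 7) ^ ε * (δ ^ d *
        (2 * n c) ^ (q0 - 1 / (d : ℝ))))) := by
    intro c
    rcases lt_or_ge (n c) thr with hlt | hge
    · have hemp : Bc c = ∅ := by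
        ext x
        simp only [hBc, mem_ofPred_eq, mem_empty_iff_false, iff_false, not_le]
        rw [pmult_eq]
        refine lt_of_le_of_lt (mult_le _ _) ?_
        rw [← ENNReal.ofReal_natCast]
        exact (ENNReal.ofReal_lt_ofReal_iff hthr0).2 hlt
      rw [hemp]
      simp
    · have hnc0 : 0 < n c := by linarith
      have hne : Nonempty {i // κ i = c} := by
        rw [← Fintype.card_pos_iff]
        have : (0 : ℝ) < (Fintype.card {i // κ i = c} : ℝ) := hnc0
        exact_mod_cast this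
      have h1 : Bc c ⊆ {x | ENNReal.ofReal ((Fintype.card {i // κ i = c} : ℝ) / L) ≤
          mult (fun i : {i // κ i = c} => tb R (R * δ) (b i) (P i) (v i)) x} := by
        intro x hx
        simp only [hBc, mem_ofPred_eq] at hx
        rw [pmult_eq] at hx
        refine le_trans ?_ hx
        apply ENNReal.ofReal_le_ofReal
        calc (Fintype.card {i // κ i = c} : ℝ) / L ≤ N / L := by
              gcongr
              exact hnN c
          _ ≤ thr := by
              rw [hthr]
              gcongr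
              rw [hL]
              have e1 : (3 : ℝ) ^ d ≤ 6 ^ d := by gcongr; norm_num
              have e2 : K ≤ K ^ (d + 1) := by
                calc K = K ^ 1 := (pow_one K).symm
                  _ ≤ _ := pow_le_pow_right₀ hK (by omega)
              gcongr
      simp only [pmult_eq]
      refine (lintegral_mono_set h1).trans ?_
      refine cell_part hd hR hq0 hC hε hlo hδ hδs hL1 (fun i : {i // κ i = c} => b i)
        (fun i : {i // κ i = c} => P i) (fun i : {i // κ i = c} => v i) ?_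
        (fun i j hij => hsep i j fun h => hij (Subtype.ext h)) ?_
      · intro i j
        rw [pi_norm_le_iff_of_nonneg hs0.le]
        intro k
        have h4 : ⌊v i k / s⌋ = ⌊v j k / s⌋ := congrFun (i.2.trans j.2.symm) k
        have h5 := Int.abs_sub_lt_one_of_floor_eq_floor h4
        rw [Pi.sub_apply, Real.norm_eq_abs]
        have h6 : v i k - v j k = (v i k / s - v j k / s) * s := by field_simp
        rw [h6, abs_mul, abs_of_pos hs0]
        nlinarith
      · have e1 : s / δ = 2 * K * N ^ (1 / (d : ℝ)) := by rw [hs]; field_simp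
        have e2 : (N ^ (1 / (d : ℝ))) ^ d = N := by
          rw [← Real.rpow_natCast, ← Real.rpow_mul hN0.le, one_div, inv_mul_cancel₀ hd0.ne',
            Real.rpow_one]
        rw [e1, mul_pow, e2]
        have e3 : N = 4 * 3 ^ d * K * thr := by rw [hthr]; field_simp
        calc (2 * K) ^ d * N = (2 * K) ^ d * (4 * 3 ^ d * K * thr) := by rw [← e3]
          _ ≤ (2 * K) ^ d * (4 * 3 ^ d * K * n c) := by gcongr
          _ = L * n c := by
              rw [hL, mul_pow, pow_succ]
              have : (6 : ℝ) ^ d = 2 ^ d * 3 ^ d := by rw [← mul_pow]; norm_num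
              rw [this]
              ring
  set A : Set (Pt d) := {x | ENNReal.ofReal (N / (2 * K)) ≤ mult T x ∧
      mult T x ≤ ENNReal.ofReal (N / K)} with hA
  have hAm : MeasurableSet A := (measurableSet_le measurable_const (mult_meas hTm)).inter
    (measurableSet_le (mult_meas hTm) measurable_const)
  set c1 : ℝ≥0∞ := ENNReal.ofReal ((N / (2 * K)) ^ (q - 2)) with hc1
  set c2 : ℝ≥0∞ := ENNReal.ofReal ((N / K) ^ (q - q0) * (2 * 3 ^ d) ^ q0) with hc2
  have hpt : ∀ x ∈ A, mult T x ^ q ≤ (tr s T v).indicator (fun x => c1 * mult T x ^ (2 : ℝ)) x +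
      c2 * ∑ c ∈ Finset.univ.image κ, (Bc c).indicator (fun x => pmult T κ c x ^ q0) x := by
    intro x hx
    by_cases htr : x ∈ tr s T v
    · rw [indicator_of_mem htr]
      refine le_trans ?_ le_self_add
      have hpos : mult T x ≠ 0 := by
        intro h
        have := hx.1
        rw [h, nonpos_iff_eq_zero, ENNReal.ofReal_eq_zero] at this
        have h' : 0 < N / (2 * K) := by positivity
        linarith
      calc mult T x ^ q = mult T x ^ (q - 2) * mult T x ^ (2 : ℝ) := by
            rw [← ENNReal.rpow_add _ _ hpos (mult_ne_top T x)]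
            congr 1
            ring
        _ ≤ c1 * mult T x ^ (2 : ℝ) := by
            gcongr
            rw [hc1, ← ENNReal.ofReal_rpow_of_pos (by positivity)]
            have e1 : q - 2 = -(2 - q) := by ring
            rw [e1, ENNReal.rpow_neg, ENNReal.rpow_neg, ENNReal.inv_le_inv]
            exact ENNReal.rpow_le_rpow hx.1 (by linarith)
    · rw [indicator_of_notMem htr, zero_add]
      obtain ⟨c, hc, hle⟩ := not_tr hs0 htr
      have hcB : x ∈ Bc c := by
        change ENNReal.ofReal thr ≤ pmult T κ c x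
        have h1 : ENNReal.ofReal (N / (2 * K)) ≤ ENNReal.ofReal (2 * 3 ^ d) * pmult T κ c x := by
          refine hx.1.trans (hle.trans (le_of_eq ?_))
          have e1 : ENNReal.ofReal (2 * 3 ^ d) = 2 * 3 ^ d := by
            rw [ENNReal.ofReal_mul (by norm_num), ENNReal.ofReal_pow (by norm_num)]
            norm_num
          rw [e1]
        have h2 : N / (2 * K) = (2 * 3 ^ d) * thr := by rw [hthr]; field_simp; ring
        rw [h2, ENNReal.ofReal_mul (by positivity)] at h1
        exact (ENNReal.mul_le_mul_iff_right (by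
          rw [Ne, ENNReal.ofReal_eq_zero, not_le]; positivity) ENNReal.ofReal_ne_top).1 h1
      have h3 : pmult T κ c x ^ q0 ≤
          ∑ c ∈ Finset.univ.image κ, (Bc c).indicator (fun x => pmult T κ c x ^ q0) x := by
        calc pmult T κ c x ^ q0 = (Bc c).indicator (fun x => pmult T κ c x ^ q0) x := by
              rw [indicator_of_mem hcB]
          _ ≤ _ := Finset.single_le_sum
              (f := fun c => (Bc c).indicator (fun x => pmult T κ c x ^ q0) x)
              (fun _ _ => zero_le) hc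
      calc mult T x ^ q = mult T x ^ (q - q0) * mult T x ^ q0 := by
            rw [← ENNReal.rpow_add_of_nonneg _ _ (by linarith) hq00.le]
            congr 1
            ring
        _ ≤ ENNReal.ofReal ((N / K) ^ (q - q0)) *
            (ENNReal.ofReal ((2 * 3 ^ d) ^ q0) * pmult T κ c x ^ q0) := by
            gcongr ?_ * ?_
            · rw [← ENNReal.ofReal_rpow_of_nonneg (by positivity) (by linarith)]
              exact ENNReal.rpow_le_rpow hx.2 (by linarith)
            · rw [← ENNReal.ofReal_rpow_of_nonneg (by positivity) hq00.le,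
                ← ENNReal.mul_rpow_of_nonneg _ _ hq00.le]
              apply ENNReal.rpow_le_rpow _ hq00.le
              refine hle.trans (le_of_eq ?_)
              have e1 : ENNReal.ofReal (2 * 3 ^ d) = 2 * 3 ^ d := by
                rw [ENNReal.ofReal_mul (by norm_num), ENNReal.ofReal_pow (by norm_num)]
                norm_num
              rw [e1]
        _ = c2 * pmult T κ c x ^ q0 := by
            rw [hc2, ← mul_assoc, ← ENNReal.ofReal_mul (by positivity)]
        _ ≤ _ := by gcongr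
  have hm1 : Measurable ((tr s T v).indicator (fun x => c1 * mult T x ^ (2 : ℝ))) :=
    (((mult_meas hTm).pow_const _).const_mul _).indicator (tr_meas s hTm v)
  have hm2 : ∀ c, Measurable ((Bc c).indicator (fun x => pmult T κ c x ^ q0)) := fun c =>
    ((hpm c).pow_const _).indicator (hBm c)
  calc ∫⁻ x in A, mult T x ^ q
      ≤ ∫⁻ x in A, ((tr s T v).indicator (fun x => c1 * mult T x ^ (2 : ℝ)) x +
      c2 * ∑ c ∈ Finset.univ.image κ, (Bc c).indicator (fun x => pmult T κ c x ^ q0) x) :=
        setLIntegral_mono' hAm hpt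
    _ ≤ ∫⁻ x, ((tr s T v).indicator (fun x => c1 * mult T x ^ (2 : ℝ)) x +
      c2 * ∑ c ∈ Finset.univ.image κ, (Bc c).indicator (fun x => pmult T κ c x ^ q0) x) :=
        setLIntegral_le_lintegral _ _
    _ = c1 * (∫⁻ x in tr s T v, mult T x ^ (2 : ℝ)) +
        c2 * ∑ c ∈ Finset.univ.image κ, ∫⁻ x in Bc c, pmult T κ c x ^ q0 := by
        rw [lintegral_add_left hm1, lintegral_indicator (tr_meas s hTm v),
          lintegral_const_mul _ ((mult_meas hTm).pow_const _),
          lintegral_const_mul _ (Finset.measurable_sum _ fun c _ => hm2 c),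
          lintegral_finsetSum _ fun c _ => hm2 c]
        have e1 : ∑ c ∈ Finset.univ.image κ,
            ∫⁻ x, (Bc c).indicator (fun x => pmult T κ c x ^ q0) x =
            ∑ c ∈ Finset.univ.image κ, ∫⁻ x in Bc c, pmult T κ c x ^ q0 :=
          Finset.sum_congr rfl fun c _ => lintegral_indicator (hBm c) _
        rw [e1]
    _ ≤ c1 * ENNReal.ofReal (2 * N ^ 2 * ((2 * (R * δ)) ^ d * (4 * (R * δ) / s))) +
        c2 * ∑ c ∈ Finset.univ.image κ, ENNReal.ofReal (8 * C * ((41088 * R * L ^ 7) ^ ε * (δ ^ d *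
        (2 * n c) ^ (q0 - 1 / (d : ℝ))))) := by
        refine add_le_add (mul_le_mul_right ?_ _) (mul_le_mul_right ?_ _)
        · exact tr_int (by positivity) hs0 b P v
        · exact Finset.sum_le_sum fun c _ => hcell c
    _ ≤ _ := by
        rw [hc1, hc2, ← ENNReal.ofReal_mul (by positivity),
          ← ENNReal.ofReal_sum_of_nonneg (fun c _ => by positivity),
          ← ENNReal.ofReal_mul (by positivity)]
        gcongr
        rw [← Finset.mul_sum, ← Finset.mul_sum, ← Finset.mul_sum]
        gcongr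
        refine (sum_pow_super _ (fun c => by positivity) hβ).trans ?_
        apply Real.rpow_le_rpow (by positivity) _ (by linarith)
        rw [← Finset.mul_sum]
        have := sum_card_parts κ
        rw [← hN] at this
        rw [← this]

/-- Removal of the loss. -/
theorem loss_removal (hd : 1 ≤ d) {R q0 q : ℝ} (hR : 1 ≤ R) (hq0 : 1 + 1 / (d : ℝ) ≤ q0)
    (hq : q0 < q) (hq2 : q ≤ 2)
    (hlo : ∀ ε : ℝ, 0 < ε → ∃ C : ℝ, 0 ≤ C ∧ LoB d R q0 ε C) : ∃ C : ℝ, 0 ≤ C ∧ LF d R q C := by
  have hd0 : (0 : ℝ) < d := by exact_mod_cast hd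
  have hp0 : 0 < 1 / (d : ℝ) := by positivity
  set p : ℝ := 1 / (d : ℝ) with hp
  set γ : ℝ := (q - q0) / 2 with hγ
  have hγ0 : 0 < γ := by rw [hγ]; linarith
  set ε : ℝ := γ / (7 * (d + 1)) with hε
  have hε0 : 0 < ε := by positivity
  obtain ⟨C, hC, hlo⟩ := hlo ε hε0
  have hR0 : 0 < R := by linarith
  have hq00 : 0 < q0 := by linarith
  have hqp : 0 < q := by linarith
  set H : ℝ := 2 * (2 * R) ^ d * (2 * R) * 2 ^ (2 - q) with hH
  set G : ℝ := (2 * 3 ^ d) ^ q0 * (8 * C * ((41088 * R * (4 * 6 ^ d) ^ 7) ^ ε *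
    2 ^ (q0 - p))) with hG
  have hH0 : 0 ≤ H := by positivity
  have hG0 : 0 ≤ G := by positivity
  set r : ℝ := 2 ^ (-γ) with hr
  have hr0 : 0 < r := by positivity
  have hr1 : r < 1 := Real.rpow_lt_one_of_one_lt_of_neg (by norm_num) (by linarith)
  refine ⟨(H + G) * (1 - r)⁻¹, mul_nonneg (by positivity) (inv_nonneg.2 (by linarith)), ?_⟩
  intro δ hδ hδ1 ι _ b P v hv hs
  set T : ι → Set (Pt d) := fun i => tb R (R * δ) (b i) (P i) (v i) with hT
  have hTm : ∀ i, MeasurableSet (T i) := fun i => tb_meas _ _ _ _ _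
  rcases isEmpty_or_nonempty ι with hemp | hne
  · have h1 : ∀ x, mult T x ^ q = 0 := by
      intro x
      unfold mult
      rw [Finset.univ_eq_empty, Finset.sum_empty, ENNReal.zero_rpow_of_pos hqp]
    simp only [h1, lintegral_zero]
    exact zero_le
  set N : ℝ := (Fintype.card ι : ℝ) with hN
  have hN1 : 1 ≤ N := by
    rw [hN]
    exact_mod_cast Fintype.card_pos
  have hN0 : 0 < N := by linarith
  set J : ℕ := Fintype.card ι with hJ
  set A : ℕ → Set (Pt d) := fun k => {x | ENNReal.ofReal (N / (2 * 2 ^ k)) ≤ mult T x ∧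
      mult T x ≤ ENNReal.ofReal (N / 2 ^ k)} with hA
  have hAm : ∀ k, MeasurableSet (A k) := fun k =>
    (measurableSet_le measurable_const (mult_meas hTm)).inter
      (measurableSet_le (mult_meas hTm) measurable_const)
  have hpt : ∀ x, mult T x ^ q ≤ ∑ k ∈ Finset.range J, (A k).indicator (fun x => mult T x ^ q) x := by
    intro x
    rcases mult_zero_or T x with h0 | h1
    · rw [h0, ENNReal.zero_rpow_of_pos hqp]; exact zero_le
    obtain ⟨f, hf⟩ : ∃ f : ℝ≥0, mult T x = f :=
      ⟨(mult T x).toNNReal, (ENNReal.coe_toNNReal (mult_ne_top T x)).symm⟩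
    have hf1 : (1 : ℝ) ≤ f := by
      rw [hf] at h1
      exact_mod_cast h1
    have hfN : (f : ℝ) ≤ N := by
      have := mult_le T x
      rw [hf] at this
      rw [hN]
      exact_mod_cast this
    have hf0 : (0 : ℝ) < f := by linarith
    have h2 : 1 ≤ N / f := by rw [le_div_iff₀ hf0]; linarith
    obtain ⟨k, hk1, hk2⟩ := exists_nat_pow_near h2 (by norm_num : (1 : ℝ) < 2)
    have hkJ : k < J := by
      by_contra hcon
      rw [not_lt] at hcon
      have h3 : (J : ℝ) < 2 ^ J := by exact_mod_cast Nat.lt_two_pow_self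
      have h4 : (2 : ℝ) ^ J ≤ 2 ^ k := pow_le_pow_right₀ (by norm_num) hcon
      have h5 : N / f ≤ N := div_le_self hN0.le hf1
      linarith
    have hF : mult T x = ENNReal.ofReal f := by rw [hf]; simp
    have hxA : x ∈ A k := by
      refine ⟨?_, ?_⟩
      · rw [hF]
        apply ENNReal.ofReal_le_ofReal
        rw [div_le_iff₀ (by positivity)]
        rw [div_lt_iff₀ hf0, pow_succ] at hk2
        linarith
      · rw [hF]
        apply ENNReal.ofReal_le_ofReal
        rw [le_div_iff₀ (by positivity)]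
        rw [le_div_iff₀ hf0] at hk1
        linarith
    calc mult T x ^ q = (A k).indicator (fun x => mult T x ^ q) x := by rw [indicator_of_mem hxA]
      _ ≤ _ := Finset.single_le_sum (f := fun k => (A k).indicator (fun x => mult T x ^ q) x)
          (fun _ _ => zero_le) (Finset.mem_range.2 hkJ)
  have hlev : ∀ k : ℕ, ∫⁻ x in A k, mult T x ^ q ≤
      ENNReal.ofReal ((H + G) * (δ ^ d * N ^ (q - p)) * r ^ k) := by
    intro k
    have hK : (1 : ℝ) ≤ 2 ^ k := one_le_pow₀ (by norm_num)
    set K : ℝ := 2 ^ k with hKdef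
    have hK0 : 0 < K := by linarith
    refine (level hd hR hq0 hq hq2 hC hε0.le hlo hδ hK b P v hs rfl rfl).trans ?_
    rw [← ENNReal.ofReal_add (by positivity) (by positivity)]
    apply ENNReal.ofReal_le_ofReal
    have hrk : r ^ k = K ^ (-γ) := by
      rw [hr, hKdef, ← Real.rpow_natCast, ← Real.rpow_natCast, ← Real.rpow_mul (by norm_num),
        ← Real.rpow_mul (by norm_num), mul_comm]
    have h1 : (N / (2 * K)) ^ (q - 2) * (2 * N ^ 2 * ((2 * (R * δ)) ^ d *
        (4 * (R * δ) / (2 * (δ * (N ^ p * K)))))) = H * (δ ^ d * N ^ (q - p)) * K ^ (1 - q) := by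
      have e1 : (N / (2 * K)) ^ (q - 2) = N ^ (q - 2) * (2 ^ (2 - q) * K ^ (2 - q)) := by
        rw [Real.div_rpow hN0.le (by positivity), Real.mul_rpow (by norm_num) hK0.le,
          div_eq_mul_inv, mul_inv, ← Real.rpow_neg (by norm_num), ← Real.rpow_neg hK0.le]
        congr 3 <;> ring
      have e2 : N ^ (q - p) = N ^ (q - 2) * N ^ 2 * (N ^ p)⁻¹ := by
        rw [← Real.rpow_natCast, ← Real.rpow_neg hN0.le, ← Real.rpow_add hN0, ← Real.rpow_add hN0]
        congr 1
        push_cast
        ring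
      have e3 : K ^ (1 - q) = K ^ (2 - q) * K⁻¹ := by
        rw [← Real.rpow_neg_one, ← Real.rpow_add hK0]
        congr 1
        ring
      rw [e1, e2, e3, hH]
      have hNp : 0 < N ^ p := by positivity
      have e4 : (2 * (R * δ)) ^ d = (2 * R) ^ d * δ ^ d := by rw [← mul_pow]; congr 1; ring
      rw [e4]
      field_simp
      ring
    have h2 : (N / K) ^ (q - q0) * (2 * 3 ^ d) ^ q0 *
      (8 * C * ((41088 * R * (4 * 6 ^ d * K ^ (d + 1)) ^ 7) ^ ε * (δ ^ d *
        (2 * N) ^ (q0 - p)))) = G * (δ ^ d * N ^ (q - p)) * K ^ (-γ) := by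
      have e1 : (N / K) ^ (q - q0) = N ^ (q - q0) * K ^ (-(q - q0)) := by
        rw [Real.div_rpow hN0.le hK0.le, div_eq_mul_inv, ← Real.rpow_neg hK0.le]
      have e2 : (41088 * R * (4 * 6 ^ d * K ^ (d + 1)) ^ 7) ^ ε =
          (41088 * R * (4 * 6 ^ d) ^ 7) ^ ε * K ^ γ := by
        have e3 : 41088 * R * (4 * 6 ^ d * K ^ (d + 1)) ^ 7 =
            (41088 * R * (4 * 6 ^ d) ^ 7) * K ^ ((d + 1) * 7) := by
          rw [mul_pow, ← pow_mul]
          ring
        rw [e3, Real.mul_rpow (by positivity) (by positivity)]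
        congr 1
        rw [← Real.rpow_natCast, ← Real.rpow_mul hK0.le]
        congr 1
        rw [hε]
        push_cast
        field_simp
      have e4 : K ^ (-γ) = K ^ (-(q - q0)) * K ^ γ := by
        rw [← Real.rpow_add hK0]
        congr 1
        rw [hγ]; ring
      have e5 : N ^ (q - p) = N ^ (q - q0) * N ^ (q0 - p) := by
        rw [← Real.rpow_add hN0]
        congr 1
        ring
      rw [e1, e2, e4, e5, hG, Real.mul_rpow (by norm_num : (0 : ℝ) ≤ 2) hN0.le]
      ring
    rw [h1, h2, hrk]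
    have h3 : K ^ (1 - q) ≤ K ^ (-γ) := by
      apply Real.rpow_le_rpow_of_exponent_le hK
      rw [hγ]
      linarith
    have h4 : 0 ≤ δ ^ d * N ^ (q - p) := by positivity
    calc H * (δ ^ d * N ^ (q - p)) * K ^ (1 - q) + G * (δ ^ d * N ^ (q - p)) * K ^ (-γ)
        ≤ H * (δ ^ d * N ^ (q - p)) * K ^ (-γ) + G * (δ ^ d * N ^ (q - p)) * K ^ (-γ) := by gcongr
      _ = _ := by ring
  calc ∫⁻ x, mult T x ^ q
      ≤ ∫⁻ x, ∑ k ∈ Finset.range J, (A k).indicator (fun x => mult T x ^ q) x :=
        lintegral_mono hpt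
    _ = ∑ k ∈ Finset.range J, ∫⁻ x in A k, mult T x ^ q := by
        rw [lintegral_finsetSum _ fun k _ => ((mult_meas hTm).pow_const _).indicator (hAm k)]
        refine Finset.sum_congr rfl fun k _ => ?_
        rw [lintegral_indicator (hAm k)]
    _ ≤ ∑ k ∈ Finset.range J, ENNReal.ofReal ((H + G) * (δ ^ d * N ^ (q - p)) * r ^ k) :=
        Finset.sum_le_sum fun k _ => hlev k
    _ = ENNReal.ofReal ((H + G) * (δ ^ d * N ^ (q - p)) * ∑ k ∈ Finset.range J, r ^ k) := by
        rw [← ENNReal.ofReal_sum_of_nonneg (fun k _ => by positivity), ← Finset.mul_sum]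
    _ ≤ _ := by
        apply ENNReal.ofReal_le_ofReal
        have h1 : ∑ k ∈ Finset.range J, r ^ k ≤ (1 - r)⁻¹ := by
          rw [← tsum_geometric_of_lt_one hr0.le hr1]
          exact (summable_geometric_of_lt_one hr0.le hr1).sum_le_tsum _ fun _ _ => by positivity
        calc (H + G) * (δ ^ d * N ^ (q - p)) * ∑ k ∈ Finset.range J, r ^ k
            ≤ (H + G) * (δ ^ d * N ^ (q - p)) * (1 - r)⁻¹ := by gcongr
          _ = _ := by ring

end Pool.Agent.Y254.EL
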