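import Pool.Agent.Y254.Cell
set_option autoImplicit false

/-!
# Tubes in slope coordinates
-/

open MeasureTheory Set Metric
open scoped ENNReal NNReal

namespace Pool.Agent.Y254.EL
open Pool.Agent.Y254 (mult)

variable {d : ℕ}

/-- Points: a height and a position. -/
abbrev Pt (d : ℕ) : Type := ℝ × (Fin d → ℝ)

/-- The tube of radius `r` around the line `{(t, P + t v)}`, at the heights `t` with `|t - b| ≤ R`. -/
def tb (R r b : ℝ) (P v : Fin d → ℝ) : Set (Pt d) :=
  {z | |z.1 - b| ≤ R ∧ ‖z.2 - P - z.1 • v‖ ≤ r}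

theorem tb_meas (R r b : ℝ) (P v : Fin d → ℝ) : MeasurableSet (tb R r b P v) := by
  have h1 : IsClosed {z : Pt d | |z.1 - b| ≤ R} :=
    isClosed_le (f := fun z : Pt d => |z.1 - b|) (g := fun _ => R) (by fun_prop) continuous_const
  have h2 : IsClosed {z : Pt d | ‖z.2 - P - z.1 • v‖ ≤ r} :=
    isClosed_le (f := fun z : Pt d => ‖z.2 - P - z.1 • v‖) (g := fun _ => r) (by fun_prop)
      continuous_const
  exact (h1.inter h2).measurableSet

theorem vol_slices {S : Set (Pt d)} (hS : MeasurableSet S) {I : Set ℝ} (hI : MeasurableSet I)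
    (hSI : ∀ z ∈ S, z.1 ∈ I) {c : ℝ≥0∞} (hc : ∀ t, volume (Prod.mk t ⁻¹' S) ≤ c) :
    volume S ≤ c * volume I := by
  rw [Measure.volume_eq_prod, Measure.prod_apply hS]
  calc ∫⁻ t, volume (Prod.mk t ⁻¹' S) ≤ ∫⁻ t, I.indicator (fun _ => c) t := by
        apply lintegral_mono
        intro t
        by_cases ht : t ∈ I
        · rw [indicator_of_mem ht]; exact hc t
        · rw [indicator_of_notMem ht]
          have : Prod.mk t ⁻¹' S = ∅ := by
            ext y
            simp only [mem_preimage, mem_empty_iff_false, iff_false]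
            intro hy
            exact ht (hSI _ hy)
          dsimp only
          rw [this, measure_empty]
    _ = c * volume I := lintegral_indicator_const hI _

theorem slice_tb {R r b : ℝ} (hr : 0 ≤ r) {P v : Fin d → ℝ} (t : ℝ) {S : Set (Pt d)}
    (hS : S ⊆ tb R r b P v) : volume (Prod.mk t ⁻¹' S) ≤ ENNReal.ofReal ((2 * r) ^ d) := by
  have h1 : Prod.mk t ⁻¹' S ⊆ closedBall (P + t • v) r := by
    intro y hy
    have h2 := (hS hy).2
    rw [mem_closedBall, dist_eq_norm]
    have h3 : y - (P + t • v) = y - P - t • v := by abel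
    rw [h3]
    exact h2
  refine (measure_mono h1).trans ?_
  rw [Real.volume_pi_closedBall _ hr, Fintype.card_fin]

theorem vol_tb {R r b : ℝ} (hr : 0 ≤ r) (P v : Fin d → ℝ) :
    volume (tb R r b P v) ≤ ENNReal.ofReal (2 * R * (2 * r) ^ d) := by
  refine (vol_slices (tb_meas R r b P v) (I := closedBall b R) measurableSet_closedBall
    (fun z hz => by
      rw [mem_closedBall, Real.dist_eq]
      exact hz.1) (fun t => slice_tb hr t Subset.rfl)).trans (le_of_eq ?_)
  rw [Real.volume_closedBall, ← ENNReal.ofReal_mul (by positivity)]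
  congr 1
  ring

/-- The coordinate in which the norm is attained. -/
theorem exists_coord {w : Fin d → ℝ} (hw : 0 < ‖w‖) : ∃ k, |w k| = ‖w‖ := by
  have hne : Nonempty (Fin d) := by
    by_contra h
    rw [not_nonempty_iff] at h
    have : w = 0 := Subsingleton.elim _ _
    rw [this, norm_zero] at hw
    exact lt_irrefl _ hw
  obtain ⟨k, hk⟩ := Finite.exists_max (fun k => |w k|)
  refine ⟨k, le_antisymm ?_ ?_⟩
  · have := norm_le_pi_norm w k
    rwa [Real.norm_eq_abs] at this
  · rw [pi_norm_le_iff_of_nonneg (abs_nonneg _)]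
    intro i
    rw [Real.norm_eq_abs]
    exact hk i

theorem vol_inter {R r b b' : ℝ} (hr : 0 ≤ r) {P v P' v' : Fin d → ℝ} (hv : 0 < ‖v - v'‖) :
    volume (tb R r b P v ∩ tb R r b' P' v') ≤
      ENNReal.ofReal ((2 * r) ^ d * (4 * r / ‖v - v'‖)) := by
  obtain ⟨k, hk⟩ := exists_coord hv
  have hk0 : v k - v' k ≠ 0 := by
    intro h
    have : (v - v') k = 0 := h
    rw [this, abs_zero] at hk
    linarith
  have hk' : |v k - v' k| = ‖v - v'‖ := hk
  refine (vol_slices ((tb_meas R r b P v).inter (tb_meas R r b' P' v'))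
    (I := closedBall (-((P k - P' k) / (v k - v' k))) (2 * r / ‖v - v'‖)) measurableSet_closedBall
    (fun z hz => ?_) (fun t => slice_tb hr t inter_subset_left)).trans (le_of_eq ?_)
  · have h1 := (norm_le_pi_norm _ k).trans hz.1.2
    have h2 := (norm_le_pi_norm _ k).trans hz.2.2
    simp only [Pi.sub_apply, Pi.smul_apply, smul_eq_mul, Real.norm_eq_abs] at h1 h2
    have h3 : |(P k - P' k) + z.1 * (v k - v' k)| ≤ 2 * r := by
      have h4 : (P k - P' k) + z.1 * (v k - v' k) =
          (z.2 k - P' k - z.1 * v' k) - (z.2 k - P k - z.1 * v k) := by ring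
      rw [h4]
      refine (abs_sub _ _).trans ?_
      linarith
    rw [mem_closedBall, Real.dist_eq]
    have h5 : z.1 - -((P k - P' k) / (v k - v' k)) =
        ((P k - P' k) + z.1 * (v k - v' k)) / (v k - v' k) := by
      field_simp
      ring
    rw [h5, abs_div, hk']
    gcongr
  · rw [Real.volume_closedBall, ← ENNReal.ofReal_mul (by positivity)]
    congr 2
    ring

/-- Separated slopes. -/
def Sep {ι : Type} (δ : ℝ) (v : ι → Fin d → ℝ) : Prop := ∀ i j, i ≠ j → δ ≤ ‖v i - v j‖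

theorem card_Icc_floor {a b : ℝ} (hab : a ≤ b) :
    ((Finset.Icc ⌊a⌋ ⌊b⌋).card : ℝ) ≤ b - a + 2 := by
  rw [Int.card_Icc]
  have h0 : ⌊a⌋ ≤ ⌊b⌋ := Int.floor_le_floor hab
  have h1 : ((⌊b⌋ + 1 - ⌊a⌋).toNat : ℤ) = ⌊b⌋ + 1 - ⌊a⌋ := Int.toNat_of_nonneg (by omega)
  have h2 : (((⌊b⌋ + 1 - ⌊a⌋).toNat : ℤ) : ℝ) = ((⌊b⌋ + 1 - ⌊a⌋ : ℤ) : ℝ) := by rw [h1]
  push_cast at h2
  rw [h2]
  have := Int.floor_le b
  have := Int.lt_floor_add_one a
  linarith

/-- Separated slopes in a ball. -/
theorem card_ball {ι : Type} {δ ϱ : ℝ} (hδ : 0 < δ) (hϱ : 0 ≤ ϱ) {v : ι → Fin d → ℝ} (hs : Sep δ v)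
    (w : Fin d → ℝ) (J : Finset ι) (hJ : ∀ j ∈ J, ‖v j - w‖ ≤ ϱ) :
    (J.card : ℝ) ≤ (2 * ϱ / δ + 2) ^ d := by
  classical
  set κ : ι → Fin d → ℤ := fun j k => ⌊v j k / δ⌋ with hκ
  set T : Finset (Fin d → ℤ) := Fintype.piFinset fun k =>
    Finset.Icc ⌊(w k - ϱ) / δ⌋ ⌊(w k + ϱ) / δ⌋ with hT
  have h1 : J.card ≤ T.card := by
    apply Finset.card_le_card_of_injOn κ
    · intro j hj
      have hj' := hJ j hj
      rw [Finset.mem_coe, hT, Fintype.mem_piFinset]
      intro k
      have h2 := (norm_le_pi_norm _ k).trans hj'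
      rw [Pi.sub_apply, Real.norm_eq_abs, abs_le] at h2
      rw [Finset.mem_Icc]
      constructor
      · apply Int.floor_le_floor
        gcongr
        linarith
      · apply Int.floor_le_floor
        gcongr
        linarith
    · intro i _ j _ hij
      by_contra hne
      have h2 := hs i j hne
      have h3 : ‖v i - v j‖ < δ := by
        rw [pi_norm_lt_iff hδ]
        intro k
        have h4 : ⌊v i k / δ⌋ = ⌊v j k / δ⌋ := congrFun hij k
        have h5 := Int.abs_sub_lt_one_of_floor_eq_floor h4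
        rw [Pi.sub_apply, Real.norm_eq_abs]
        have h6 : v i k - v j k = (v i k / δ - v j k / δ) * δ := by field_simp
        rw [h6, abs_mul, abs_of_pos hδ]
        nlinarith
      linarith
  have h2 : (T.card : ℝ) ≤ (2 * ϱ / δ + 2) ^ d := by
    rw [hT, Fintype.card_piFinset]
    push_cast
    calc ∏ k, ((Finset.Icc ⌊(w k - ϱ) / δ⌋ ⌊(w k + ϱ) / δ⌋).card : ℝ)
        ≤ ∏ _k : Fin d, (2 * ϱ / δ + 2) := by
          apply Finset.prod_le_prod
          · intro k _
            positivity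
          · intro k _
            refine (card_Icc_floor ?_).trans (le_of_eq ?_)
            · gcongr
              linarith
            · ring
      _ = _ := by rw [Finset.prod_const, Finset.card_univ, Fintype.card_fin]
  calc (J.card : ℝ) ≤ T.card := by exact_mod_cast h1
    _ ≤ _ := h2

/-- Tubes which meet two balls. -/
theorem common {ι : Type} {δ r a D R : ℝ} (hδ : 0 < δ) (hr : 0 < r) (ha : 0 ≤ a)
    {b : ι → ℝ} {P v : ι → Fin d → ℝ} (hv : ∀ i, ‖v i‖ ≤ 1) (hs : Sep δ v) {x x' : Pt d}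
    (hD : D ≤ dist x x') (hDr : 2 * (2 * r + 4 * a) ≤ D) (J : Finset ι)
    (hJ : ∀ j ∈ J, (∃ z ∈ closedBall x a, z ∈ tb R r (b j) (P j) (v j)) ∧
      ∃ z ∈ closedBall x' a, z ∈ tb R r (b j) (P j) (v j)) :
    (J.card : ℝ) ≤ (4 * (2 * r + 4 * a) / (D * δ) + 2) ^ d := by
  set β : ℝ := 2 * r + 4 * a with hβ
  have hβ0 : 0 < β := by positivity
  have hD0 : 0 < D := by linarith
  -- the basic relation
  have hrel : ∀ j ∈ J, ‖(x.2 - x'.2) - (x.1 - x'.1) • v j‖ ≤ β := by
    intro j hj
    obtain ⟨⟨z, hz, hz1, hz2⟩, ⟨z', hz', hz1', hz2'⟩⟩ := hJ j hj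
    rw [mem_closedBall, Prod.dist_eq, max_le_iff, dist_eq_norm, dist_eq_norm] at hz hz'
    have e1 : (x.2 - x'.2) - (x.1 - x'.1) • v j =
        (z.2 - P j - z.1 • v j) - (z'.2 - P j - z'.1 • v j) - (z.2 - x.2) + (z'.2 - x'.2) +
        (z.1 - x.1) • v j - (z'.1 - x'.1) • v j := by
      rw [sub_smul, sub_smul, sub_smul]
      abel
    rw [e1]
    have h1 : ‖(z.1 - x.1) • v j‖ ≤ a := by
      rw [norm_smul]
      have := hv j
      have := norm_nonneg (v j)
      have := norm_nonneg (z.1 - x.1)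
      nlinarith [hz.1]
    have h2 : ‖(z'.1 - x'.1) • v j‖ ≤ a := by
      rw [norm_smul]
      have := hv j
      have := norm_nonneg (v j)
      have := norm_nonneg (z'.1 - x'.1)
      nlinarith [hz'.1]
    refine (norm_sub_le _ _).trans ?_
    refine (add_le_add_left (norm_add_le _ _) _).trans ?_
    refine (add_le_add_left (add_le_add_left (norm_add_le _ _) _) _).trans ?_
    refine (add_le_add_left (add_le_add_left (add_le_add_left (norm_sub_le _ _) _) _) _).trans ?_
    refine (add_le_add_left (add_le_add_left (add_le_add_left (add_le_add_left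
      (norm_sub_le _ _) _) _) _) _).trans ?_
    rw [hβ]
    have := hz.2
    have := hz'.2
    linarith
  rcases J.eq_empty_or_nonempty with h0 | ⟨j0, hj0⟩
  · rw [h0]
    simp only [Finset.card_empty, Nat.cast_zero]
    positivity
  have ht : D / 2 ≤ |x.1 - x'.1| := by
    by_contra hcon
    rw [not_le] at hcon
    have h1 := hrel j0 hj0
    have h2 : ‖x.2 - x'.2‖ ≤ β + |x.1 - x'.1| := by
      have h3 : x.2 - x'.2 = ((x.2 - x'.2) - (x.1 - x'.1) • v j0) + (x.1 - x'.1) • v j0 := by abel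
      rw [h3]
      refine (norm_add_le _ _).trans ?_
      rw [norm_smul, Real.norm_eq_abs]
      have := hv j0
      have := abs_nonneg (x.1 - x'.1)
      nlinarith [norm_nonneg (v j0)]
    have h4 : dist x x' < D := by
      rw [Prod.dist_eq, max_lt_iff, Real.dist_eq, dist_eq_norm]
      constructor
      · linarith
      · linarith
    linarith
  have ht0 : 0 < |x.1 - x'.1| := by linarith
  have htne : x.1 - x'.1 ≠ 0 := abs_pos.1 ht0
  have h1 := card_ball hδ (ϱ := 2 * β / D) (by positivity) hs ((x.1 - x'.1)⁻¹ • (x.2 - x'.2)) J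
    (by
      intro j hj
      have h2 := hrel j hj
      have h3 : v j - (x.1 - x'.1)⁻¹ • (x.2 - x'.2) =
          -((x.1 - x'.1)⁻¹ • ((x.2 - x'.2) - (x.1 - x'.1) • v j)) := by
        rw [smul_sub (x.1 - x'.1)⁻¹ (x.2 - x'.2), smul_smul, inv_mul_cancel₀ htne, one_smul]
        abel
      rw [h3, norm_neg, norm_smul, norm_inv, Real.norm_eq_abs]
      calc |x.1 - x'.1|⁻¹ * ‖(x.2 - x'.2) - (x.1 - x'.1) • v j‖ ≤ (D / 2)⁻¹ * β := by gcongr
        _ = 2 * β / D := by field_simp)
  refine h1.trans (le_of_eq ?_)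
  congr 1
  field_simp
  ring

end Pool.Agent.Y254.EL
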