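import Pool.Agent.Y254.EL.Slp
set_option autoImplicit false

/-!
# Scaling, colouring, and the local form of a scale-invariant inequality
-/

open MeasureTheory Set Metric
open scoped ENNReal NNReal

namespace Pool.Agent.Y254.EL
open Pool.Agent.Y254 (mult mult_meas mult_le pmult pmult_eq sum_card_parts)

variable {d : ℕ}

theorem lint_smul {E : Type*} [NormedAddCommGroup E] [NormedSpace ℝ E] [FiniteDimensional ℝ E]
    [MeasurableSpace E] [BorelSpace E] (μ : Measure E) [μ.IsAddHaarMeasure] {r : ℝ} (hr : 0 < r)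
    {f : E → ℝ≥0∞} (hf : Measurable f) :
    ∫⁻ z, f z ∂μ = ENNReal.ofReal (r ^ Module.finrank ℝ E) * ∫⁻ z, f (r • z) ∂μ := by
  have h1 : ∫⁻ z, f (r • z) ∂μ = ∫⁻ z, f z ∂(Measure.map (fun z => r • z) μ) := by
    rw [lintegral_map hf (measurable_const_smul r)]
  rw [h1, Measure.map_addHaar_smul μ hr.ne', lintegral_smul_measure, smul_eq_mul, ← mul_assoc,
    ← ENNReal.ofReal_mul (by positivity), abs_of_pos (by positivity),
    mul_inv_cancel₀ (by positivity), ENNReal.ofReal_one, one_mul]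

instance haarPt : (volume : Measure (Pt d)).IsAddHaarMeasure := by
  rw [Measure.volume_eq_prod]
  infer_instance

/-- Isotropic scaling. -/
theorem lint_zoom {ρ : ℝ} (hρ : 0 < ρ) (x0 : Pt d) {f : Pt d → ℝ≥0∞} (hf : Measurable f) :
    ∫⁻ z, f z = ENNReal.ofReal (ρ ^ (d + 1)) * ∫⁻ z, f (x0 + ρ • z) := by
  have h1 : ∫⁻ z, f z = ∫⁻ z, f (x0 + z) := (lintegral_add_left_eq_self f x0).symm
  have h2 : Module.finrank ℝ (Pt d) = d + 1 := by
    rw [Module.finrank_prod, Module.finrank_self, Module.finrank_fin_fun, add_comm]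
  rw [h1, lint_smul volume hρ (f := fun z => f (x0 + z)) (by fun_prop), h2]

/-- Anisotropic scaling. -/
theorem lint_aniso {s : ℝ} (hs : 0 < s) (v0 : Fin d → ℝ) {f : Pt d → ℝ≥0∞} (hf : Measurable f) :
    ∫⁻ z : Pt d, f (z.1, s⁻¹ • (z.2 - z.1 • v0)) = ENNReal.ofReal (s ^ d) * ∫⁻ z, f z := by
  rw [Measure.volume_eq_prod, lintegral_prod _ (by fun_prop), lintegral_prod _ hf.aemeasurable,
    ← lintegral_const_mul _ (by fun_prop)]
  apply lintegral_congr
  intro t
  have h1 : ∫⁻ y : Fin d → ℝ, f (t, s⁻¹ • (y - t • v0)) = ∫⁻ y : Fin d → ℝ, f (t, s⁻¹ • y) :=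
    lintegral_sub_right_eq_self (fun y : Fin d → ℝ => f (t, s⁻¹ • y)) (t • v0)
  dsimp only
  rw [h1, lint_smul volume hs (f := fun y : Fin d → ℝ => f (t, s⁻¹ • y)) (by fun_prop),
    Module.finrank_fin_fun]
  congr 1
  apply lintegral_congr
  intro y
  rw [smul_smul, inv_mul_cancel₀ hs.ne', one_smul]

/-- Colouring of a separated family by more separated families. -/
theorem coloring {ι : Type} [Fintype ι] {δ τ : ℝ} (hδ : 0 < δ) (hτ : δ ≤ τ) {v : ι → Fin d → ℝ}
    (hs : Sep δ v) : ∃ (D : Type) (_ : Fintype D) (_ : DecidableEq D) (κ : ι → D),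
      (Fintype.card D : ℝ) ≤ (2 * (2 * τ / δ + 2)) ^ d ∧
      ∀ i j, κ i = κ j → i ≠ j → τ ≤ ‖v i - v j‖ := by
  classical
  have hτ0 : 0 < τ := by linarith
  set c : ι → Fin d → ℤ := fun i k => ⌊v i k / τ⌋ with hc
  set m : ℕ := ⌊(2 * τ / δ + 2) ^ d⌋₊ with hm
  have hcard : ∀ a : Fin d → ℤ, Fintype.card {i // c i = a} ≤ m := by
    intro a
    rcases isEmpty_or_nonempty {i // c i = a} with h0 | ⟨⟨i0, hi0⟩⟩
    · rw [Fintype.card_eq_zero]; exact Nat.zero_le _
    · rw [Fintype.card_subtype, hm]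
      apply Nat.le_floor
      refine card_ball hδ hτ0.le hs (v i0) _ ?_
      intro j hj
      have hj' : c j = a := (Finset.mem_filter.1 hj).2
      rw [pi_norm_le_iff_of_nonneg hτ0.le]
      intro k
      have h4 : ⌊v j k / τ⌋ = ⌊v i0 k / τ⌋ := congrFun (hj'.trans hi0.symm) k
      have h5 := Int.abs_sub_lt_one_of_floor_eq_floor h4
      rw [Pi.sub_apply, Real.norm_eq_abs]
      have h6 : v j k - v i0 k = (v j k / τ - v i0 k / τ) * τ := by field_simp
      rw [h6, abs_mul, abs_of_pos hτ0]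
      nlinarith
  have hemb : ∀ a : Fin d → ℤ, Nonempty ({i // c i = a} ↪ Fin m) := by
    intro a
    rw [Function.Embedding.nonempty_iff_card_le, Fintype.card_fin]
    exact hcard a
  obtain ⟨em⟩ : Nonempty (∀ a : Fin d → ℤ, {i // c i = a} ↪ Fin m) := ⟨fun a => (hemb a).some⟩
  refine ⟨(Fin d → Bool) × Fin m, inferInstance, inferInstance,
    fun i => (fun k => decide (Even (c i k)), em (c i) ⟨i, rfl⟩), ?_, ?_⟩
  · rw [Fintype.card_prod, Fintype.card_fun, Fintype.card_bool, Fintype.card_fin, Fintype.card_fin]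
    push_cast
    rw [mul_pow]
    gcongr
    exact Nat.floor_le (by positivity)
  · intro i j hij hne
    by_contra hcon
    rw [not_le] at hcon
    rw [Prod.mk.injEq] at hij
    obtain ⟨h1, h2⟩ := hij
    have h3 : c i = c j := by
      funext k
      have h4 : |v i k - v j k| < τ := by
        have := (norm_le_pi_norm (v i - v j) k).trans_lt hcon
        rwa [Pi.sub_apply, Real.norm_eq_abs] at this
      have h5 : |v i k / τ - v j k / τ| < 1 := by
        rw [← sub_div, abs_div, abs_of_pos hτ0, div_lt_one hτ0]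
        exact h4
      have h6 := Pool.Agent.Y254.floor_near h5
      rw [Finset.mem_Icc] at h6
      have h7 : (Even (c i k)) ↔ Even (c j k) := by
        have := congrFun h1 k
        simpa using this
      have h8 : c i k = ⌊v i k / τ⌋ := rfl
      have h9 : c j k = ⌊v j k / τ⌋ := rfl
      rw [← h8, ← h9] at h6
      obtain ⟨h10, h11⟩ := h6
      have h12 : c j k = c i k - 1 ∨ c j k = c i k ∨ c j k = c i k + 1 := by omega
      rcases h12 with h | h | h
      · exfalso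
        rw [h] at h7
        by_cases he : Even (c i k)
        · have := h7.1 he
          rw [Int.even_sub_one] at this
          exact this he
        · exact he (h7.2 (by rw [Int.even_sub_one]; exact he))
      · exact h.symm
      · exfalso
        rw [h] at h7
        by_cases he : Even (c i k)
        · have := h7.1 he
          rw [Int.even_add_one] at this
          exact this he
        · exact he (h7.2 (by rw [Int.even_add_one]; exact he))
    have h13 : ∀ (a : Fin d → ℤ) (hia : c i = a) (hja : c j = a),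
        em a ⟨i, hia⟩ = em a ⟨j, hja⟩ → i = j := by
      intro a hia hja h
      have := (em a).injective h
      exact congrArg Subtype.val this
    apply hne
    refine h13 (c j) h3 rfl ?_
    rw [← h2]
    have h14 : ∀ (a : Fin d → ℤ) (h : c i = a), em a ⟨i, h⟩ = em (c i) ⟨i, rfl⟩ := by
      intro a h
      subst h
      rfl
    exact h14 (c j) h3

/-- Minkowski's inequality for finite sums. -/
theorem mink {X : Type*} [MeasurableSpace X] (μ : Measure X) {D : Type*} (s : Finset D)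
    {f : D → X → ℝ≥0∞} (hf : ∀ c, Measurable (f c)) {q : ℝ} (hq : 1 ≤ q) :
    (∫⁻ x, (∑ c ∈ s, f c x) ^ q ∂μ) ^ (1 / q) ≤ ∑ c ∈ s, (∫⁻ x, f c x ^ q ∂μ) ^ (1 / q) := by
  classical
  have hq0 : 0 < q := by linarith
  induction s using Finset.induction_on with
  | empty =>
    simp only [Finset.sum_empty]
    rw [ENNReal.zero_rpow_of_pos hq0, lintegral_zero, ENNReal.zero_rpow_of_pos (by positivity)]
  | insert a s ha ih =>
    rw [Finset.sum_insert ha]
    have h1 : ∀ x, ∑ c ∈ insert a s, f c x = (f a + fun x => ∑ c ∈ s, f c x) x := by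
      intro x
      rw [Finset.sum_insert ha]
      rfl
    simp only [h1]
    refine (ENNReal.lintegral_Lp_add_le (hf a).aemeasurable
      (Finset.measurable_sum s fun c _ => hf c).aemeasurable hq).trans ?_
    gcongr

/-- Sums of concave powers. -/
theorem sum_rpow_le {D : Type*} (s : Finset D) {a : D → ℝ} (ha : ∀ c, 0 ≤ a c) {θ : ℝ} (hθ : 0 < θ)
    (hθ1 : θ ≤ 1) : ∑ c ∈ s, a c ^ θ ≤ (s.card : ℝ) ^ (1 - θ) * (∑ c ∈ s, a c) ^ θ := by
  have h1 := Real.rpow_sum_le_const_mul_sum_rpow s (fun c => a c ^ θ) (p := 1 / θ)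
    (by rw [le_div_iff₀ hθ]; linarith)
  have h2 : ∀ c, |a c ^ θ| = a c ^ θ := fun c => abs_of_nonneg (Real.rpow_nonneg (ha c) _)
  have h3 : ∀ c, (a c ^ θ) ^ (1 / θ) = a c := by
    intro c
    rw [← Real.rpow_mul (ha c), mul_one_div, div_self hθ.ne', Real.rpow_one]
  simp only [h2, h3] at h1
  have h0 : 0 ≤ ∑ c ∈ s, a c ^ θ := Finset.sum_nonneg fun c _ => Real.rpow_nonneg (ha c) _
  have h4 : ∑ c ∈ s, a c ^ θ = ((∑ c ∈ s, a c ^ θ) ^ (1 / θ)) ^ θ := by
    rw [← Real.rpow_mul h0, one_div, inv_mul_cancel₀ hθ.ne', Real.rpow_one]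
  have hs0 : 0 ≤ ∑ c ∈ s, a c := Finset.sum_nonneg fun c _ => ha c
  rw [h4]
  calc ((∑ c ∈ s, a c ^ θ) ^ (1 / θ)) ^ θ ≤ ((s.card : ℝ) ^ (1 / θ - 1) * ∑ c ∈ s, a c) ^ θ := by
        gcongr
    _ = (s.card : ℝ) ^ (1 - θ) * (∑ c ∈ s, a c) ^ θ := by
        rw [Real.mul_rpow (Real.rpow_nonneg (Nat.cast_nonneg _) _) hs0,
          ← Real.rpow_mul (Nat.cast_nonneg _)]
        congr 2
        rw [sub_mul, one_div, inv_mul_cancel₀ hθ.ne', one_mul]

/-- A family with its constants satisfies the scale-invariant inequality with a small loss. -/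
def LoB (d : ℕ) (R q ε C : ℝ) : Prop := ∀ δ : ℝ, 0 < δ → δ < 1 → ∀ {ι : Type} [Fintype ι]
    (b : ι → ℝ) (P v : ι → Fin d → ℝ), (∀ i, ‖v i‖ ≤ 1) → Sep δ v →
    ∫⁻ x, mult (fun i => tb R (R * δ) (b i) (P i) (v i)) x ^ q ≤
      ENNReal.ofReal (C * (δ ^ (-ε) * (δ ^ d * (Fintype.card ι : ℝ) ^ (q - 1 / (d : ℝ)))))

/-- The inequality for families which are less separated than their width. -/
theorem less_sep (hd : 1 ≤ d) {R q ε C : ℝ} (hq : 1 + 1 / (d : ℝ) ≤ q) (hC : 0 ≤ C)
    (hlo : LoB d R q ε C) {δ τ : ℝ} (hδ : 0 < δ) (hτ : δ ≤ τ) (hτ1 : τ < 1)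
    {ι : Type} [Fintype ι] (b : ι → ℝ) (P v : ι → Fin d → ℝ) (hv : ∀ i, ‖v i‖ ≤ 1) (hs : Sep δ v) :
    ∫⁻ x, mult (fun i => tb R (R * τ) (b i) (P i) (v i)) x ^ q ≤
      ENNReal.ofReal (C * (τ ^ (-ε) * (τ ^ d * (2 * (2 * τ / δ + 2) *
        (Fintype.card ι : ℝ) ^ (q - 1 / (d : ℝ)))))) := by
  have hτ0 : 0 < τ := by linarith
  have hd0 : (0 : ℝ) < d := by exact_mod_cast hd
  have hp0 : 0 < 1 / (d : ℝ) := by positivity
  have hq0 : 0 < q := by linarith
  have hq1 : 1 ≤ q := by linarith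
  obtain ⟨D, _, _, κ, hD, hκ⟩ := coloring hδ hτ hs
  set T : ι → Set (Pt d) := fun i => tb R (R * τ) (b i) (P i) (v i) with hT
  have hTm : ∀ i, MeasurableSet (T i) := fun i => tb_meas _ _ _ _ _
  set p : ℝ := 1 / (d : ℝ) with hp
  set θ : ℝ := 1 - p / q with hθ
  have hpq : p / q < 1 := by rw [div_lt_one hq0]; linarith
  have hθ0 : 0 < θ := by rw [hθ]; linarith
  have hθ1 : θ ≤ 1 := by
    have : 0 ≤ p / q := by positivity
    rw [hθ]; linarith
  have hsum : ∀ x, mult T x = ∑ c : D, pmult T κ c x := by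
    intro x
    unfold mult pmult
    rw [Finset.sum_comm]
    refine Finset.sum_congr rfl fun i _ => ?_
    rw [Finset.sum_ite_eq, if_pos (Finset.mem_univ _)]
  set n : D → ℝ := fun c => (Fintype.card {i // κ i = c} : ℝ) with hn
  have hn0 : ∀ c, 0 ≤ n c := fun c => by positivity
  have hpart : ∀ c : D, ∫⁻ x, pmult T κ c x ^ q ≤
      ENNReal.ofReal (C * (τ ^ (-ε) * (τ ^ d * n c ^ (q - p)))) := by
    intro c
    simp only [pmult_eq]
    exact hlo τ hτ0 hτ1 (fun i : {i // κ i = c} => b i) (fun i : {i // κ i = c} => P i)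
      (fun i : {i // κ i = c} => v i) (fun i => hv i) (fun i j hij =>
        hκ i j (i.2.trans j.2.symm) (fun h => hij (Subtype.ext h)))
  set B : ℝ := C * (τ ^ (-ε) * τ ^ d) with hB
  have hB0 : 0 ≤ B := by positivity
  have hpm : ∀ c : D, Measurable fun x => pmult T κ c x := by
    intro c
    simp only [pmult_eq]
    exact mult_meas fun i => tb_meas _ _ _ _ _
  have hnsum : ∑ c : D, n c = Fintype.card ι := by
    have h1 := sum_card_parts κ
    rw [← h1]
    symm
    apply Finset.sum_subset (Finset.subset_univ _)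
    intro c _ hc
    have : IsEmpty {i // κ i = c} := by
      constructor
      rintro ⟨i, hi⟩
      exact hc (Finset.mem_image.2 ⟨i, Finset.mem_univ _, hi⟩)
    rw [Fintype.card_eq_zero, Nat.cast_zero]
  have hS : ∑ c : D, n c ^ θ ≤ (Fintype.card D : ℝ) ^ (p / q) * (Fintype.card ι : ℝ) ^ θ := by
    have h1 := sum_rpow_le (Finset.univ : Finset D) hn0 hθ0 hθ1
    rw [hnsum, Finset.card_univ] at h1
    have h2 : 1 - θ = p / q := by rw [hθ]; ring
    rwa [h2] at h1
  have hroot : (∫⁻ x, mult T x ^ q) ^ (1 / q) ≤ ENNReal.ofReal (B ^ (1 / q) *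
      ((Fintype.card D : ℝ) ^ (p / q) * (Fintype.card ι : ℝ) ^ θ)) := by
    simp only [hsum]
    refine (mink volume Finset.univ hpm hq1).trans ?_
    calc ∑ c : D, (∫⁻ x, pmult T κ c x ^ q) ^ (1 / q)
        ≤ ∑ c : D, ENNReal.ofReal (B ^ (1 / q) * n c ^ θ) := by
          apply Finset.sum_le_sum
          intro c _
          refine (ENNReal.rpow_le_rpow (hpart c) (by positivity)).trans (le_of_eq ?_)
          rw [ENNReal.ofReal_rpow_of_nonneg (by positivity) (by positivity)]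
          congr 1
          have h1 : C * (τ ^ (-ε) * (τ ^ d * n c ^ (q - p))) = B * n c ^ (q - p) := by
            rw [hB]; ring
          rw [h1, Real.mul_rpow hB0 (by positivity), ← Real.rpow_mul (hn0 c)]
          congr 2
          rw [hθ]
          field_simp
      _ = ENNReal.ofReal (B ^ (1 / q) * ∑ c : D, n c ^ θ) := by
          rw [← ENNReal.ofReal_sum_of_nonneg (fun c _ => by positivity), ← Finset.mul_sum]
      _ ≤ _ := by
          apply ENNReal.ofReal_le_ofReal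
          gcongr
  have h5 : ∫⁻ x, mult T x ^ q = ((∫⁻ x, mult T x ^ q) ^ (1 / q)) ^ q := by
    rw [← ENNReal.rpow_mul, one_div, inv_mul_cancel₀ hq0.ne', ENNReal.rpow_one]
  rw [h5]
  refine (ENNReal.rpow_le_rpow hroot hq0.le).trans ?_
  rw [ENNReal.ofReal_rpow_of_nonneg (by positivity) hq0.le]
  apply ENNReal.ofReal_le_ofReal
  have e1 : p / q * q = p := by field_simp
  have e2 : θ * q = q - p := by rw [hθ]; field_simp
  have e3 : (B ^ (1 / q)) ^ q = B := by
    rw [← Real.rpow_mul hB0, one_div, inv_mul_cancel₀ hq0.ne', Real.rpow_one]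
  have e4 : ((Fintype.card D : ℝ) ^ (p / q)) ^ q = (Fintype.card D : ℝ) ^ p := by
    rw [← Real.rpow_mul (Nat.cast_nonneg _), e1]
  have e5 : ((Fintype.card ι : ℝ) ^ θ) ^ q = (Fintype.card ι : ℝ) ^ (q - p) := by
    rw [← Real.rpow_mul (Nat.cast_nonneg _), e2]
  rw [Real.mul_rpow (x := B ^ (1 / q)) (by positivity) (by positivity),
    Real.mul_rpow (x := (Fintype.card D : ℝ) ^ (p / q)) (by positivity) (by positivity), e3, e4, e5]
  have h6 : (Fintype.card D : ℝ) ^ p ≤ 2 * (2 * τ / δ + 2) := by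
    calc (Fintype.card D : ℝ) ^ p ≤ ((2 * (2 * τ / δ + 2)) ^ d) ^ p := by gcongr
      _ = 2 * (2 * τ / δ + 2) := by
          rw [← Real.rpow_natCast, ← Real.rpow_mul (by positivity), hp, mul_one_div,
            div_self hd0.ne', Real.rpow_one]
  calc B * ((Fintype.card D : ℝ) ^ p * (Fintype.card ι : ℝ) ^ (q - p))
      ≤ B * (2 * (2 * τ / δ + 2) * (Fintype.card ι : ℝ) ^ (q - p)) := by gcongr
    _ = _ := by rw [hB]; ring

/-- The local form of the inequality. -/
theorem zoom (hd : 1 ≤ d) {R q ε C : ℝ} (hR : 1 ≤ R) (hq : 1 + 1 / (d : ℝ) ≤ q) (hC : 0 ≤ C)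
    (hlo : LoB d R q ε C) {δ ρ : ℝ} (hδ : 0 < δ) (hρ : δ < ρ) (hρ1 : ρ ≤ 1) (x0 : Pt d)
    {ι : Type} [Fintype ι] (b : ι → ℝ) (P v : ι → Fin d → ℝ) (hv : ∀ i, ‖v i‖ ≤ 1) (hs : Sep δ v) :
    ∫⁻ x in closedBall x0 ρ, mult (fun i => tb R (R * δ) (b i) (P i) (v i)) x ^ q ≤
      ENNReal.ofReal (8 * C * ((ρ / δ) ^ ε * (δ ^ d *
        (Fintype.card ι : ℝ) ^ (q - 1 / (d : ℝ))))) := by
  have hρ0 : 0 < ρ := by linarith
  have hq0 : 0 < q := by
    have : 0 ≤ 1 / (d : ℝ) := by positivity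
    linarith
  set T : ι → Set (Pt d) := fun i => tb R (R * δ) (b i) (P i) (v i) with hT
  have hTm : ∀ i, MeasurableSet (T i) := fun i => tb_meas _ _ _ _ _
  set P' : ι → Fin d → ℝ := fun i => ρ⁻¹ • (P i + x0.1 • v i - x0.2) with hP'
  set τ : ℝ := δ / ρ with hτ
  have hτ1 : τ < 1 := by rw [hτ, div_lt_one hρ0]; exact hρ
  have hτδ : δ ≤ τ := by
    rw [hτ, le_div_iff₀ hρ0]
    nlinarith
  set T' : ι → Set (Pt d) := fun i => tb R (R * τ) 0 (P' i) (v i) with hT'
  have hmem : ∀ i z, x0 + ρ • z ∈ closedBall x0 ρ → x0 + ρ • z ∈ T i → z ∈ T' i := by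
    intro i z hz hzi
    rw [mem_closedBall, dist_eq_norm, add_sub_cancel_left, norm_smul, Real.norm_eq_abs,
      abs_of_pos hρ0] at hz
    have hz1 : ‖z‖ ≤ 1 := by
      by_contra hcon
      rw [not_le] at hcon
      nlinarith
    refine ⟨?_, ?_⟩
    · rw [sub_zero]
      have := (norm_fst_le z).trans hz1
      rw [Real.norm_eq_abs] at this
      linarith
    · have h1 := hzi.2
      have h2 : z.2 - P' i - z.1 • v i =
          ρ⁻¹ • ((x0 + ρ • z).2 - P i - (x0 + ρ • z).1 • v i) := by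
        rw [hP']
        simp only [Prod.snd_add, Prod.fst_add, Prod.smul_snd, Prod.smul_fst, smul_eq_mul]
        have h3 : z.2 = ρ⁻¹ • (ρ • z.2) := by rw [smul_smul, inv_mul_cancel₀ hρ0.ne', one_smul]
        have h4 : z.1 • v i = ρ⁻¹ • ((ρ * z.1) • v i) := by
          rw [smul_smul, ← mul_assoc, inv_mul_cancel₀ hρ0.ne', one_mul]
        nth_rewrite 1 [h3]
        rw [h4, ← smul_sub, ← smul_sub, add_smul]
        congr 1
        abel
      rw [h2, norm_smul, norm_inv, Real.norm_eq_abs, abs_of_pos hρ0]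
      calc ρ⁻¹ * ‖(x0 + ρ • z).2 - P i - (x0 + ρ • z).1 • v i‖ ≤ ρ⁻¹ * (R * δ) := by gcongr
        _ = R * τ := by rw [hτ]; ring
  have hmain : ∫⁻ x in closedBall x0 ρ, mult T x ^ q ≤
      ENNReal.ofReal (ρ ^ (d + 1)) * ∫⁻ z, mult T' z ^ q := by
    rw [← lintegral_indicator measurableSet_closedBall, lint_zoom hρ0 x0
      (((mult_meas hTm).pow_const q).indicator measurableSet_closedBall)]
    gcongr with z
    by_cases hz : x0 + ρ • z ∈ closedBall x0 ρ
    · rw [indicator_of_mem hz]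
      gcongr
      unfold mult
      apply Finset.sum_le_sum
      intro i _
      by_cases hi : x0 + ρ • z ∈ T i
      · rw [indicator_of_mem hi, indicator_of_mem (hmem i z hz hi)]
        exact le_rfl
      · rw [indicator_of_notMem hi]; exact zero_le
    · rw [indicator_of_notMem hz]; exact zero_le
  refine hmain.trans ?_
  refine (mul_le_mul_right (less_sep hd hq hC hlo hδ hτδ hτ1 (fun _ => 0) P' v hv hs) _).trans ?_
  rw [← ENNReal.ofReal_mul (by positivity)]
  apply ENNReal.ofReal_le_ofReal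
  have h1 : 2 * (2 * τ / δ + 2) ≤ 8 / ρ := by
    have h2 : τ / δ = 1 / ρ := by rw [hτ]; field_simp
    have h3 : (1 : ℝ) ≤ 1 / ρ := by rw [le_div_iff₀ hρ0]; linarith
    have h4 : 2 * (2 * τ / δ + 2) = 4 * (τ / δ) + 4 := by ring
    have h5 : 8 / ρ = 8 * (1 / ρ) := by ring
    rw [h4, h2, h5]
    linarith
  have h2 : τ ^ (-ε) = (ρ / δ) ^ ε := by
    rw [Real.rpow_neg (by positivity), ← Real.inv_rpow (by positivity), hτ, inv_div]
  rw [h2]
  calc ρ ^ (d + 1) * (C * ((ρ / δ) ^ ε * (τ ^ d * (2 * (2 * τ / δ + 2) *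
        (Fintype.card ι : ℝ) ^ (q - 1 / (d : ℝ))))))
      ≤ ρ ^ (d + 1) * (C * ((ρ / δ) ^ ε * (τ ^ d * (8 / ρ *
        (Fintype.card ι : ℝ) ^ (q - 1 / (d : ℝ)))))) := by gcongr
    _ = _ := by
        rw [hτ, div_pow, pow_succ]
        field_simp

end Pool.Agent.Y254.EL
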